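import Mathlib

/-!
# MP_b77b2b_ag, GA1: determinants near a block identity matrix
-/

set_option autoImplicit false

namespace Pentad.Gen

variable {S : Type} [CommRing S]

theorem prod_sub_mem {q : Type} (𝔪 : Ideal S) (s : Finset q) (a b : q → S)
    (ha : ∀ i ∈ s, a i ∈ 𝔪) (hb : ∀ i ∈ s, b i ∈ 𝔪) (hab : ∀ i ∈ s, a i - b i ∈ 𝔪 ^ 2) :
    ∏ i ∈ s, a i - ∏ i ∈ s, b i ∈ 𝔪 ^ (s.card + 1) := by
  classical
  induction s using Finset.induction_on with
  | empty => simp
  | insert j s hj ih =>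
    rw [Finset.prod_insert hj, Finset.prod_insert hj, Finset.card_insert_of_notMem hj]
    have h1 := ih (fun i hi => ha i (Finset.mem_insert_of_mem hi))
      (fun i hi => hb i (Finset.mem_insert_of_mem hi))
      (fun i hi => hab i (Finset.mem_insert_of_mem hi))
    have h2 : ∏ i ∈ s, b i ∈ 𝔪 ^ s.card := by
      rw [← Finset.prod_const]
      exact Ideal.prod_mem_prod fun i hi => hb i (Finset.mem_insert_of_mem hi)
    have e : a j * ∏ i ∈ s, a i - b j * ∏ i ∈ s, b i
        = a j * (∏ i ∈ s, a i - ∏ i ∈ s, b i) + (a j - b j) * ∏ i ∈ s, b i := by ring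
    rw [e]
    refine Ideal.add_mem _ ?_ ?_
    · rw [pow_succ' 𝔪 (s.card + 1)]
      exact Ideal.mul_mem_mul (ha j (Finset.mem_insert_self _ _)) h1
    · have : s.card + 1 + 1 = 2 + s.card := by ring
      rw [this, pow_add]
      exact Ideal.mul_mem_mul (hab j (Finset.mem_insert_self _ _)) h2

theorem det_sub_mem {q : Type} [Fintype q] [DecidableEq q] (𝔪 : Ideal S) (A B : Matrix q q S)
    (hA : ∀ i j, A i j ∈ 𝔪) (hB : ∀ i j, B i j ∈ 𝔪) (hAB : ∀ i j, A i j - B i j ∈ 𝔪 ^ 2) :
    A.det - B.det ∈ 𝔪 ^ (Fintype.card q + 1) := by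
  rw [Matrix.det_apply', Matrix.det_apply', ← Finset.sum_sub_distrib]
  refine Ideal.sum_mem _ fun σ _ => ?_
  rw [← mul_sub]
  refine Ideal.mul_mem_left _ _ ?_
  have := prod_sub_mem 𝔪 Finset.univ (fun i => A (σ i) i) (fun i => B (σ i) i)
    (fun i _ => hA _ _) (fun i _ => hB _ _) (fun i _ => hAB _ _)
  rwa [Finset.card_univ] at this

theorem det_mem_pow {q : Type} [Fintype q] [DecidableEq q] (𝔪 : Ideal S) (A : Matrix q q S)
    (hA : ∀ i j, A i j ∈ 𝔪) : A.det ∈ 𝔪 ^ Fintype.card q := by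
  rw [Matrix.det_apply']
  refine Ideal.sum_mem _ fun σ _ => ?_
  refine Ideal.mul_mem_left _ _ ?_
  rw [← Finset.card_univ, ← Finset.prod_const]
  exact Ideal.prod_mem_prod fun i _ => hA _ _

/-- If the large determinant lies in `F`, the determinant of the small block lies in `F` up to
terms of higher order. -/
theorem det_block_mem {n q : Type} [Fintype n] [DecidableEq n] [Fintype q] [DecidableEq q]
    (𝔪 F : Ideal S) (A : Matrix n n S) (B : Matrix n q S) (C : Matrix q n S) (D : Matrix q q S)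
    (hA : ∀ i j, A i j - (1 : Matrix n n S) i j ∈ 𝔪) (hB : ∀ i j, B i j ∈ 𝔪)
    (hC : ∀ i j, C i j ∈ 𝔪) (hD : ∀ i j, D i j ∈ 𝔪)
    (hdet : (Matrix.fromBlocks A B C D).det ∈ F) : D.det ∈ F ⊔ 𝔪 ^ (Fintype.card q + 1) := by
  set E : Matrix q q S := A.det • D - C * A.adjugate * B with hE
  have e1 : Matrix.fromBlocks A B C D * Matrix.fromBlocks 1 (-(A.adjugate * B)) 0
      (A.det • (1 : Matrix q q S)) = Matrix.fromBlocks A 0 C E := by
    rw [Matrix.fromBlocks_multiply]
    congr 1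
    · simp
    · rw [Matrix.mul_neg, ← Matrix.mul_assoc, Matrix.mul_adjugate, Matrix.mul_smul,
        Matrix.smul_mul, Matrix.one_mul, Matrix.mul_one]
      simp
    · simp
    · rw [hE, Matrix.mul_neg, ← Matrix.mul_assoc, Matrix.mul_smul, Matrix.mul_one]
      rw [add_comm, sub_eq_add_neg]
  have e2 := congrArg Matrix.det e1
  rw [Matrix.det_mul, Matrix.det_fromBlocks_zero₁₂, Matrix.det_fromBlocks_zero₂₁] at e2
  have h1 : A.det * E.det ∈ F := by
    rw [← e2]
    exact Ideal.mul_mem_right _ _ hdet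
  have h2 : A.det - 1 ∈ 𝔪 := by
    have : Ideal.Quotient.mk 𝔪 A.det = 1 := by
      rw [RingHom.map_det]
      have : (Ideal.Quotient.mk 𝔪).mapMatrix A = 1 := by
        ext i j
        rw [RingHom.mapMatrix_apply, Matrix.map_apply]
        have h := Ideal.Quotient.eq.2 (hA i j)
        rw [h]
        by_cases hij : i = j
        · subst hij
          simp
        · simp [Matrix.one_apply_ne hij]
      rw [this, Matrix.det_one]
    rw [← Ideal.Quotient.eq, this, map_one]
  have hCB : ∀ i j, (C * A.adjugate * B) i j ∈ 𝔪 ^ 2 := by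
    intro i j
    rw [Matrix.mul_apply]
    refine Ideal.sum_mem _ fun x _ => ?_
    rw [pow_two]
    refine Ideal.mul_mem_mul ?_ (hB _ _)
    rw [Matrix.mul_apply]
    exact Ideal.sum_mem _ fun y _ => Ideal.mul_mem_right _ _ (hC _ _)
  have hED : ∀ i j, E i j - D i j ∈ 𝔪 ^ 2 := by
    intro i j
    have : E i j - D i j = (A.det - 1) * D i j - (C * A.adjugate * B) i j := by
      rw [hE, Matrix.sub_apply, Matrix.smul_apply, smul_eq_mul]
      ring
    rw [this]
    refine Ideal.sub_mem _ ?_ (hCB i j)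
    rw [pow_two]
    exact Ideal.mul_mem_mul h2 (hD _ _)
  have hE' : ∀ i j, E i j ∈ 𝔪 := by
    intro i j
    have : E i j = (E i j - D i j) + D i j := by ring
    rw [this]
    exact Ideal.add_mem _ (Ideal.pow_le_self (by norm_num) (hED i j)) (hD i j)
  have h3 : E.det - D.det ∈ 𝔪 ^ (Fintype.card q + 1) := det_sub_mem 𝔪 E D hE' hD hED
  have h4 : (A.det - 1) * E.det ∈ 𝔪 ^ (Fintype.card q + 1) := by
    rw [pow_succ']
    exact Ideal.mul_mem_mul h2 (det_mem_pow 𝔪 E hE')
  have : D.det = A.det * E.det - ((A.det - 1) * E.det + (E.det - D.det)) := by ring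
  rw [this]
  exact Ideal.sub_mem _ (Ideal.mem_sup_left h1) (Ideal.mem_sup_right (Ideal.add_mem _ h4 h3))

end Pentad.Gen
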