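import Pool.Agent.H.MP_b77b2b_ag.helper16.GC5

/-!
# MP_b77b2b_ag, GC6: admissible multisets with equal columns are connected by exchanges
-/

set_option autoImplicit false

namespace Pentad.Gen

variable {I : Type} [Fintype I] [DecidableEq I] {D : I → Type} [∀ i, DecidableEq (D i)] {r : ℕ}
  {α : Fin r → (i : I) → D i}
  {R : Multiset ((i : I) → D i) → Multiset ((i : I) → D i) → Prop}

/-- Adding the value of the anchor `l` in one column keeps the distance from the others. -/
theorem nn_sub (hα : ∀ i, Function.Injective fun l => α l i) {u : (i : I) → D i} {l m : Fin r}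
    (hm : m ≠ l) {x : I} {b : D x} (hb : b = α l x) :
    nn α m u ⊆ nn α m (Function.update u x b) := by
  intro a ha
  by_cases h : a = x
  · subst h
    rw [nn_update_self, hb]
    exact fun h => hm (hα a h.symm)
  · exact (nn_update_of_ne h).2 ha

theorem exists_two {N : Finset I} (h : 3 ≤ N.card) (a b : I) : ∃ x ∈ N, x ≠ a ∧ x ≠ b := by
  classical
  by_contra hc
  push Not at hc
  have : N ⊆ {a, b} := by
    intro x hx
    rw [Finset.mem_insert, Finset.mem_singleton]
    by_cases h : x = a
    · exact Or.inl h
    · exact Or.inr (hc x hx h)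
  have := (Finset.card_le_card this).trans Finset.card_le_two
  omega

/-- Swapping twice: first give the poor row a value, then take the wanted one. -/
theorem twoSwaps (hR : Conn α R) (hα : ∀ i, Function.Injective fun l => α l i)
    (h5 : 5 ≤ Fintype.card I) {t w v : (i : I) → D i} {S : Multiset ((i : I) → D i)}
    (hA : ∀ a ∈ w ::ₘ v ::ₘ S, Adm α a) {l : Fin r} {c d2 x : I}
    (hv : ∀ a, a ≠ c → a ≠ d2 → a ∉ nn α l v) (hd2 : d2 ∈ nn α l v) (hcv : c ∈ nn α l v)
    (hcd : d2 ≠ c) (hwc : w c = α l c) (hvc : v c = t c)
    (hH : Adm α (Function.update w c (t c))) (hxc : x ≠ c) (hxd : x ≠ d2) (hwx : w x ≠ t x)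
    (hxw : x ∈ nn α l w) (h3 : 3 ≤ (nn α l w).card) :
    ∃ w2 Q2, Ok α R (w ::ₘ v ::ₘ S) (w2 ::ₘ Q2) ∧ agr t w < agr t w2 := by
  classical
  have hvx : v x = α l x := not_mem_nn.1 (hv x hxc hxd)
  have a1 : Adm α (Function.update w x (v x)) := by
    intro m
    by_cases hm : m = l
    · subst hm
      have : (nn α m w).erase x ⊆ nn α m (Function.update w x (v x)) := by
        intro a ha
        rw [Finset.mem_erase] at ha
        exact (nn_update_of_ne ha.1).2 ha.2
      have h1 := Finset.card_le_card this
      have h2 := Finset.card_erase_of_mem hxw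
      omega
    · exact (hA w (by simp) m).trans (Finset.card_le_card (nn_sub hα hm hvx))
  have a2 : Adm α (Function.update v x (w x)) := by
    intro m
    by_cases hm : m = l
    · subst hm
      exact Finset.one_lt_card.2 ⟨c, (nn_update_of_ne (Ne.symm hxc)).2 hcv, d2,
        (nn_update_of_ne (Ne.symm hxd)).2 hd2, Ne.symm hcd⟩
    · exact far h5 hα hm c d2 x hv fun a _ _ h => Function.update_of_ne h _ _
  have s1 := okSwap hR hα h5 x hA rfl rfl a1 a2
  have hvc' : Function.update v x (w x) c = t c := by
    rw [Function.update_of_ne (Ne.symm hxc)]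
    exact hvc
  have hwc' : Function.update w x (v x) c = α l c := by
    rw [Function.update_of_ne (Ne.symm hxc)]
    exact hwc
  have a3 : Adm α (Function.update (Function.update w x (v x)) c (t c)) := by
    intro m
    by_cases hm : m = l
    · subst hm
      refine (a1 m).trans (Finset.card_le_card ?_)
      intro a ha
      by_cases h : a = c
      · subst h
        exact absurd hwc' (mem_nn.1 ha)
      · exact (nn_update_of_ne h).2 ha
    · refine (hH m).trans (Finset.card_le_card ?_)
      intro a ha
      by_cases h : a = c
      · subst h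
        rw [nn_update_self] at ha ⊢
        exact ha
      · rw [nn_update_of_ne h] at ha ⊢
        exact nn_sub hα hm hvx ha
  have a4 : Adm α (Function.update (Function.update v x (w x)) c (α l c)) := by
    intro m
    by_cases hm : m = l
    · subst hm
      refine Finset.one_lt_card.2 ⟨x, ?_, d2, ?_, hxd⟩
      · rw [nn_update_of_ne hxc, nn_update_self]
        exact mem_nn.1 hxw
      · rw [nn_update_of_ne hcd, nn_update_of_ne (Ne.symm hxd)]
        exact hd2
    · refine far h5 hα hm c d2 x hv fun a h1 _ h => ?_
      rw [Function.update_of_ne h1, Function.update_of_ne h]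
  have s2 := okSwap hR hα h5 c s1.2.1 (b := t c) (b' := α l c) hvc'.symm hwc'.symm a3 a4
  refine ⟨_, _, s1.trans hR s2, agr_lt (c := c) ?_ ?_ ?_⟩
  · intro i hi
    by_cases hic : i = c
    · subst hic
      rw [Function.update_self]
    · rw [Function.update_of_ne hic]
      by_cases hix : i = x
      · subst hix
        exact absurd hi hwx
      · rw [Function.update_of_ne hix]
        exact hi
  · rw [hwc, ← hvc]
    exact fun h => mem_nn.1 hcv h.symm
  · rw [Function.update_self]

/-- The total distance from an anchor depends only on the columns. -/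
theorem total_eq (l : Fin r) {P P' : Multiset ((i : I) → D i)}
    (h : ∀ i, P.map (fun w => w i) = P'.map fun w => w i) :
    (P.map fun w => (nn α l w).card).sum = (P'.map fun w => (nn α l w).card).sum := by
  classical
  have key : ∀ Q : Multiset ((i : I) → D i), (Q.map fun w => (nn α l w).card).sum
      = ∑ i, ((Q.map fun w => w i).map fun b => if b ≠ α l i then 1 else 0).sum := by
    intro Q
    induction Q using Multiset.induction_on with
    | empty => simp
    | cons a Q ih =>
      simp only [Multiset.map_cons, Multiset.sum_cons]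
      rw [ih, Finset.sum_add_distrib]
      congr 1
      unfold nn
      rw [Finset.card_filter]
  rw [key, key]
  refine Finset.sum_congr rfl fun i _ => ?_
  rw [h i]

theorem sum_le_two {Q : Multiset ((i : I) → D i)} {l : Fin r}
    (h : ∀ a ∈ Q, (nn α l a).card ≤ 2) : (Q.map fun w => (nn α l w).card).sum ≤ 2 * Q.card := by
  induction Q using Multiset.induction_on with
  | empty => simp
  | cons a Q ih =>
    rw [Multiset.map_cons, Multiset.sum_cons, Multiset.card_cons]
    have h1 := h a (Multiset.mem_cons_self _ _)
    have h2 := ih fun b hb => h b (Multiset.mem_cons_of_mem hb)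
    omega

theorem two_le_sum {Q : Multiset ((i : I) → D i)} {l : Fin r}
    (h : ∀ a ∈ Q, Adm α a) : 2 * Q.card ≤ (Q.map fun w => (nn α l w).card).sum := by
  induction Q using Multiset.induction_on with
  | empty => simp
  | cons a Q ih =>
    rw [Multiset.map_cons, Multiset.sum_cons, Multiset.card_cons]
    have h1 := h a (Multiset.mem_cons_self _ _) l
    have h2 := ih fun b hb => h b (Multiset.mem_cons_of_mem hb)
    omega

/-- Improvement of the agreement. -/
theorem improve (hR : Conn α R) (hα : ∀ i, Function.Injective fun l => α l i)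
    (h5 : 5 ≤ Fintype.card I) {t w : (i : I) → D i} {Q T : Multiset ((i : I) → D i)}
    (hA : ∀ a ∈ w ::ₘ Q, Adm α a) (hT : ∀ a ∈ t ::ₘ T, Adm α a)
    (hcon : ∀ i, (w ::ₘ Q).map (fun w => w i) = (t ::ₘ T).map fun w => w i) (hne : w ≠ t) :
    ∃ w2 Q2, Ok α R (w ::ₘ Q) (w2 ::ₘ Q2) ∧ agr t w < agr t w2 := by
  classical
  by_cases hH : ∀ c, w c ≠ t c → Adm α (Function.update w c (t c))
  swap
  · push Not at hH
    obtain ⟨c, hc, hbad⟩ := hH
    exact typeI hR hα h5 hA (hT t (by simp)) hcon hc hbad
  obtain ⟨c, hc⟩ : ∃ c, w c ≠ t c := by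
    by_contra h
    push Not at h
    exact hne (funext h)
  obtain ⟨v, S, rfl, hvc⟩ := findRow (hcon c) hc
  -- one swap is enough if it is allowed
  have one : ∀ (i : I) (u : (i : I) → D i) (S' : Multiset ((i : I) → D i)),
      (∀ a ∈ w ::ₘ u ::ₘ S', Adm α a) → w i ≠ t i → u i = t i →
      Adm α (Function.update u i (w i)) →
      ∃ w2 Q2, Ok α R (w ::ₘ u ::ₘ S') (w2 ::ₘ Q2) ∧ agr t w < agr t w2 := by
    intro i u S' hA' hi hui hx'
    refine ⟨_, _, okSwap hR hα h5 i hA' (b := t i) hui.symm rfl (hH i hi) hx',
      agr_lt (c := i) ?_ hi ?_⟩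
    · intro j hj
      by_cases hji : j = i
      · subst hji
        exact absurd hj hi
      · rw [Function.update_of_ne hji]
        exact hj
    · rw [Function.update_self]
  by_cases hx' : Adm α (Function.update v c (w c))
  · exact one c v S hA hc hvc hx'
  obtain ⟨l, d2, hwc, hcv, hdc, hd2, hv⟩ := poor (hA v (by simp)) hx'
  by_cases hdon : ∃ x, w x ≠ t x ∧ x ≠ c ∧ x ≠ d2 ∧ x ∈ nn α l w
  · obtain ⟨x, hxt, hxc, hxd, hxw⟩ := hdon
    by_cases h3 : 3 ≤ (nn α l w).card
    · exact twoSwaps hR hα h5 hA hv hd2 hcv hdc hwc hvc (hH c hc) hxc hxd hxt hxw h3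
    · have h2 : ((nn α l w).erase x).card = 1 := by
        have := hA w (by simp) l
        have := Finset.card_erase_of_mem hxw
        omega
      obtain ⟨y, hy⟩ := Finset.card_eq_one.1 h2
      have hyw : y ∈ (nn α l w).erase x := by rw [hy]; exact Finset.mem_singleton_self y
      rw [Finset.mem_erase] at hyw
      have hw : ∀ a, a ≠ x → a ≠ y → a ∉ nn α l w := by
        intro a hax hay ha
        have : a ∈ (nn α l w).erase x := Finset.mem_erase.2 ⟨hax, ha⟩
        rw [hy, Finset.mem_singleton] at this
        exact hay this
      have hcw : c ∉ nn α l w := not_mem_nn.2 hwc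
      have hyc : y ≠ c := fun h => hcw (h ▸ hyw.2)
      have g1 : Good α {c, x} w := by
        intro m
        by_cases hm : m = l
        · subst hm
          exact ⟨⟨x, hxw, by simp⟩, y, hyw.2, by simp [hyc, hyw.1]⟩
        · obtain ⟨a, ha⟩ := exists_not_mem h5 {c, x, y} (Finset.card_le_three.trans (by norm_num))
          simp only [Finset.mem_insert, Finset.mem_singleton, not_or] at ha
          exact ⟨⟨c, mem_other hα hcw hm, by simp⟩, a, mem_other hα (hw a ha.2.1 ha.2.2) hm,
            by simp [ha.1, ha.2.1]⟩
      have g2 : Good α {c, x} v := by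
        intro m
        by_cases hm : m = l
        · subst hm
          exact ⟨⟨c, hcv, by simp⟩, d2, hd2, by simp [hdc, Ne.symm hxd]⟩
        · obtain ⟨a, ha⟩ := exists_not_mem h5 {c, d2, x} (Finset.card_le_three.trans (by norm_num))
          simp only [Finset.mem_insert, Finset.mem_singleton, not_or] at ha
          exact ⟨⟨x, mem_other hα (hv x hxc hxd) hm, by simp⟩, a,
            mem_other hα (hv a ha.1 ha.2.1) hm, by simp [ha.1, ha.2.2]⟩
      refine ⟨_, _, okEx hR {c, x} hA g1 g2, agr_lt (c := c) ?_ hc ?_⟩
      · intro i hi
        by_cases hic : i = c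
        · subst hic
          rw [mix_of_mem (by simp)]
          exact hvc
        · by_cases hix : i = x
          · subst hix
            exact absurd hi hxt
          · rw [mix_of_not (by simp [hic, hix])]
            exact hi
      · rw [mix_of_mem (by simp)]
        exact hvc
  push Not at hdon
  have hcw : c ∉ nn α l w := not_mem_nn.2 hwc
  by_cases hbig : ∃ u ∈ S, 3 ≤ (nn α l u).card
  · obtain ⟨u, hu, hu3⟩ := hbig
    obtain ⟨S', rfl⟩ := Multiset.exists_cons_of_mem hu
    obtain ⟨x, hxu, hxc, hxd⟩ := exists_two hu3 c d2
    have hvx : v x = α l x := not_mem_nn.1 (hv x hxc hxd)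
    have hA2 : ∀ a ∈ v ::ₘ u ::ₘ w ::ₘ S', Adm α a := by
      intro a ha
      refine hA a ?_
      simp only [Multiset.mem_cons] at ha ⊢
      tauto
    have a1 : Adm α (Function.update v x (u x)) := by
      intro m
      by_cases hm : m = l
      · subst hm
        exact Finset.one_lt_card.2 ⟨c, (nn_update_of_ne (Ne.symm hxc)).2 hcv, d2,
          (nn_update_of_ne (Ne.symm hxd)).2 hd2, Ne.symm hdc⟩
      · exact far h5 hα hm c d2 x hv fun a _ _ h => Function.update_of_ne h _ _
    have a2 : Adm α (Function.update u x (v x)) := by
      intro m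
      by_cases hm : m = l
      · subst hm
        have : (nn α m u).erase x ⊆ nn α m (Function.update u x (v x)) := by
          intro a ha
          rw [Finset.mem_erase] at ha
          exact (nn_update_of_ne ha.1).2 ha.2
        have h1 := Finset.card_le_card this
        have h2 := Finset.card_erase_of_mem hxu
        omega
      · exact (hA u (by simp) m).trans (Finset.card_le_card (nn_sub hα hm hvx))
    have step := okSwap hR hα h5 x hA2 rfl rfl a1 a2
    have e1 : v ::ₘ u ::ₘ w ::ₘ S' = w ::ₘ v ::ₘ u ::ₘ S' := by
      rw [Multiset.cons_swap u w, Multiset.cons_swap v w]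
    have e2 : Function.update v x (u x) ::ₘ Function.update u x (v x) ::ₘ w ::ₘ S'
        = w ::ₘ Function.update v x (u x) ::ₘ Function.update u x (v x) ::ₘ S' := by
      rw [Multiset.cons_swap (Function.update u x (v x)) w,
        Multiset.cons_swap (Function.update v x (u x)) w]
    rw [e1, e2] at step
    obtain ⟨w2, Q2, hok, hag⟩ := one c (Function.update v x (u x)) _ step.2.1 hc
      (by rw [Function.update_of_ne (Ne.symm hxc)]; exact hvc)
      (by
        intro m
        by_cases hm : m = l
        · subst hm
          refine Finset.one_lt_card.2 ⟨x, ?_, d2, ?_, hxd⟩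
          · rw [nn_update_of_ne hxc, nn_update_self]
            exact mem_nn.1 hxu
          · rw [nn_update_of_ne hdc, nn_update_of_ne (Ne.symm hxd)]
            exact hd2
        · refine far h5 hα hm c d2 x hv fun a h1 _ h => ?_
          rw [Function.update_of_ne h1, Function.update_of_ne h])
    exact ⟨w2, Q2, step.trans hR hok, hag⟩
  push Not at hbig
  -- counting
  have hcards : (w ::ₘ v ::ₘ S).card = (t ::ₘ T).card := by
    have := congrArg Multiset.card (hcon c)
    rwa [Multiset.card_map, Multiset.card_map] at this
  have htot := total_eq (α := α) l hcon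
  have hvcard : (nn α l v).card ≤ 2 := by
    have : nn α l v ⊆ {c, d2} := by
      intro a ha
      rw [Finset.mem_insert, Finset.mem_singleton]
      by_contra hn
      rw [not_or] at hn
      exact hv a hn.1 hn.2 ha
    exact (Finset.card_le_card this).trans Finset.card_le_two
  have hle : (nn α l t).card ≤ (nn α l w).card := by
    rw [Multiset.map_cons, Multiset.map_cons, Multiset.map_cons, Multiset.sum_cons,
      Multiset.sum_cons, Multiset.sum_cons] at htot
    have h1 : (S.map fun w => (nn α l w).card).sum ≤ 2 * S.card :=
      sum_le_two fun a ha => Nat.lt_succ_iff.1 (hbig a ha)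
    have h2 : 2 * T.card ≤ (T.map fun w => (nn α l w).card).sum :=
      two_le_sum fun a ha => hT a (Multiset.mem_cons_of_mem ha)
    rw [Multiset.card_cons, Multiset.card_cons, Multiset.card_cons] at hcards
    omega
  by_cases hlast : w d2 ≠ t d2 ∧ d2 ∈ nn α l w ∧ d2 ∉ nn α l t
  · obtain ⟨h1, h2, h3⟩ := hlast
    have hcon2 := hcon d2
    obtain ⟨u, S', hS', hud⟩ := findRow hcon2 h1
    have huv : u ≠ v := by
      rintro rfl
      exact h3 (mem_nn.2 fun h => mem_nn.1 hd2 (hud.trans h))
    have : u ∈ S := by
      have hu : u ∈ v ::ₘ S := by rw [hS']; exact Multiset.mem_cons_self _ _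
      rw [Multiset.mem_cons] at hu
      exact hu.resolve_left huv
    have hu2 := hbig u this
    have huA : Adm α u := hA u (by simp [this])
    rw [hS'] at hA ⊢
    refine one d2 u S' hA h1 hud ?_
    by_contra hbad
    obtain ⟨m, y, hm, -, -, -, hother⟩ := poor huA hbad
    have hml : m ≠ l := by
      rintro rfl
      exact mem_nn.1 h2 hm
    have hun : (Finset.univ : Finset I) ⊆ nn α l u ∪ {d2, y} := by
      intro a _
      rw [Finset.mem_union]
      by_cases ha : a ∈ nn α l u
      · exact Or.inl ha
      · refine Or.inr ?_
        rw [Finset.mem_insert, Finset.mem_singleton]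
        by_contra hn
        rw [not_or] at hn
        exact hother a hn.1 hn.2 (mem_other hα ha hml)
    have k1 := (Finset.card_le_card hun).trans (Finset.card_union_le _ _)
    rw [Finset.card_univ] at k1
    have k2 : ({d2, y} : Finset I).card ≤ 2 := Finset.card_le_two
    omega
  · exfalso
    have hsub : insert c (nn α l w) ⊆ nn α l t := by
      intro a ha
      rw [Finset.mem_insert] at ha
      rcases ha with rfl | ha
      · rw [mem_nn, ← hvc]
        exact mem_nn.1 hcv
      · by_cases hat : w a = t a
        · rw [mem_nn, ← hat]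
          exact mem_nn.1 ha
        · have hac : a ≠ c := fun h => hcw (h ▸ ha)
          have had : a = d2 := by
            by_contra h
            exact hdon a hat hac h ha
          subst had
          by_contra hn
          exact hlast ⟨hat, ha, hn⟩
    have k1 := Finset.card_le_card hsub
    rw [Finset.card_insert_of_notMem hcw] at k1
    omega

/-- Multisets of admissible words with equal columns are connected by exchanges. -/
theorem connected (hR : Conn α R) (hα : ∀ i, Function.Injective fun l => α l i)
    (h5 : 5 ≤ Fintype.card I) : ∀ (T P : Multiset ((i : I) → D i)), (∀ a ∈ P, Adm α a) →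
      (∀ a ∈ T, Adm α a) → (∀ i, P.map (fun w => w i) = T.map fun w => w i) → R P T := by
  classical
  obtain ⟨i0⟩ : Nonempty I := Fintype.card_pos_iff.1 (by omega)
  intro T
  induction T using Multiset.induction_on with
  | empty =>
    intro P _ _ h
    have : P = 0 := by
      have := h i0
      rw [Multiset.map_zero, Multiset.map_eq_zero] at this
      exact this
    rw [this]
    exact hR.refl _
  | cons t T ih =>
    intro P hP hT h
    -- reach a multiset containing `t`
    have reach : ∀ (n : ℕ) (w : (i : I) → D i) (Q : Multiset ((i : I) → D i)),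
        Ok α R P (w ::ₘ Q) → Fintype.card I - agr t w ≤ n → ∃ Q', Ok α R P (t ::ₘ Q') := by
      intro n
      induction n with
      | zero =>
        intro w Q hok hn
        have : w = t := by
          have h1 : (Finset.univ.filter fun i => w i = t i) = Finset.univ := by
            refine Finset.eq_univ_of_card _ (le_antisymm (Finset.card_le_univ _) ?_)
            unfold agr at hn
            omega
          funext i
          have := Finset.mem_univ i
          rw [← h1, Finset.mem_filter] at this
          exact this.2
        subst this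
        exact ⟨Q, hok⟩
      | succ n ihn =>
        intro w Q hok hn
        by_cases hwt : w = t
        · subst hwt
          exact ⟨Q, hok⟩
        · obtain ⟨w2, Q2, hok2, hag⟩ := improve hR hα h5 hok.2.1 hT
            (fun i => (hok.2.2 i).trans (h i)) hwt
          exact ihn w2 Q2 (hok.trans hR hok2) (by omega)
    have hne : P ≠ 0 := by
      rintro rfl
      have := h i0
      rw [Multiset.map_zero, Multiset.map_cons] at this
      exact Multiset.zero_ne_cons this
    obtain ⟨w, hw⟩ := Multiset.exists_mem_of_ne_zero hne
    obtain ⟨Q, rfl⟩ := Multiset.exists_cons_of_mem hw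
    obtain ⟨Q', hok⟩ := reach _ w Q ⟨hR.refl _, hP, fun _ => rfl⟩ le_rfl
    refine hR.trans _ _ _ hok.1 (hR.cons _ _ _ (ih Q' ?_ ?_ ?_))
    · exact fun a ha => hok.2.1 a (Multiset.mem_cons_of_mem ha)
    · exact fun a ha => hT a (Multiset.mem_cons_of_mem ha)
    · intro i
      have := (hok.2.2 i).trans (h i)
      rw [Multiset.map_cons, Multiset.map_cons] at this
      exact (Multiset.cons_inj_right _).1 this

end Pentad.Gen
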