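import Pool.Agent.H.MP_b77b2b_ag.helper16.GA1
import Pool.Agent.H.MP_b77b2b_ag.helper16.GC6
import Pool.Agent.H.MP_b77b2b_ag.W3

/-!
# MP_b77b2b_ag, GA2: exchanges are leading forms of minors
-/

set_option autoImplicit false

namespace Pentad.Gen

open MvPolynomial

variable {I : Type} [Fintype I] [DecidableEq I] {D : I → Type} [∀ i, DecidableEq (D i)] {r : ℕ}

/-- The sum of the anchors, as a tensor. -/
noncomputable def pt (α : Fin r → (i : I) → D i) (w : (i : I) → D i) : ℂ :=
  ∑ l, ∏ i, if w i = α l i then 1 else 0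

theorem prod_ite_eq (u w : (i : I) → D i) :
    (∏ i, if w i = u i then (1 : ℂ) else 0) = if w = u then 1 else 0 := by
  by_cases h : w = u
  · subst h
    simp
  · rw [if_neg h]
    obtain ⟨i, hi⟩ := Function.ne_iff.1 h
    exact Finset.prod_eq_zero (Finset.mem_univ i) (if_neg hi)

theorem pt_eq (α : Fin r → (i : I) → D i) (w : (i : I) → D i) :
    pt α w = ∑ l, if w = α l then 1 else 0 := by
  unfold pt
  exact Finset.sum_congr rfl fun l _ => prod_ite_eq _ _

theorem pt_zero {α : Fin r → (i : I) → D i} {w : (i : I) → D i} (h : ∀ l, w ≠ α l) :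
    pt α w = 0 := by
  rw [pt_eq]
  exact Finset.sum_eq_zero fun l _ => if_neg (h l)

theorem pt_anchor {α : Fin r → (i : I) → D i} (hinj : Function.Injective α) (l : Fin r) :
    pt α (α l) = 1 := by
  rw [pt_eq, Finset.sum_eq_single l]
  · rw [if_pos rfl]
  · intro m _ hm
    exact if_neg fun h => hm (hinj h.symm)
  · intro h
    exact absurd (Finset.mem_univ l) h

/-- The two parts of the anchors are distinct. -/
def Sep (α : Fin r → (i : I) → D i) (C : Finset I) : Prop :=
  ∀ l m, l ≠ m → (∃ i, i ∈ C ∧ α l i ≠ α m i) ∧ ∃ i, i ∉ C ∧ α l i ≠ α m i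

theorem mix_ne_anchor {α : Fin r → (i : I) → D i} {C : Finset I} {w : (i : I) → D i}
    (h : Good α C w) (u : (i : I) → D i) (l : Fin r) : mix C w u ≠ α l ∧ mix C u w ≠ α l := by
  refine ⟨?_, ?_⟩
  · rintro e
    obtain ⟨a, ha, haC⟩ := (h l).1
    have := congrFun e a
    rw [mix_of_mem haC] at this
    exact mem_nn.1 ha this
  · rintro e
    obtain ⟨a, ha, haC⟩ := (h l).2
    have := congrFun e a
    rw [mix_of_not haC] at this
    exact mem_nn.1 ha this

theorem pt_mix_anchor {α : Fin r → (i : I) → D i} (hinj : Function.Injective α) {C : Finset I}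
    (hC : Sep α C) (l m : Fin r) : pt α (mix C (α l) (α m)) = if l = m then 1 else 0 := by
  by_cases h : l = m
  · subst h
    rw [if_pos rfl]
    have : mix C (α l) (α l) = α l := by
      funext i
      unfold mix
      split_ifs <;> rfl
    rw [this, pt_anchor hinj]
  · rw [if_neg h]
    refine pt_zero fun j e => ?_
    by_cases hj : l = j
    · subst hj
      obtain ⟨i, hi, hne⟩ := (hC l m h).2
      have := congrFun e i
      rw [mix_of_not hi] at this
      exact hne this.symm
    · obtain ⟨i, hi, hne⟩ := (hC l j hj).1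
      have := congrFun e i
      rw [mix_of_mem hi] at this
      exact hne this

/-- Reindexed minors. -/
theorem minor_mem {k m q : ℕ} (hm : 2 ≤ m) (hk : k + 1 = r + q) (C : Finset I)
    (x y : Fin r ⊕ Fin q → (i : I) → D i) :
    (Matrix.of fun s t => (X (mix C (x s) (y t)) : MvPolynomial ((i : I) → D i) ℂ)).det
      ∈ FI k m D := by
  let e : Fin (k + 1) ≃ Fin r ⊕ Fin q := (finCongr hk).trans finSumFinEquiv.symm
  have h := minor_mem_FI (k := k) hm C (x ∘ e) (y ∘ e)
  have h2 : (Matrix.of fun s t => (X (mix C ((x ∘ e) s) ((y ∘ e) t)) :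
      MvPolynomial ((i : I) → D i) ℂ))
      = (Matrix.of fun s t => (X (mix C (x s) (y t)) :
        MvPolynomial ((i : I) → D i) ℂ)).submatrix e e := rfl
  rw [h2, Matrix.det_submatrix_equiv_self] at h
  exact h

/-- The leading form of the minor of the anchors and `q` further words. -/
theorem leading {k m q : ℕ} (hm : 2 ≤ m) (hk : k + 1 = r + q) {α : Fin r → (i : I) → D i}
    (hinj : Function.Injective α) {C : Finset I} (hC : Sep α C) (w : Fin q → (i : I) → D i)
    (hw : ∀ s, Good α C (w s)) :
    (Matrix.of fun s t => (X (mix C (w s) (w t)) : MvPolynomial ((i : I) → D i) ℂ)).det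
      ∈ FI k m D ⊔ (RingHom.ker (eval (pt α))) ^ (q + 1) := by
  have h := det_block_mem (RingHom.ker (eval (pt α))) (FI k m D)
    (Matrix.of fun l l' => (X (mix C (α l) (α l')) : MvPolynomial ((i : I) → D i) ℂ))
    (Matrix.of fun l t => (X (mix C (α l) (w t)) : MvPolynomial ((i : I) → D i) ℂ))
    (Matrix.of fun s l => (X (mix C (w s) (α l)) : MvPolynomial ((i : I) → D i) ℂ))
    (Matrix.of fun s t => (X (mix C (w s) (w t)) : MvPolynomial ((i : I) → D i) ℂ))
    (by
      intro l l'
      rw [RingHom.mem_ker, Matrix.of_apply, map_sub, eval_X, pt_mix_anchor hinj hC]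
      by_cases h : l = l'
      · subst h
        simp
      · rw [if_neg h, Matrix.one_apply_ne h, map_zero, sub_zero])
    (by
      intro l t
      rw [RingHom.mem_ker, Matrix.of_apply, eval_X]
      exact pt_zero fun j => (mix_ne_anchor (hw t) _ j).2)
    (by
      intro s l
      rw [RingHom.mem_ker, Matrix.of_apply, eval_X]
      exact pt_zero fun j => (mix_ne_anchor (hw s) _ j).1)
    (by
      intro s t
      rw [RingHom.mem_ker, Matrix.of_apply, eval_X]
      exact pt_zero fun j => (mix_ne_anchor (hw s) _ j).1)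
    (by
      have := minor_mem (k := k) (m := m) hm hk C (Sum.elim α w) (Sum.elim α w)
      convert this using 2
      ext s t
      rcases s with s | s <;> rcases t with t | t <;> rfl)
  rwa [Fintype.card_fin] at h

/-- The relation between monomials at the point. -/
def Rel (k m : ℕ) (α : Fin r → (i : I) → D i) (P Q : Multiset ((i : I) → D i)) : Prop :=
  P.card = Q.card ∧ (P.map fun w => (X w - C (pt α w) : MvPolynomial ((i : I) → D i) ℂ)).prod
    - (Q.map fun w => (X w - C (pt α w) : MvPolynomial ((i : I) → D i) ℂ)).prod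
      ∈ FI k m D ⊔ (RingHom.ker (eval (pt α))) ^ (P.card + 1)

omit [Fintype I] [DecidableEq I] [∀ i, DecidableEq (D i)] in
theorem mul_mem_step {W : Type} {F 𝔪 : Ideal (MvPolynomial W ℂ)} {x y : MvPolynomial W ℂ} {n : ℕ}
    (hx : x ∈ 𝔪) (hy : y ∈ F ⊔ 𝔪 ^ n) : x * y ∈ F ⊔ 𝔪 ^ (n + 1) := by
  obtain ⟨a, ha, b, hb, rfl⟩ := Submodule.mem_sup.1 hy
  rw [mul_add]
  refine Ideal.add_mem _ (Ideal.mem_sup_left (Ideal.mul_mem_left _ _ ha))
    (Ideal.mem_sup_right ?_)
  rw [pow_succ']
  exact Ideal.mul_mem_mul hx hb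

theorem z_mem (α : Fin r → (i : I) → D i) (w : (i : I) → D i) :
    (X w - C (pt α w) : MvPolynomial ((i : I) → D i) ℂ) ∈ RingHom.ker (eval (pt α)) := by
  rw [RingHom.mem_ker, map_sub, eval_X, eval_C, sub_self]

theorem rel_conn {k m : ℕ} (hm : 2 ≤ m) (hk : k = r + 1) {α : Fin r → (i : I) → D i}
    (hinj : Function.Injective α)
    (hsep : ∀ (C : Finset I) (w : (i : I) → D i), Good α C w → Sep α C) :
    Conn α (Rel k m α) where
  refl P := ⟨rfl, by rw [sub_self]; exact Ideal.zero_mem _⟩
  trans P Q S h1 h2 := by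
    refine ⟨h1.1.trans h2.1, ?_⟩
    have h3 := h2.2
    rw [← h1.1] at h3
    have := Ideal.add_mem _ h1.2 h3
    rwa [sub_add_sub_cancel] at this
  cons a P Q h := by
    refine ⟨by rw [Multiset.card_cons, Multiset.card_cons, h.1], ?_⟩
    rw [Multiset.map_cons, Multiset.map_cons, Multiset.prod_cons, Multiset.prod_cons,
      Multiset.card_cons, ← mul_sub]
    exact mul_mem_step (z_mem α a) h.2
  exch C w w' hw hw' := by
    refine ⟨by simp, ?_⟩
    have h := leading (k := k) (m := m) (q := 2) hm (by omega) hinj (hsep C w hw) ![w, w'] (by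
      intro s
      fin_cases s
      · exact hw
      · exact hw')
    rw [Matrix.det_fin_two] at h
    have hself : ∀ u : (i : I) → D i, mix C u u = u := by
      intro u
      funext i
      unfold mix
      split_ifs <;> rfl
    have hgood : ∀ {u : (i : I) → D i}, Good α C u → pt α u = 0 := by
      intro u hu
      refine pt_zero fun l e => ?_
      obtain ⟨a, ha, -⟩ := (hu l).1
      exact mem_nn.1 ha (congrFun e a)
    have h1 : pt α (mix C w' w) = 0 := pt_zero fun l => (mix_ne_anchor hw' _ l).1
    have h2 : pt α (mix C w w') = 0 := pt_zero fun l => (mix_ne_anchor hw _ l).1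
    simp only [Multiset.map_cons, Multiset.map_zero, Multiset.prod_cons, Multiset.prod_zero,
      Multiset.card_cons, Multiset.card_zero, hgood hw, hgood hw', h1, h2, map_zero, sub_zero,
      mul_one]
    simp only [Matrix.of_apply, Matrix.cons_val_zero, Matrix.cons_val_one, hself] at h
    have e : (X (mix C w' w) : MvPolynomial ((i : I) → D i) ℂ) * X (mix C w w')
        = X (mix C w w') * X (mix C w' w) := mul_comm _ _
    rw [e]
    exact h

end Pentad.Gen
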