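import Pool.Agent.H.MP_b77b2b_ag.helper16.GA2

/-!
# MP_b77b2b_ag, GA3: leading forms along curves, monomial maps
-/

set_option autoImplicit false

namespace Pentad.Gen

open MvPolynomial

section general

variable {W : Type}

/-- The leading form vanishes at the velocity of a curve. -/
theorem lead_curve (g : MvPolynomial W ℂ) (j : ℕ) (hg : ∀ m ∈ g.support, j ≤ m.degree)
    (Q : W → Polynomial ℂ) (h : ∀ t : ℂ, eval (fun w => t * (Q w).eval t) g = 0) :
    eval (fun w => (Q w).eval 0) (homogeneousComponent j g) = 0 := by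
  classical
  let G : Polynomial ℂ := ∑ m ∈ g.support,
    Polynomial.C (coeff m g) * Polynomial.X ^ (m.degree - j) * m.prod fun w e => Q w ^ e
  have hG : Polynomial.X ^ j * G = 0 := by
    refine Polynomial.funext fun t => ?_
    rw [Polynomial.eval_zero, ← h t, Polynomial.eval_mul, Polynomial.eval_pow, Polynomial.eval_X,
      Polynomial.eval_finsetSum, Finset.mul_sum, eval_eq]
    refine Finset.sum_congr rfl fun m hm => ?_
    rw [Polynomial.eval_mul, Polynomial.eval_mul, Polynomial.eval_C, Polynomial.eval_pow,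
      Polynomial.eval_X, Finsupp.prod, Polynomial.eval_prod]
    simp only [Polynomial.eval_pow, mul_pow, Finset.prod_mul_distrib]
    have e1 : ∏ i ∈ m.support, t ^ m i = t ^ m.degree := by
      rw [Finset.prod_pow_eq_pow_sum]
      rfl
    rw [e1]
    have e2 : t ^ m.degree = t ^ j * t ^ (m.degree - j) := by
      rw [← pow_add, Nat.add_sub_cancel' (hg m hm)]
    rw [e2]
    ring
  have hG0 : G = 0 := by
    rcases mul_eq_zero.1 hG with h | h
    · exact absurd h (pow_ne_zero _ Polynomial.X_ne_zero)
    · exact h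
  have h0 : G.eval 0 = 0 := by rw [hG0, Polynomial.eval_zero]
  refine Eq.trans ?_ h0
  rw [homogeneousComponent_apply, map_sum, Finset.sum_filter, Polynomial.eval_finsetSum]
  refine Finset.sum_congr rfl fun m hm => ?_
  rw [Polynomial.eval_mul, Polynomial.eval_mul, Polynomial.eval_C, Polynomial.eval_pow,
    Polynomial.eval_X, Finsupp.prod, Polynomial.eval_prod]
  simp only [Polynomial.eval_pow]
  split_ifs with hd
  · rw [hd, Nat.sub_self, pow_zero, mul_one, eval_monomial, Finsupp.prod]
  · have : m.degree - j ≠ 0 := by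
      have := hg m hm
      omega
    rw [zero_pow this, mul_zero, zero_mul]

/-- Translation to the point. -/
noncomputable def sh (p : W → ℂ) : MvPolynomial W ℂ →ₐ[ℂ] MvPolynomial W ℂ :=
  aeval fun w => X w + C (p w)

theorem eval_sh (p x : W → ℂ) (f : MvPolynomial W ℂ) :
    eval x (sh p f) = eval (fun w => x w + p w) f := by
  have h1 : (aeval x : MvPolynomial W ℂ →ₐ[ℂ] ℂ).comp (sh p) = aeval fun w => x w + p w := by
    refine algHom_ext fun w => ?_
    rw [AlgHom.comp_apply]
    unfold sh
    rw [aeval_X, aeval_X, map_add, aeval_X, aeval_C]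
    rfl
  have h2 := congrArg (fun F => F f) h1
  simp only [AlgHom.comp_apply, aeval_eq_eval] at h2
  exact h2

theorem aeval_sh (p : W → ℂ) (f : MvPolynomial W ℂ) :
    aeval (fun w => (X w - C (p w) : MvPolynomial W ℂ)) (sh p f) = f := by
  have h1 : (aeval fun w => (X w - C (p w) : MvPolynomial W ℂ)).comp (sh p)
      = AlgHom.id ℂ (MvPolynomial W ℂ) := by
    refine algHom_ext fun w => ?_
    rw [AlgHom.comp_apply]
    unfold sh
    rw [aeval_X, map_add, aeval_X, aeval_C, AlgHom.id_apply]
    rw [algebraMap_eq, sub_add_cancel]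
  exact congrArg (fun F => F f) h1

theorem sh_support {p : W → ℂ} {j : ℕ} {f : MvPolynomial W ℂ}
    (hf : f ∈ (RingHom.ker (eval p)) ^ j) : ∀ m ∈ (sh p f).support, j ≤ m.degree := by
  rw [← mem_pow_idealOfVars_iff]
  have h1 : (RingHom.ker (eval p)).map (sh p) ≤ idealOfVars W ℂ := by
    refine Ideal.map_le_iff_le_comap.2 fun g hg => ?_
    rw [Ideal.mem_comap, ← pow_one (idealOfVars W ℂ), mem_pow_idealOfVars_iff]
    intro m hm
    rw [Nat.one_le_iff_ne_zero]
    intro h0
    have : m = 0 := (Finsupp.degree_eq_zero_iff m).1 h0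
    subst this
    rw [mem_support_iff] at hm
    apply hm
    have h2 : eval (fun _ => (0 : ℂ)) (sh p g) = 0 := by
      rw [eval_sh]
      simp only [zero_add]
      exact hg
    rw [← constantCoeff_eq, ← h2]
    have : (eval fun _ : W => (0 : ℂ)) = (constantCoeff : MvPolynomial W ℂ →+* ℂ) := eval_zero'
    rw [this]
  have h2 := Ideal.mem_map_of_mem (sh p) hf
  rw [Ideal.map_pow] at h2
  exact Ideal.pow_right_mono h1 j h2

theorem z_prod_mem (p : W → ℂ) (m : W →₀ ℕ) :
    (m.prod fun w e => (X w - C (p w) : MvPolynomial W ℂ) ^ e)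
      ∈ (RingHom.ker (eval p)) ^ m.degree := by
  classical
  rw [Finsupp.prod]
  have : (RingHom.ker (eval p)) ^ m.degree = ∏ w ∈ m.support, (RingHom.ker (eval p)) ^ m w := by
    rw [Finset.prod_pow_eq_pow_sum]
    rfl
  rw [this]
  refine Ideal.prod_mem_prod fun w _ => Ideal.pow_mem_pow ?_ _
  rw [RingHom.mem_ker, map_sub, eval_X, eval_C, sub_self]

/-- The part of order at least `j` without its leading form has higher order. -/
theorem sub_lead_mem {p : W → ℂ} {j : ℕ} {f : MvPolynomial W ℂ}
    (hf : ∀ m ∈ (sh p f).support, j ≤ m.degree) :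
    f - aeval (fun w => (X w - C (p w) : MvPolynomial W ℂ)) (homogeneousComponent j (sh p f))
      ∈ (RingHom.ker (eval p)) ^ (j + 1) := by
  classical
  have h1 : f - aeval (fun w => (X w - C (p w) : MvPolynomial W ℂ))
      (homogeneousComponent j (sh p f))
      = aeval (fun w => (X w - C (p w) : MvPolynomial W ℂ))
        (sh p f - homogeneousComponent j (sh p f)) := by
    rw [map_sub, aeval_sh]
  rw [h1, aeval_def, eval₂_eq]
  refine Ideal.sum_mem _ fun m hm => Ideal.mul_mem_left _ _ ?_
  have hdeg : j + 1 ≤ m.degree := by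
    rw [mem_support_iff, coeff_sub, coeff_homogeneousComponent] at hm
    have h2 : m ∈ (sh p f).support := by
      rw [mem_support_iff]
      intro h0
      rw [h0] at hm
      simp at hm
    have h3 := hf m h2
    rcases Nat.lt_or_ge j m.degree with h | h
    · exact h
    · have : m.degree = j := le_antisymm h h3
      rw [if_pos this, sub_self] at hm
      exact absurd rfl hm
  exact Ideal.pow_le_pow_right hdeg (z_prod_mem p m)

end general

end Pentad.Gen
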