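import Pool.Agent.H.MP_b77b2b_ag.helper16.GA3

/-!
# MP_b77b2b_ag, GA4: forms vanishing on the toric cone are combinations of exchanges
-/

set_option autoImplicit false

namespace Pentad.Gen

open MvPolynomial

section

variable {I : Type} [Fintype I] [DecidableEq I] {D : I → Type} [∀ i, DecidableEq (D i)] {r : ℕ}

/-- The exponent of the image of a coordinate: a free variable for an inadmissible word, the
product of its letters for an admissible word. -/
noncomputable def kw (α : Fin r → (i : I) → D i) (w : (i : I) → D i) :
    ((i : I) → D i) ⊕ (Σ i, D i) →₀ ℕ :=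
  open Classical in
  if Adm α w then ∑ i, Finsupp.single (Sum.inr ⟨i, w i⟩) 1 else Finsupp.single (Sum.inl w) 1

/-- The exponent of the image of a monomial. -/
noncomputable def key (α : Fin r → (i : I) → D i) (m : ((i : I) → D i) →₀ ℕ) :
    ((i : I) → D i) ⊕ (Σ i, D i) →₀ ℕ :=
  m.sum fun w e => e • kw α w

theorem key_inl (α : Fin r → (i : I) → D i) (m : ((i : I) → D i) →₀ ℕ) {w : (i : I) → D i}
    (hw : ¬ Adm α w) : key α m (Sum.inl w) = m w := by
  classical
  unfold key
  rw [Finsupp.sum, Finsupp.finsetSum_apply]
  have h1 : ∀ u ∈ m.support, (m u • kw α u) (Sum.inl w) = if u = w then m u else 0 := by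
    intro u _
    rw [Finsupp.smul_apply, smul_eq_mul]
    unfold kw
    by_cases hu : Adm α u
    · rw [if_pos hu, Finsupp.finsetSum_apply, Finset.sum_eq_zero, mul_zero]
      · rw [if_neg]
        rintro rfl
        exact hw hu
      · intro i _
        rw [Finsupp.single_apply, if_neg (by simp)]
    · rw [if_neg hu, Finsupp.single_apply]
      by_cases h : u = w
      · subst h
        simp
      · rw [if_neg h, if_neg (fun h' => h (Sum.inl_injective h')), mul_zero]
  rw [Finset.sum_congr rfl h1, Finset.sum_ite_eq']
  split_ifs with h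
  · rfl
  · exact (Finsupp.notMem_support_iff.1 h).symm

theorem key_inr (α : Fin r → (i : I) → D i) (m : ((i : I) → D i) →₀ ℕ) (i : I) (b : D i) :
    key α m (Sum.inr ⟨i, b⟩) = ∑ u ∈ m.support, open Classical in
      if Adm α u ∧ u i = b then m u else 0 := by
  classical
  unfold key
  rw [Finsupp.sum, Finsupp.finsetSum_apply]
  refine Finset.sum_congr rfl fun u _ => ?_
  rw [Finsupp.smul_apply, smul_eq_mul]
  unfold kw
  by_cases hu : Adm α u
  · rw [if_pos hu, Finsupp.finsetSum_apply]
    have h2 : ∀ j : I, (Finsupp.single (Sum.inr ⟨j, u j⟩ :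
        ((i : I) → D i) ⊕ (Σ i, D i)) 1 : _ →₀ ℕ) (Sum.inr ⟨i, b⟩)
        = if j = i then (if u i = b then 1 else 0) else 0 := by
      intro j
      rw [Finsupp.single_apply]
      by_cases hj : j = i
      · subst hj
        rw [if_pos rfl]
        by_cases hb : u j = b
        · subst hb
          simp
        · rw [if_neg hb, if_neg]
          intro h
          have := Sum.inr_injective h
          rw [Sigma.mk.injEq] at this
          exact hb (eq_of_heq this.2)
      · rw [if_neg hj, if_neg]
        intro h
        have := Sum.inr_injective h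
        exact hj (congrArg Sigma.fst this)
    rw [Finset.sum_congr rfl fun j _ => h2 j, Finset.sum_ite_eq' , if_pos (Finset.mem_univ i)]
    by_cases hb : u i = b
    · rw [if_pos hb, if_pos ⟨hu, hb⟩, mul_one]
    · rw [if_neg hb, if_neg (fun h => hb h.2), mul_zero]
  · rw [if_neg hu, Finsupp.single_apply, if_neg (by simp), mul_zero, if_neg (fun h => hu h.1)]

/-- The monomial map. -/
noncomputable def Psi (α : Fin r → (i : I) → D i) :
    MvPolynomial ((i : I) → D i) ℂ →ₐ[ℂ] MvPolynomial (((i : I) → D i) ⊕ (Σ i, D i)) ℂ :=
  aeval fun w => monomial (kw α w) 1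

theorem Psi_monomial (α : Fin r → (i : I) → D i) (m : ((i : I) → D i) →₀ ℕ) (c : ℂ) :
    Psi α (monomial m c) = monomial (key α m) c := by
  classical
  unfold Psi key
  rw [aeval_monomial, Finsupp.prod, Finsupp.sum]
  have : ∀ s : Finset ((i : I) → D i), ∏ i ∈ s, (monomial (kw α i) (1 : ℂ)) ^ m i
      = monomial (∑ i ∈ s, m i • kw α i) 1 := by
    intro s
    induction s using Finset.induction_on with
    | empty => simp
    | insert a s ha ih =>
      rw [Finset.prod_insert ha, Finset.sum_insert ha, ih, monomial_pow, monomial_mul, one_pow,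
        one_mul]
  rw [this, algebraMap_eq, C_mul_monomial, mul_one]

theorem Psi_eq_zero {α : Fin r → (i : I) → D i} {φ : MvPolynomial ((i : I) → D i) ℂ}
    (h : ∀ (y : ((i : I) → D i) → ℂ) (q : (i : I) → D i → ℂ),
      eval (fun w => open Classical in if Adm α w then ∏ i, q i (w i) else y w) φ = 0) :
    Psi α φ = 0 := by
  classical
  refine MvPolynomial.funext fun x => ?_
  have h1 : (aeval x : MvPolynomial (((i : I) → D i) ⊕ (Σ i, D i)) ℂ →ₐ[ℂ] ℂ).comp (Psi α)
      = aeval fun w => if Adm α w then ∏ i, x (Sum.inr ⟨i, w i⟩) else x (Sum.inl w) := by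
    refine algHom_ext fun w => ?_
    rw [AlgHom.comp_apply]
    unfold Psi
    rw [aeval_X, aeval_X, aeval_monomial]
    unfold kw
    by_cases hw : Adm α w
    · rw [if_pos hw, if_pos hw, map_one, one_mul]
      rw [← Finsupp.prod_finsetSum_index (fun a => pow_zero _) (fun a b c => pow_add _ _ _)]
      refine Finset.prod_congr rfl fun i _ => ?_
      rw [Finsupp.prod_single_index (h := fun a k => x a ^ k) (pow_zero _), pow_one]
    · rw [if_neg hw, if_neg hw, Finsupp.prod_single_index (h := fun a k => x a ^ k) (pow_zero _),
        pow_one, map_one, one_mul]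
  have h2 := congrArg (fun F => F φ) h1
  simp only [AlgHom.comp_apply, aeval_eq_eval] at h2
  rw [map_zero]
  exact h2.trans (h (fun w => x (Sum.inl w)) fun i b => x (Sum.inr ⟨i, b⟩))

/-- Products over the multiset of a monomial. -/
theorem prod_toMultiset {W S : Type} [CommMonoid S] (z : W → S) (m : W →₀ ℕ) :
    ((Finsupp.toMultiset m).map z).prod = m.prod fun w e => z w ^ e := by
  classical
  induction m using Finsupp.induction_linear with
  | zero => simp
  | add f g hf hg =>
    rw [map_add, Multiset.map_add, Multiset.prod_add, hf, hg,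
      Finsupp.prod_add_index' (fun a => pow_zero _) (fun a b c => pow_add _ _ _)]
  | single a n =>
    rw [Finsupp.toMultiset_single, Multiset.map_nsmul, Multiset.prod_nsmul,
      Finsupp.prod_single_index (h := fun a k => z a ^ k) (pow_zero _), Multiset.map_singleton,
      Multiset.prod_singleton]

theorem card_toMultiset' {W : Type} (m : W →₀ ℕ) :
    (Finsupp.toMultiset m).card = m.degree := by
  rw [Finsupp.card_toMultiset]
  rfl

theorem count_map_toMultiset (m : ((i : I) → D i) →₀ ℕ) (i : I) (b : D i) :
    ((Finsupp.toMultiset m).map fun w => w i).count b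
      = ∑ u ∈ m.support, if u i = b then m u else 0 := by
  classical
  induction m using Finsupp.induction_linear with
  | zero => simp
  | add f g hf hg =>
    rw [map_add, Multiset.map_add, Multiset.count_add, hf, hg]
    have key : ∀ h : ((i : I) → D i) →₀ ℕ, h.support ⊆ f.support ∪ g.support →
        ∑ u ∈ h.support, (if u i = b then h u else 0)
          = ∑ u ∈ f.support ∪ g.support, if u i = b then h u else 0 := by
      intro h hs
      refine Finset.sum_subset hs fun u _ hu => ?_
      rw [Finsupp.notMem_support_iff.1 hu, ite_self]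
    rw [key f Finset.subset_union_left, key g Finset.subset_union_right,
      key (f + g) Finsupp.support_add, ← Finset.sum_add_distrib]
    refine Finset.sum_congr rfl fun u _ => ?_
    rw [Finsupp.add_apply]
    split_ifs <;> rfl
  | single a n =>
    rw [Finsupp.toMultiset_single, Multiset.map_nsmul, Multiset.map_singleton,
      Multiset.count_nsmul, Multiset.count_singleton]
    by_cases hn : n = 0
    · subst hn
      simp
    · rw [Finsupp.support_single_ne_zero a hn, Finset.sum_singleton, Finsupp.single_eq_same]
      by_cases h : a i = b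
      · rw [if_pos h, if_pos h.symm, mul_one]
      · rw [if_neg h, if_neg (Ne.symm h), mul_zero]

/-- Monomials with the same image agree up to higher order. -/
theorem same_key {k n : ℕ} {α : Fin r → (i : I) → D i}
    (hconn : ∀ P T : Multiset ((i : I) → D i), (∀ a ∈ P, Adm α a) → (∀ a ∈ T, Adm α a) →
      (∀ i, P.map (fun w => w i) = T.map fun w => w i) → Rel k n α P T)
    {m m' : ((i : I) → D i) →₀ ℕ} (hkey : key α m = key α m') :
    (m.prod fun w e => (X w - C (pt α w) : MvPolynomial ((i : I) → D i) ℂ) ^ e)
      - (m'.prod fun w e => (X w - C (pt α w) : MvPolynomial ((i : I) → D i) ℂ) ^ e)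
      ∈ FI k n D ⊔ (RingHom.ker (eval (pt α))) ^ (m.degree + 1) := by
  classical
  set z : ((i : I) → D i) → MvPolynomial ((i : I) → D i) ℂ := fun w => X w - C (pt α w) with hz
  set mA := m.filter fun w => Adm α w
  set mN := m.filter fun w => ¬ Adm α w
  set mA' := m'.filter fun w => Adm α w
  set mN' := m'.filter fun w => ¬ Adm α w
  have hm : m = mA + mN := (Finsupp.filter_add_filter_not m _).symm
  have hm' : m' = mA' + mN' := (Finsupp.filter_add_filter_not m' _).symm
  have hN : mN = mN' := by
    ext w
    have h1 : mN w = if ¬ Adm α w then m w else 0 := Finsupp.filter_apply _ _ _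
    have h2 : mN' w = if ¬ Adm α w then m' w else 0 := Finsupp.filter_apply _ _ _
    rw [h1, h2]
    by_cases hw : Adm α w
    · rw [if_neg (not_not.2 hw), if_neg (not_not.2 hw)]
    · rw [if_pos hw, if_pos hw, ← key_inl α m hw, ← key_inl α m' hw, hkey]
  have hcols : ∀ i, (Finsupp.toMultiset mA).map (fun w => w i)
      = (Finsupp.toMultiset mA').map fun w => w i := by
    intro i
    refine Multiset.ext.2 fun b => ?_
    rw [count_map_toMultiset, count_map_toMultiset]
    have h1 : ∀ q : ((i : I) → D i) →₀ ℕ, (∑ u ∈ (q.filter fun w => Adm α w).support,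
        if u i = b then (q.filter fun w => Adm α w) u else 0) = key α q (Sum.inr ⟨i, b⟩) := by
      intro q
      rw [key_inr, Finsupp.support_filter, Finset.sum_filter]
      refine Finset.sum_congr rfl fun u _ => ?_
      by_cases hu : Adm α u
      · rw [if_pos hu, Finsupp.filter_apply_pos _ _ hu]
        by_cases hb : u i = b
        · rw [if_pos hb, if_pos ⟨hu, hb⟩]
        · rw [if_neg hb, if_neg fun h => hb h.2]
      · rw [if_neg hu, if_neg fun h => hu h.1]
    rw [h1 m, h1 m', hkey]
  have hrel := hconn _ _
    (fun a ha => by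
      have := (Finsupp.mem_toMultiset _ _).1 ha
      rw [Finsupp.support_filter, Finset.mem_filter] at this
      exact this.2)
    (fun a ha => by
      have := (Finsupp.mem_toMultiset _ _).1 ha
      rw [Finsupp.support_filter, Finset.mem_filter] at this
      exact this.2) hcols
  have h2 := hrel.2
  rw [prod_toMultiset, prod_toMultiset, card_toMultiset'] at h2
  have hprod : ∀ a b : ((i : I) → D i) →₀ ℕ, ((a + b).prod fun w e => z w ^ e)
      = (a.prod fun w e => z w ^ e) * b.prod fun w e => z w ^ e := by
    intro a b
    exact Finsupp.prod_add_index' (fun a => pow_zero _) (fun a b c => pow_add _ _ _)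
  have e : (m.prod fun w e => z w ^ e) - (m'.prod fun w e => z w ^ e)
      = (mN.prod fun w e => z w ^ e)
        * ((mA.prod fun w e => z w ^ e) - mA'.prod fun w e => z w ^ e) := by
    conv_lhs => rw [hm, hm', hprod, hprod, ← hN]
    ring
  rw [e]
  obtain ⟨x, hx, y, hy, hxy⟩ := Submodule.mem_sup.1 h2
  rw [← hxy, mul_add]
  refine Ideal.add_mem _ (Ideal.mem_sup_left (Ideal.mul_mem_left _ _ hx))
    (Ideal.mem_sup_right ?_)
  have hdeg : m.degree + 1 = mN.degree + (mA.degree + 1) := by
    conv_lhs => rw [hm]
    rw [map_add]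
    ring
  rw [hdeg, pow_add]
  exact Ideal.mul_mem_mul (z_prod_mem _ _) hy

end

end Pentad.Gen
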