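import Mathlib

/-!
The Krull intersection theorem at a point of affine space.
-/

set_option autoImplicit false

namespace Pentad.Gen

open MvPolynomial

/-- If `J` is contained in `F + I ^ j` for every `j`, where `I` is the ideal of the point `p`, then
`J` is contained in `F` near `p`. -/
theorem krull {W : Type} [Finite W] (F J : Ideal (MvPolynomial W ℂ)) (p : W → ℂ)
    (h : ∀ j : ℕ, J ≤ F ⊔ (RingHom.ker (eval p)) ^ j) :
    ∃ h : MvPolynomial W ℂ, eval p h ≠ 0 ∧ ∀ f ∈ J, h * f ∈ F := by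
  classical
  have key : ∀ f ∈ J, ∃ a : MvPolynomial W ℂ, eval p a = 0 ∧ (1 - a) * f ∈ F := by
    intro f hf
    have hx : (Ideal.Quotient.mk F f) ∈
        (⨅ i : ℕ, (RingHom.ker (eval p)) ^ i • ⊤ :
          Submodule (MvPolynomial W ℂ) (MvPolynomial W ℂ ⧸ F)) := by
      rw [Submodule.mem_iInf]
      intro j
      obtain ⟨f₁, hf₁, f₂, hf₂, hsum⟩ := Submodule.mem_sup.mp (h j hf)
      have h1 : Ideal.Quotient.mk F f = f₂ • (1 : MvPolynomial W ℂ ⧸ F) := by
        rw [← hsum, map_add, Ideal.Quotient.eq_zero_iff_mem.mpr hf₁, zero_add]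
        change Ideal.Quotient.mk F f₂ = Ideal.Quotient.mk F (f₂ * 1)
        rw [mul_one]
      rw [h1]
      exact Submodule.smul_mem_smul hf₂ Submodule.mem_top
    rw [Ideal.mem_iInf_smul_pow_eq_bot_iff] at hx
    obtain ⟨⟨a, ha⟩, hax⟩ := hx
    refine ⟨a, ha, ?_⟩
    rw [← Ideal.Quotient.eq_zero_iff_mem, sub_mul, one_mul, map_sub, sub_eq_zero]
    have h2 : Ideal.Quotient.mk F (a * f) = Ideal.Quotient.mk F f := hax
    exact h2.symm
  choose! a ha0 ha using key
  obtain ⟨S, hS⟩ := (IsNoetherian.noetherian J : J.FG)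
  have hSJ : ∀ s ∈ S, s ∈ J := by
    intro s hs
    rw [← hS]
    exact Submodule.subset_span hs
  refine ⟨∏ s ∈ S, (1 - a s), ?_, ?_⟩
  · rw [map_prod]
    refine Finset.prod_ne_zero_iff.mpr fun s hs => ?_
    rw [map_sub, map_one, ha0 s (hSJ s hs), sub_zero]
    exact one_ne_zero
  · intro f hf
    rw [← hS] at hf
    induction hf using Submodule.span_induction with
    | mem s hs =>
      rw [← Finset.prod_erase_mul S _ hs, mul_assoc]
      exact F.mul_mem_left _ (ha s (hSJ s hs))
    | zero => rw [mul_zero]; exact F.zero_mem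
    | add x y _ _ hx hy => rw [mul_add]; exact F.add_mem hx hy
    | smul r x _ hx =>
      rw [smul_eq_mul, mul_left_comm]
      exact F.mul_mem_left _ hx

end Pentad.Gen
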