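import Pool.Agent.H.MP_b77b2b_ag.helper16.GA4
import Pool.Agent.H.MP_b77b2b_ag.helper16.GK
import Pool.Agent.H.MP_b77b2b_ag.W12

/-!
# MP_b77b2b_ag, GA5: from the tangent cone to equality near the point
-/

set_option autoImplicit false

namespace Pentad.Gen

open MvPolynomial

variable {I : Type} [Fintype I] [DecidableEq I] {D : I → Type} [∀ i, DecidableEq (D i)] {r : ℕ}

/-- A form in the kernel of the monomial map has higher order modulo the minors. -/
theorem toric_mem {k n j : ℕ} {α : Fin r → (i : I) → D i}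
    (hkey : ∀ m m' : ((i : I) → D i) →₀ ℕ, key α m = key α m' →
      (m.prod fun w e => (X w - C (pt α w) : MvPolynomial ((i : I) → D i) ℂ) ^ e)
        - (m'.prod fun w e => (X w - C (pt α w) : MvPolynomial ((i : I) → D i) ℂ) ^ e)
        ∈ FI k n D ⊔ (RingHom.ker (eval (pt α))) ^ (m.degree + 1))
    {φ : MvPolynomial ((i : I) → D i) ℂ} (hφ : φ.IsHomogeneous j) (h0 : Psi α φ = 0) :
    aeval (fun w => (X w - C (pt α w) : MvPolynomial ((i : I) → D i) ℂ)) φ
      ∈ FI k n D ⊔ (RingHom.ker (eval (pt α))) ^ (j + 1) := by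
  classical
  set K := FI k n D ⊔ (RingHom.ker (eval (pt α))) ^ (j + 1) with hK
  set z : ((i : I) → D i) → MvPolynomial ((i : I) → D i) ℂ := fun w => X w - C (pt α w)
  let mk : MvPolynomial ((i : I) → D i) ℂ →ₐ[ℂ] MvPolynomial ((i : I) → D i) ℂ ⧸ K :=
    Ideal.Quotient.mkₐ ℂ K
  let Φ : (((i : I) → D i) ⊕ (Σ i, D i) →₀ ℕ) → MvPolynomial ((i : I) → D i) ℂ ⧸ K := fun κ =>
    if h : ∃ m : ((i : I) → D i) →₀ ℕ, m.degree = j ∧ key α m = κ
      then mk ((Classical.choose h).prod fun w e => z w ^ e) else 0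
  have hΦ : ∀ m : ((i : I) → D i) →₀ ℕ, m.degree = j →
      Φ (key α m) = mk (m.prod fun w e => z w ^ e) := by
    intro m hm
    have hex : ∃ m' : ((i : I) → D i) →₀ ℕ, m'.degree = j ∧ key α m' = key α m := ⟨m, hm, rfl⟩
    show (if h : ∃ m' : ((i : I) → D i) →₀ ℕ, m'.degree = j ∧ key α m' = key α m
      then mk ((Classical.choose h).prod fun w e => z w ^ e) else 0) = _
    rw [dif_pos hex]
    have h1 := Classical.choose_spec hex
    have h2 := hkey _ _ h1.2
    rw [h1.1] at h2
    exact Ideal.Quotient.eq.2 h2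
  let Λ : MvPolynomial (((i : I) → D i) ⊕ (Σ i, D i)) ℂ →ₗ[ℂ] MvPolynomial ((i : I) → D i) ℂ ⧸ K :=
    (MvPolynomial.basisMonomials _ ℂ).constr ℂ Φ
  have hΛ : ∀ κ c, Λ (monomial κ c) = c • Φ κ := by
    intro κ c
    have h1 : (monomial κ c : MvPolynomial (((i : I) → D i) ⊕ (Σ i, D i)) ℂ)
        = c • (MvPolynomial.basisMonomials _ ℂ) κ := by
      rw [coe_basisMonomials, smul_monomial, smul_eq_mul, mul_one]
    rw [h1, map_smul, Module.Basis.constr_basis]
  have h1 : mk (aeval z φ) = Λ (Psi α φ) := by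
    conv_lhs => rw [φ.as_sum]
    conv_rhs => rw [φ.as_sum]
    rw [map_sum, map_sum, map_sum, map_sum]
    refine Finset.sum_congr rfl fun m hm => ?_
    have hd : m.degree = j := by
      have h2 := hφ (mem_support_iff.1 hm)
      have h3 : Finsupp.degree m = Finsupp.weight 1 m := by
        rw [Finsupp.degree_eq_weight_one]
        rfl
      exact h3.trans h2
    rw [Psi_monomial, hΛ, hΦ m hd, aeval_monomial, map_mul, algebraMap_eq,
      ← algebraMap_eq, AlgHom.commutes, Algebra.smul_def]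
  rw [h0, map_zero] at h1
  exact Ideal.Quotient.eq_zero_iff_mem.1 h1

/-- A form all of whose monomials contain an admissible word. -/
theorem linear_mem {k n j : ℕ} {α : Fin r → (i : I) → D i}
    (hz : ∀ w : (i : I) → D i, Adm α w → (X w - C (pt α w) : MvPolynomial ((i : I) → D i) ℂ)
      ∈ FI k n D ⊔ (RingHom.ker (eval (pt α))) ^ 2)
    {φ : MvPolynomial ((i : I) → D i) ℂ} (hφ : φ.IsHomogeneous j)
    (h0 : ∀ y : ((i : I) → D i) → ℂ,
      eval (fun w => open Classical in if Adm α w then 0 else y w) φ = 0) :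
    aeval (fun w => (X w - C (pt α w) : MvPolynomial ((i : I) → D i) ℂ)) φ
      ∈ FI k n D ⊔ (RingHom.ker (eval (pt α))) ^ (j + 1) := by
  classical
  have hsup : ∀ m ∈ φ.support, ∃ w ∈ m.support, Adm α w := by
    by_contra hc
    push Not at hc
    obtain ⟨m, hm, hmw⟩ := hc
    let ψ : MvPolynomial ((i : I) → D i) ℂ := ∑ m ∈ φ.support.filter
      (fun m => ∀ w ∈ m.support, ¬ Adm α w), monomial m (coeff m φ)
    have hψ : ψ = 0 := by
      refine MvPolynomial.funext fun y => ?_
      rw [map_zero, ← h0 y, map_sum, eval_eq, Finset.sum_filter]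
      refine Finset.sum_congr rfl fun m _ => ?_
      split_ifs with h
      · rw [eval_monomial, Finsupp.prod]
        congr 1
        refine Finset.prod_congr rfl fun w hw => ?_
        rw [if_neg (h w hw)]
      · push Not at h
        obtain ⟨w, hw, hwA⟩ := h
        rw [Finset.prod_eq_zero hw, mul_zero]
        rw [if_pos hwA, zero_pow (Finsupp.mem_support_iff.1 hw)]
    have h1 : coeff m ψ = coeff m φ := by
      show coeff m (∑ m ∈ φ.support.filter (fun m => ∀ w ∈ m.support, ¬ Adm α w),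
        monomial m (coeff m φ)) = _
      rw [coeff_sum, Finset.sum_eq_single m]
      · rw [coeff_monomial, if_pos rfl]
      · intro m' _ hne
        rw [coeff_monomial, if_neg hne]
      · intro h
        exact absurd (Finset.mem_filter.2 ⟨hm, hmw⟩) h
    rw [hψ, coeff_zero] at h1
    exact mem_support_iff.1 hm h1.symm
  rw [aeval_def, eval₂_eq]
  refine Ideal.sum_mem _ fun m hm => Ideal.mul_mem_left _ _ ?_
  have hd : m.degree = j := by
    have h2 := hφ (mem_support_iff.1 hm)
    have h3 : Finsupp.degree m = Finsupp.weight 1 m := by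
      rw [Finsupp.degree_eq_weight_one]
      rfl
    exact h3.trans h2
  obtain ⟨w, hw, hwA⟩ := hsup m hm
  obtain ⟨m', hm'⟩ : ∃ m', m = m' + Finsupp.single w 1 := by
    refine ⟨m - Finsupp.single w 1, ?_⟩
    rw [tsub_add_cancel_of_le]
    rw [Finsupp.single_le_iff]
    exact Nat.one_le_iff_ne_zero.2 (Finsupp.mem_support_iff.1 hw)
  have hprod : (∏ i ∈ m.support, (X i - C (pt α i) : MvPolynomial ((i : I) → D i) ℂ) ^ m i)
      = (m'.prod fun w e => (X w - C (pt α w) : MvPolynomial ((i : I) → D i) ℂ) ^ e)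
        * (X w - C (pt α w)) := by
    have h1 : (∏ i ∈ m.support, (X i - C (pt α i) : MvPolynomial ((i : I) → D i) ℂ) ^ m i)
        = m.prod fun w e => (X w - C (pt α w) : MvPolynomial ((i : I) → D i) ℂ) ^ e := rfl
    rw [h1]
    conv_lhs => rw [hm', Finsupp.prod_add_index' (fun a => pow_zero _) (fun a b c => pow_add _ _ _)]
    rw [Finsupp.prod_single_index (h := fun w e =>
      (X w - C (pt α w) : MvPolynomial ((i : I) → D i) ℂ) ^ e) (pow_zero _), pow_one]
  rw [hprod]
  have hdeg : j + 1 = m'.degree + 2 := by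
    rw [← hd, hm', map_add, Finsupp.degree_single]
  obtain ⟨x, hx, y, hy, hxy⟩ := Submodule.mem_sup.1 (hz w hwA)
  rw [← hxy, mul_add]
  refine Ideal.add_mem _ (Ideal.mem_sup_left (Ideal.mul_mem_left _ _ hx))
    (Ideal.mem_sup_right ?_)
  rw [hdeg, pow_add]
  exact Ideal.mul_mem_mul (z_prod_mem _ _) hy

/-- The induction on the order. -/
theorem order_step {W : Type} {F J : Ideal (MvPolynomial W ℂ)} (hFJ : F ≤ J) {p : W → ℂ}
    (h : ∀ j, ∀ f ∈ J, (∀ m ∈ (sh p f).support, j ≤ m.degree) →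
      aeval (fun w => (X w - C (p w) : MvPolynomial W ℂ)) (homogeneousComponent j (sh p f))
        ∈ F ⊔ (RingHom.ker (eval p)) ^ (j + 1)) (j : ℕ) :
    J ≤ F ⊔ (RingHom.ker (eval p)) ^ j := by
  induction j with
  | zero =>
    intro f _
    refine Ideal.mem_sup_right ?_
    rw [pow_zero, Ideal.one_eq_top]
    exact Submodule.mem_top
  | succ j ih =>
    intro f hf
    obtain ⟨a, ha, b, hb, rfl⟩ := Submodule.mem_sup.1 (ih hf)
    have hbJ : b ∈ J := by
      have := Ideal.sub_mem _ hf (hFJ ha)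
      rwa [add_sub_cancel_left] at this
    have h1 := h j b hbJ (sh_support hb)
    have h2 := sub_lead_mem (sh_support hb)
    refine Ideal.add_mem _ (Ideal.mem_sup_left ha) ?_
    have := Ideal.add_mem _ (Ideal.mem_sup_right h2) h1
    rwa [sub_add_cancel] at this

end Pentad.Gen
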