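import Pool.Agent.H.MP_b77b2b_ag.helper16.GA5

/-!
# MP_b77b2b_ag, GA6: curves in the secant variety through the sum of the anchors
-/

set_option autoImplicit false

namespace Pentad.Gen

open MvPolynomial

variable {I : Type} [Fintype I] [DecidableEq I] {D : I → Type} [∀ i, DecidableEq (D i)] {r : ℕ}

/-- The coordinate of a moving pure tensor. -/
noncomputable def cu (u : (i : I) → D i) (a : (i : I) → D i → ℂ) (w : (i : I) → D i) :
    Polynomial ℂ :=
  ∏ i, (Polynomial.C (if w i = u i then 1 else 0) + Polynomial.X * Polynomial.C (a i (w i)))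

theorem cu_eval (u : (i : I) → D i) (a : (i : I) → D i → ℂ) (w : (i : I) → D i) (t : ℂ) :
    (cu u a w).eval t = ∏ i, ((if w i = u i then 1 else 0) + t * a i (w i)) := by
  unfold cu
  rw [Polynomial.eval_prod]
  refine Finset.prod_congr rfl fun i _ => ?_
  rw [Polynomial.eval_add, Polynomial.eval_mul, Polynomial.eval_C, Polynomial.eval_X,
    Polynomial.eval_C]

theorem cu_divX (u : (i : I) → D i) (a : (i : I) → D i → ℂ) (w : (i : I) → D i) (t : ℂ) :
    t * (cu u a w).divX.eval t = (cu u a w).eval t - ∏ i, if w i = u i then (1 : ℂ) else 0 := by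
  have h1 := congrArg (fun P => Polynomial.eval t P) (Polynomial.divX_mul_X_add (cu u a w))
  simp only [Polynomial.eval_add, Polynomial.eval_mul, Polynomial.eval_X, Polynomial.eval_C] at h1
  have h2 : (cu u a w).coeff 0 = ∏ i, if w i = u i then (1 : ℂ) else 0 := by
    rw [Polynomial.coeff_zero_eq_eval_zero, cu_eval]
    refine Finset.prod_congr rfl fun i _ => ?_
    rw [zero_mul, add_zero]
  rw [h2] at h1
  rw [← h1]
  ring

theorem cu_deriv (u : (i : I) → D i) (a : (i : I) → D i → ℂ) (w : (i : I) → D i) :
    (cu u a w).divX.eval 0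
      = ∑ i, (∏ j ∈ Finset.univ.erase i, if w j = u j then (1 : ℂ) else 0) * a i (w i) := by
  have h1 : (cu u a w).divX.eval 0 = (Polynomial.derivative (cu u a w)).eval 0 := by
    rw [← Polynomial.coeff_zero_eq_eval_zero, ← Polynomial.coeff_zero_eq_eval_zero,
      Polynomial.coeff_divX, Polynomial.coeff_derivative]
    simp
  rw [h1]
  unfold cu
  rw [Polynomial.derivative_prod_finset, Polynomial.eval_finsetSum]
  refine Finset.sum_congr rfl fun i _ => ?_
  rw [Polynomial.eval_mul, Polynomial.eval_prod]
  congr 1
  · refine Finset.prod_congr rfl fun j _ => ?_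
    rw [Polynomial.eval_add, Polynomial.eval_mul, Polynomial.eval_C, Polynomial.eval_X, zero_mul,
      add_zero]
  · rw [Polynomial.derivative_add, Polynomial.derivative_C, Polynomial.derivative_mul,
      Polynomial.derivative_X, Polynomial.derivative_C]
    simp

theorem cu_far {α : Fin r → (i : I) → D i} {l : Fin r} (a : (i : I) → D i → ℂ)
    {w : (i : I) → D i} (h : 2 ≤ (nn α l w).card) : (cu (α l) a w).divX.eval 0 = 0 := by
  rw [cu_deriv]
  refine Finset.sum_eq_zero fun i _ => ?_
  obtain ⟨x, hx, y, hy, hxy⟩ := Finset.one_lt_card.1 h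
  obtain ⟨b, hb, hbi⟩ : ∃ b ∈ nn α l w, b ≠ i := by
    by_cases hxi : x = i
    · exact ⟨y, hy, fun h => hxy (hxi.trans h.symm)⟩
    · exact ⟨x, hx, hxi⟩
  rw [Finset.prod_eq_zero (Finset.mem_erase.2 ⟨hbi, Finset.mem_univ b⟩) (if_neg (mem_nn.1 hb)),
    zero_mul]

/-- The velocities fill the inadmissible coordinates. -/
theorem velocity (h5 : 5 ≤ Fintype.card I) {α : Fin r → (i : I) → D i}
    (hfar : ∀ (w : (i : I) → D i) (l m : Fin r), (nn α l w).card ≤ 1 → m ≠ l →
      2 ≤ (nn α m w).card) (c y : ((i : I) → D i) → ℂ) :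
    ∃ a : Fin r → (i : I) → D i → ℂ, ∀ w : (i : I) → D i,
      (∑ l, (cu (α l) (a l) w).divX.eval 0) + c w
        = open Classical in if Adm α w then c w else y w := by
  classical
  obtain ⟨i0⟩ : Nonempty I := Fintype.card_pos_iff.1 (by omega)
  let a : Fin r → (i : I) → D i → ℂ := fun l i b =>
    if b = α l i then (if i = i0 then y (α l) - c (α l) else 0)
    else y (Function.update (α l) i b) - c (Function.update (α l) i b)
  refine ⟨a, fun w => ?_⟩
  by_cases hw : Adm α w
  · rw [if_pos hw, Finset.sum_eq_zero, zero_add]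
    exact fun l _ => cu_far _ (hw l)
  · rw [if_neg hw]
    unfold Adm at hw
    push Not at hw
    obtain ⟨l, hl⟩ := hw
    have hl1 : (nn α l w).card ≤ 1 := by omega
    rw [Finset.sum_eq_single l (fun m _ hm => cu_far _ (hfar w l m hl1 hm))
      (fun h => absurd (Finset.mem_univ l) h), cu_deriv]
    suffices h : ∑ i, (∏ j ∈ Finset.univ.erase i, if w j = α l j then (1 : ℂ) else 0)
        * a l i (w i) = y w - c w by
      rw [h]
      ring
    rcases Nat.lt_or_ge (nn α l w).card 1 with h0 | h1
    · have hemp : nn α l w = ∅ := Finset.card_eq_zero.1 (by omega)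
      have hwα : w = α l := by
        funext i
        have : i ∉ nn α l w := by rw [hemp]; exact Finset.notMem_empty i
        exact not_mem_nn.1 this
      subst hwα
      rw [Finset.sum_eq_single i0]
      · rw [Finset.prod_eq_one (fun j _ => if_pos rfl), one_mul]
        show (if α l i0 = α l i0 then (if i0 = i0 then y (α l) - c (α l) else 0) else _) = _
        rw [if_pos rfl, if_pos rfl]
      · intro i _ hi
        show _ * (if α l i = α l i then (if i = i0 then y (α l) - c (α l) else 0) else _) = _
        rw [if_pos rfl, if_neg hi, mul_zero]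
      · intro h
        exact absurd (Finset.mem_univ i0) h
    · obtain ⟨x, hx⟩ := Finset.card_eq_one.1 (le_antisymm hl1 h1)
      have hxw : x ∈ nn α l w := by rw [hx]; exact Finset.mem_singleton_self x
      have hoff : ∀ j, j ≠ x → w j = α l j := by
        intro j hj
        refine not_mem_nn.1 ?_
        rw [hx, Finset.mem_singleton]
        exact hj
      rw [Finset.sum_eq_single x]
      · rw [Finset.prod_eq_one (fun j hj => if_pos (hoff j (Finset.ne_of_mem_erase hj))), one_mul]
        show (if w x = α l x then _ else y (Function.update (α l) x (w x))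
          - c (Function.update (α l) x (w x))) = _
        rw [if_neg (mem_nn.1 hxw)]
        have : Function.update (α l) x (w x) = w := by
          funext j
          by_cases hj : j = x
          · subst hj
            rw [Function.update_self]
          · rw [Function.update_of_ne hj, hoff j hj]
        rw [this]
      · intro i _ hi
        rw [Finset.prod_eq_zero (Finset.mem_erase.2 ⟨Ne.symm hi, Finset.mem_univ x⟩)
          (if_neg (mem_nn.1 hxw)), zero_mul]
      · intro h
        exact absurd (Finset.mem_univ x) h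

/-- The leading form vanishes at the velocities. -/
theorem lead_zero {α : Fin r → (i : I) → D i} {f : MvPolynomial ((i : I) → D i) ℂ}
    (c : ((i : I) → D i) → ℂ)
    (hf : ∀ (a : Fin r → (i : I) → D i → ℂ) (t : ℂ),
      eval (fun w => (∑ l, ∏ i, ((if w i = α l i then 1 else 0) + t * a l i (w i))) + t * c w) f
        = 0) {j : ℕ}
    (hj : ∀ m ∈ (sh (pt α) f).support, j ≤ m.degree) (a : Fin r → (i : I) → D i → ℂ) :
    eval (fun w => (∑ l, (cu (α l) (a l) w).divX.eval 0) + c w)
      (homogeneousComponent j (sh (pt α) f)) = 0 := by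
  have h := lead_curve (sh (pt α) f) j hj
    (fun w => (∑ l, (cu (α l) (a l) w).divX) + Polynomial.C (c w)) (by
      intro t
      rw [eval_sh, ← hf a t]
      congr 2
      funext w
      rw [Polynomial.eval_add, Polynomial.eval_finsetSum, Polynomial.eval_C, mul_add,
        Finset.mul_sum]
      unfold pt
      simp only [cu_divX, Finset.sum_sub_distrib, cu_eval]
      ring)
  have e : (fun w => ((∑ l, (cu (α l) (a l) w).divX) + Polynomial.C (c w)).eval 0)
      = fun w => (∑ l, (cu (α l) (a l) w).divX.eval 0) + c w := by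
    funext w
    rw [Polynomial.eval_add, Polynomial.eval_finsetSum, Polynomial.eval_C]
  rw [e] at h
  exact h

end Pentad.Gen
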