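import Pool.Agent.H.MP_b77b2b_ag.W12

/-!
# MP_b77b2b_ag, helper16/GL: change of coordinates
-/

set_option autoImplicit false

namespace Pentad.Gen

open MvPolynomial

theorem exists_basis {r d : ℕ} (hr : r ≤ d) (v : Fin r → Fin d → ℂ)
    (hv : LinearIndependent ℂ v) :
    ∃ b : Module.Basis (Fin d) ℂ (Fin d → ℂ), ∀ l, b (Fin.castLE hr l) = v l := by
  classical
  have hs := hv.linearIndepOn_id
  let b0 := Module.Basis.extend hs
  haveI : Fintype (hs.extend (Set.subset_univ (Set.range v))) :=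
    FiniteDimensional.fintypeBasisIndex b0
  have hcard : Fintype.card (Fin d) = (hs.extend (Set.subset_univ (Set.range v))).toFinset.card := by
    rw [Set.toFinset_card, ← Module.finrank_eq_card_basis b0, Module.finrank_fin_fun,
      Fintype.card_fin]
  let f : Fin d → (Fin d → ℂ) := fun i => if h : (i : ℕ) < r then v ⟨i, h⟩ else 0
  have hf : ∀ (i : Fin d) (h : (i : ℕ) < r), f i = v ⟨i, h⟩ := fun i h => dif_pos h
  have h1 : Set.MapsTo f {i : Fin d | (i : ℕ) < r}
      (hs.extend (Set.subset_univ (Set.range v))).toFinset := by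
    intro i hi
    have hi' : (i : ℕ) < r := hi
    rw [Set.coe_toFinset, hf i hi']
    exact Module.Basis.subset_extend hs ⟨_, rfl⟩
  have h2 : Set.InjOn f {i : Fin d | (i : ℕ) < r} := by
    intro i hi j hj hij
    have hi' : (i : ℕ) < r := hi
    have hj' : (j : ℕ) < r := hj
    rw [hf i hi', hf j hj'] at hij
    have h3 := Fin.mk.inj (hv.injective hij)
    exact Fin.ext h3
  obtain ⟨g, hg⟩ := Set.MapsTo.exists_equiv_extend_of_card_eq hcard h1 h2
  let e : (hs.extend (Set.subset_univ (Set.range v))) ≃ Fin d :=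
    (Equiv.subtypeEquivRight fun x => Set.mem_toFinset.symm).trans g.symm
  refine ⟨b0.reindex e, fun l => ?_⟩
  rw [Module.Basis.reindex_apply]
  have h4 : ((e.symm (Fin.castLE hr l) : hs.extend (Set.subset_univ (Set.range v))) :
      Fin d → ℂ) = (g (Fin.castLE hr l) : Fin d → ℂ) := rfl
  have h5 : b0 (e.symm (Fin.castLE hr l)) = (e.symm (Fin.castLE hr l) : Fin d → ℂ) :=
    Module.Basis.extend_apply_self hs _
  have hl : ((Fin.castLE hr l : Fin d) : ℕ) < r := l.2
  rw [h5, h4, hg _ hl, hf _ hl]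
  rfl

theorem exists_mat {r d : ℕ} (hr : r ≤ d) (v : Fin r → Fin d → ℂ)
    (hv : LinearIndependent ℂ v) :
    ∃ B B' : Matrix (Fin d) (Fin d) ℂ, B' * B = 1 ∧
      ∀ l y, ∑ a, B y a * v l a = if y = Fin.castLE hr l then 1 else 0 := by
  classical
  obtain ⟨b, hb⟩ := exists_basis hr v hv
  refine ⟨b.toMatrix (Pi.basisFun ℂ (Fin d)), (Pi.basisFun ℂ (Fin d)).toMatrix b,
    Module.Basis.toMatrix_mul_toMatrix_flip _ _, fun l y => ?_⟩
  have h1 : ∑ a, b.toMatrix (Pi.basisFun ℂ (Fin d)) y a * v l a = b.repr (v l) y := by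
    have h2 : v l = ∑ a, v l a • (Pi.basisFun ℂ (Fin d)) a := by
      have h3 := (Pi.basisFun ℂ (Fin d)).sum_repr (v l)
      simpa only [Pi.basisFun_repr] using h3.symm
    conv_rhs => rw [h2]
    rw [map_sum, Finsupp.finset_sum_apply]
    refine Finset.sum_congr rfl fun a _ => ?_
    rw [map_smul, Finsupp.smul_apply, smul_eq_mul, mul_comm, Module.Basis.toMatrix_apply]
  rw [h1, ← hb l, Module.Basis.repr_self, Finsupp.single_apply]
  by_cases h : Fin.castLE hr l = y
  · rw [if_pos h, if_pos h.symm]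
  · rw [if_neg h, if_neg fun h' => h h'.symm]

section

variable {n : ℕ} {d : Fin n → ℕ}

/-- Labels to coordinates. -/
noncomputable def ext0 (B : (i : Fin n) → Matrix (Fin (d i)) (Fin (d i)) ℂ) :
    (i : Fin n) → ℕ → Fin (d i) → ℂ :=
  fun i c a => if h : c < d i then B i ⟨c, h⟩ a else 0

/-- Change of coordinates by a family of matrices. -/
noncomputable def thB (B : (i : Fin n) → Matrix (Fin (d i)) (Fin (d i)) ℂ) :
    MvPolynomial ((i : Fin n) → Fin (d i)) ℂ →ₐ[ℂ] MvPolynomial ((i : Fin n) → Fin (d i)) ℂ :=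
  (theta (ext0 B)).comp (rename fun (w : (i : Fin n) → Fin (d i)) (i : Fin n) => (w i : ℕ))

theorem eval_thB (B : (i : Fin n) → Matrix (Fin (d i)) (Fin (d i)) ℂ)
    (T : ((i : Fin n) → Fin (d i)) → ℂ) (p : MvPolynomial ((i : Fin n) → Fin (d i)) ℂ) :
    eval T (thB B p) = eval (fun x => ∑ w, (∏ i, B i (x i) (w i)) * T w) p := by
  unfold thB
  rw [AlgHom.comp_apply, eval_theta, eval_rename]
  have h : ((fun x : Fin n → ℕ => ∑ w, (∏ i, ext0 B i (x i) (w i)) * T w) ∘
      fun (w : (i : Fin n) → Fin (d i)) (i : Fin n) => (w i : ℕ))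
      = fun x => ∑ w, (∏ i, B i (x i) (w i)) * T w := by
    funext x
    show ∑ w, (∏ i, ext0 B i (x i : ℕ) (w i)) * T w = _
    refine Finset.sum_congr rfl fun w _ => ?_
    congr 1
    refine Finset.prod_congr rfl fun i _ => ?_
    unfold ext0
    rw [dif_pos (x i).2]
  rw [h]

theorem BV_rename {k m : ℕ} {σ : Fin n → Fin m} {p : MvPolynomial ((i : Fin n) → Fin (d i)) ℂ}
    (hp : BV k σ p) :
    BV k σ (rename (fun (w : (i : Fin n) → Fin (d i)) (i : Fin n) => (w i : ℕ)) p) := by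
  intro u hu
  rw [eval_rename]
  exact hp (fun j b w => u j b fun i => (w i : ℕ)) fun j b w w' h =>
    hu j b _ _ fun i hi => congrArg Fin.val (h i hi)

theorem FI_thB {k m : ℕ} (w0 : (i : Fin n) → Fin (d i))
    (B : (i : Fin n) → Matrix (Fin (d i)) (Fin (d i)) ℂ)
    {p : MvPolynomial ((i : Fin n) → Fin (d i)) ℂ} (hp : p ∈ FI k m fun i => Fin (d i)) :
    thB B p ∈ FI k m fun i => Fin (d i) := by
  have h : (FI k m fun i => Fin (d i)) ≤ (FI k m fun i => Fin (d i)).comap (thB B) := by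
    refine Ideal.span_le.2 ?_
    rintro p ⟨σ, hp⟩
    exact FI_theta w0 (ext0 B) (Ideal.subset_span ⟨σ, BV_rename hp⟩)
  exact h hp

theorem thB_thB {B B' : (i : Fin n) → Matrix (Fin (d i)) (Fin (d i)) ℂ}
    (h : ∀ i, B' i * B i = 1) (p : MvPolynomial ((i : Fin n) → Fin (d i)) ℂ) :
    thB B (thB B' p) = p := by
  classical
  refine MvPolynomial.funext fun T => ?_
  rw [eval_thB, eval_thB]
  have h1 : (fun y : (i : Fin n) → Fin (d i) => ∑ x : (i : Fin n) → Fin (d i),
      (∏ i, B' i (y i) (x i)) * ∑ w, (∏ i, B i (x i) (w i)) * T w) = T := by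
    funext y
    have h2 : ∀ w : (i : Fin n) → Fin (d i), (∑ x : (i : Fin n) → Fin (d i),
        ∏ i, (B' i (y i) (x i) * B i (x i) (w i))) = if w = y then 1 else 0 := by
      intro w
      rw [← prod_sum_univ fun (i : Fin n) (a : Fin (d i)) => B' i (y i) a * B i a (w i)]
      have h3 : ∀ i, ∑ a, B' i (y i) a * B i a (w i) = if y i = w i then 1 else 0 := by
        intro i
        rw [← Matrix.mul_apply, h i, Matrix.one_apply]
      rw [Finset.prod_congr rfl fun i _ => h3 i]
      by_cases hw : w = y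
      · rw [if_pos hw, hw]
        exact Finset.prod_eq_one fun i _ => if_pos rfl
      · rw [if_neg hw]
        have h4 : ∃ i, y i ≠ w i := by
          by_contra hcon
          push Not at hcon
          exact hw (funext hcon).symm
        obtain ⟨i, hi⟩ := h4
        exact Finset.prod_eq_zero (Finset.mem_univ i) (if_neg hi)
    simp only [Finset.mul_sum]
    rw [Finset.sum_comm]
    have h5 : ∀ w : (i : Fin n) → Fin (d i), ∑ x : (i : Fin n) → Fin (d i),
        (∏ i, B' i (y i) (x i)) * ((∏ i, B i (x i) (w i)) * T w)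
        = (if w = y then 1 else 0) * T w := by
      intro w
      rw [← h2 w, Finset.sum_mul]
      refine Finset.sum_congr rfl fun x _ => ?_
      rw [Finset.prod_mul_distrib]
      ring
    rw [Finset.sum_congr rfl fun w _ => h5 w, Finset.sum_eq_single y]
    · rw [if_pos rfl, one_mul]
    · intro w _ hw
      rw [if_neg hw, zero_mul]
    · intro hn
      exact absurd (Finset.mem_univ _) hn
  rw [h1]

theorem tens_thB {s : ℕ} (B : (i : Fin n) → Matrix (Fin (d i)) (Fin (d i)) ℂ)
    (v : Fin s → (i : Fin n) → Fin (d i) → ℂ)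
    (p : MvPolynomial ((i : Fin n) → Fin (d i)) ℂ) :
    eval (fun x => ∑ l, ∏ i, v l i (x i)) (thB B p)
      = eval (fun y => ∑ l, ∏ i, ∑ a, B i (y i) a * v l i a) p := by
  classical
  rw [eval_thB]
  have h1 : (fun y : (i : Fin n) → Fin (d i) => ∑ x : (i : Fin n) → Fin (d i),
      (∏ i, B i (y i) (x i)) * ∑ l, ∏ i, v l i (x i))
      = fun y => ∑ l, ∏ i, ∑ a, B i (y i) a * v l i a := by
    funext y
    simp only [Finset.mul_sum]
    rw [Finset.sum_comm]
    refine Finset.sum_congr rfl fun l _ => ?_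
    rw [prod_sum_univ fun (i : Fin n) (a : Fin (d i)) => B i (y i) a * v l i a]
    refine Finset.sum_congr rfl fun x _ => ?_
    rw [Finset.prod_mul_distrib]
  rw [h1]

theorem VI_thB {k : ℕ} (B : (i : Fin n) → Matrix (Fin (d i)) (Fin (d i)) ℂ)
    {p : MvPolynomial ((i : Fin n) → Fin (d i)) ℂ} (hp : VI k p) : VI k (thB B p) := by
  intro v
  rw [tens_thB]
  exact hp fun j i a => ∑ c, B i a c * v j i c

end

theorem change {k m r n : ℕ} (d : Fin n → ℕ) (v : Fin r → (i : Fin n) → Fin (d i) → ℂ)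
    (hv : ∀ i, LinearIndependent ℂ fun l => v l i)
    (loc : ∀ (hr : ∀ i, r ≤ d i), ∃ h : MvPolynomial ((i : Fin n) → Fin (d i)) ℂ,
      eval (fun x => ∑ l : Fin r, ∏ i, if x i = Fin.castLE (hr i) l then (1 : ℂ) else 0) h ≠ 0 ∧
        ∀ f, VI k f → h * f ∈ FI k m fun i => Fin (d i)) :
    ∃ h : MvPolynomial ((i : Fin n) → Fin (d i)) ℂ,
      eval (fun x => ∑ l, ∏ i, v l i (x i)) h ≠ 0 ∧
        ∀ f, VI k f → h * f ∈ FI k m fun i => Fin (d i) := by
  classical
  have hr : ∀ i, r ≤ d i := by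
    intro i
    have h1 := (hv i).fintype_card_le_finrank
    rwa [Fintype.card_fin, Module.finrank_fin_fun] at h1
  obtain ⟨h0, hh0, hh1⟩ := loc hr
  by_cases hw : IsEmpty ((i : Fin n) → Fin (d i))
  · refine ⟨h0, ?_, hh1⟩
    have h1 : (fun x : (i : Fin n) → Fin (d i) => ∑ l, ∏ i, v l i (x i))
        = fun x => ∑ l : Fin r, ∏ i, if x i = Fin.castLE (hr i) l then (1 : ℂ) else 0 :=
      funext fun x => (hw.false x).elim
    rw [h1]
    exact hh0
  · rw [not_isEmpty_iff] at hw
    obtain ⟨w0⟩ := hw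
    have h2 := fun i => exists_mat (hr i) (fun l => v l i) (hv i)
    choose B B' hB hBv using h2
    refine ⟨thB B h0, ?_, fun f hf => ?_⟩
    · rw [tens_thB]
      have h3 : (fun y : (i : Fin n) → Fin (d i) => ∑ l, ∏ i, ∑ a, B i (y i) a * v l i a)
          = fun x => ∑ l : Fin r, ∏ i, if x i = Fin.castLE (hr i) l then (1 : ℂ) else 0 := by
        funext y
        refine Finset.sum_congr rfl fun l _ => Finset.prod_congr rfl fun i _ => ?_
        exact hBv i l (y i)
      rw [h3]
      exact hh0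
    · have h4 := FI_thB w0 B (hh1 (thB B' f) (VI_thB B' hf))
      rwa [map_mul, thB_thB hB] at h4

end Pentad.Gen
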