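import Pool.Agent.H.MP_b77b2b_ag.helper16.GA6
import Pool.Agent.H.MP_b77b2b_ag.helper16.GL

/-!
# MP_b77b2b_ag, GA7: equality near the sum of the anchors, and near general points
-/

set_option autoImplicit false

namespace Pentad.Gen

open MvPolynomial

section

variable {I : Type} [Fintype I] [DecidableEq I] {D : I → Type} [∀ i, DecidableEq (D i)] {r : ℕ}

theorem far_of_near (hI : 5 ≤ Fintype.card I) {α : Fin r → (i : I) → D i}
    (hα : ∀ i, Function.Injective fun l => α l i) (w : (i : I) → D i) (l m : Fin r)
    (hl : (nn α l w).card ≤ 1) (hm : m ≠ l) : 2 ≤ (nn α m w).card := by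
  classical
  have : (Finset.univ : Finset I) ⊆ nn α l w ∪ nn α m w := by
    intro i _
    rw [Finset.mem_union]
    by_cases h : i ∈ nn α l w
    · exact Or.inl h
    · exact Or.inr (mem_other hα h hm)
  have h1 := (Finset.card_le_card this).trans (Finset.card_union_le _ _)
  rw [Finset.card_univ] at h1
  omega

/-- Equality near the sum of the anchors. -/
theorem local_at {k m : ℕ} (hm : 2 ≤ m) (hr : k ≤ r + 1) (h5 : 5 ≤ Fintype.card I)
    [∀ i, Finite (D i)] {α : Fin r → (i : I) → D i}
    (hα : ∀ i, Function.Injective fun l => α l i) :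
    ∃ h : MvPolynomial ((i : I) → D i) ℂ, eval (pt α) h ≠ 0 ∧ ∀ f, VI k f → h * f ∈ FI k m D := by
  classical
  obtain ⟨i0⟩ : Nonempty I := Fintype.card_pos_iff.1 (by omega)
  obtain ⟨i1, hi1⟩ := exists_not_mem h5 {i0} (by simp)
  rw [Finset.mem_singleton] at hi1
  have hinj : Function.Injective α := by
    intro l l' h
    exact hα i0 (congrFun h i0)
  have hsep : ∀ (C : Finset I), (∃ i, i ∈ C) → (∃ i, i ∉ C) → Sep α C := by
    rintro C ⟨a, ha⟩ ⟨b, hb⟩ l l' hne
    exact ⟨⟨a, ha, fun h => hne (hα a h)⟩, b, hb, fun h => hne (hα b h)⟩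
  have hsep' : ∀ (C : Finset I) (w : (i : I) → D i), Good α C w → Sep α C := by
    intro C w hw l l' hne
    obtain ⟨a, -, ha⟩ := (hw l).1
    obtain ⟨b, -, hb⟩ := (hw l).2
    exact hsep C ⟨a, ha⟩ ⟨b, hb⟩ l l' hne
  rcases Nat.lt_or_ge k r with hk | hk
  · -- more anchors than `k`: a minor is a unit at the point
    let x : Fin (k + 1) → (i : I) → D i := fun s => α (Fin.castLE hk s)
    refine ⟨(Matrix.of fun s t => (X (mix {i0} (x s) (x t)) :
      MvPolynomial ((i : I) → D i) ℂ)).det, ?_, fun f _ => Ideal.mul_mem_right _ _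
      (minor_mem_FI hm {i0} x x)⟩
    rw [RingHom.map_det]
    have : (eval (pt α)).mapMatrix (Matrix.of fun s t => (X (mix {i0} (x s) (x t)) :
        MvPolynomial ((i : I) → D i) ℂ)) = 1 := by
      ext s t
      rw [RingHom.mapMatrix_apply, Matrix.map_apply, Matrix.of_apply, eval_X,
        pt_mix_anchor hinj (hsep {i0} ⟨i0, by simp⟩ ⟨i1, by simp [hi1]⟩), Matrix.one_apply]
      by_cases hst : s = t
      · subst hst
        rw [if_pos rfl, if_pos rfl]
      · rw [if_neg hst, if_neg]
        exact fun h => hst (Fin.castLE_injective hk h)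
    rw [this, Matrix.det_one]
    exact one_ne_zero
  rcases Nat.lt_or_ge r k with hk' | hk'
  · -- the singular stratum
    have hkr : k = r + 1 := by omega
    subst hkr
    have hconn := connected (rel_conn (k := r + 1) hm rfl hinj hsep') hα h5
    have hstep := order_step (F := FI (r + 1) m D) (J := idVI (r + 1) D) (FI_le_VI _ _ _)
      (p := pt α) (by
        intro j f hf hj
        refine toric_mem (fun m1 m2 h12 => same_key (fun P T h1 h2 h3 => hconn T P h1 h2 h3) h12)
          (homogeneousComponent_isHomogeneous _ _) (Psi_eq_zero ?_)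
        intro y q
        obtain ⟨a, ha⟩ := velocity h5 (far_of_near h5 hα) (fun w => ∏ i, q i (w i)) y
        have h := lead_zero (α := α) (f := f) (fun w => ∏ i, q i (w i)) (by
          intro a t
          refine Eq.trans ?_ (hf (Fin.snoc (α := fun _ => (i : I) → D i → ℂ)
            (fun (l : Fin r) (i : I) (b : D i) => (if b = α l i then 1 else 0) + t * a l i b)
            (fun (i : I) (b : D i) => (if i = i0 then t else 1) * q i b)))
          congr 2
          funext w
          rw [Fin.sum_univ_castSucc]
          congr 1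
          · refine Finset.sum_congr rfl fun l _ => Finset.prod_congr rfl fun i _ => ?_
            rw [Fin.snoc_castSucc]
          · rw [Fin.snoc_last, Finset.prod_mul_distrib, Finset.prod_ite_eq' Finset.univ i0,
              if_pos (Finset.mem_univ i0)]) hj a
        have e : (fun w => (∑ l, (cu (α l) (a l) w).divX.eval 0) + ∏ i, q i (w i))
            = fun w => if Adm α w then ∏ i, q i (w i) else y w := funext fun w => ha w
        rw [e] at h
        exact h)
    obtain ⟨h, h1, h2⟩ := krull (FI (r + 1) m D) (idVI (r + 1) D) (pt α) hstep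
    exact ⟨h, h1, fun f hf => h2 f hf⟩
  · -- the smooth stratum
    have hkr : k = r := le_antisymm hk' hk
    subst hkr
    have hz : ∀ w : (i : I) → D i, Adm α w →
        (X w - C (pt α w) : MvPolynomial ((i : I) → D i) ℂ)
          ∈ FI k m D ⊔ (RingHom.ker (eval (pt α))) ^ 2 := by
      intro w hw
      obtain ⟨Z, -, ⟨z1, z2⟩, -⟩ := split hα (u := w) (u' := w) (Fintype.card I - 4) Finset.univ
        (by rw [Finset.card_univ]; omega) (fun l => by rw [Finset.inter_univ]; exact hw l)
        (fun l => by rw [Finset.inter_univ]; exact hw l)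
      by_cases hk0 : k = 0
      · subst hk0
        have h := minor_mem_FI (k := 0) (m := m) (D := D) hm ∅ (fun _ => w) (fun _ => w)
        have e : (Matrix.of fun s t : Fin (0 + 1) => (X (mix (∅ : Finset I) ((fun _ => w) s)
            ((fun _ => w) t)) : MvPolynomial ((i : I) → D i) ℂ)).det = X w :=
          Matrix.det_fin_one _
        rw [e] at h
        have h0 : pt α w = 0 := pt_zero fun l => l.elim0
        rw [h0, map_zero, sub_zero]
        exact Ideal.mem_sup_left h
      · have hgood : Good α Z w := fun l => ⟨z1 l, by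
          obtain ⟨a, ha, ha'⟩ := z2 l
          exact ⟨a, ha, (Finset.mem_sdiff.1 ha').2⟩⟩
        have h := leading (k := k) (m := m) (q := 1) hm rfl hinj (hsep' Z w hgood)
          (fun _ => w) (fun _ => hgood)
        rw [Matrix.det_unique] at h
        have hself : mix Z w w = w := by
          funext i
          unfold mix
          split_ifs <;> rfl
        have h0 : pt α w = 0 := by
          refine pt_zero fun l e => ?_
          obtain ⟨a, ha, -⟩ := (hgood l).1
          exact mem_nn.1 ha (congrFun e a)
        rw [h0, map_zero, sub_zero]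
        rw [Matrix.of_apply, hself] at h
        exact h
    have hstep := order_step (F := FI k m D) (J := idVI k D) (FI_le_VI _ _ _)
      (p := pt α) (by
        intro j f hf hj
        refine linear_mem hz (homogeneousComponent_isHomogeneous _ _) ?_
        intro y
        obtain ⟨a, ha⟩ := velocity h5 (far_of_near h5 hα) (fun _ => 0) y
        have h := lead_zero (α := α) (f := f) (fun _ => 0) (by
          intro a t
          refine Eq.trans ?_ (hf (fun (l : Fin k) (i : I) (b : D i) =>
            (if b = α l i then 1 else 0) + t * a l i b))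
          congr 2
          funext w
          rw [mul_zero, add_zero]) hj a
        have e : (fun w => (∑ l, (cu (α l) (a l) w).divX.eval 0) + (0 : ℂ))
            = fun w => if Adm α w then 0 else y w := funext fun w => ha w
        rw [e] at h
        exact h)
    obtain ⟨h, h1, h2⟩ := krull (FI k m D) (idVI k D) (pt α) hstep
    exact ⟨h, h1, fun f hf => h2 f hf⟩

end

/-- Equality near general points. -/
theorem local_generic {k r m n : ℕ} (hr : k ≤ r + 1) (hm : 2 ≤ m) (hn : 5 ≤ n) (d : Fin n → ℕ)
    (v : Fin r → (i : Fin n) → Fin (d i) → ℂ) (hv : ∀ i, LinearIndependent ℂ fun l => v l i) :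
    ∃ h : MvPolynomial ((i : Fin n) → Fin (d i)) ℂ,
      eval (fun x => ∑ l, ∏ i, v l i (x i)) h ≠ 0 ∧
        ∀ f, VI k f → h * f ∈ FI k m fun i => Fin (d i) := by
  refine change d v hv fun hrd => ?_
  obtain ⟨h, h1, h2⟩ := local_at (I := Fin n) (D := fun i => Fin (d i)) hm hr
    (by rw [Fintype.card_fin]; exact hn) (α := fun l i => Fin.castLE (hrd i) l)
    (fun i => Fin.castLE_injective (hrd i))
  exact ⟨h, h1, h2⟩

end Pentad.Gen
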