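import Pool.Agent.H.MP_b77b2b_ag.UEv

/-!
# MP_b77b2b_ag, GC1: exchanges between two words avoiding anchors
-/

set_option autoImplicit false

namespace Pentad.Gen

variable {I : Type} [Fintype I] [DecidableEq I] {D : I → Type} [∀ i, DecidableEq (D i)] {r : ℕ}

/-- The columns where the word `w` differs from the anchor `α l`. -/
def nn (α : Fin r → (i : I) → D i) (l : Fin r) (w : (i : I) → D i) : Finset I :=
  Finset.univ.filter fun i => w i ≠ α l i

theorem mem_nn {α : Fin r → (i : I) → D i} {l : Fin r} {w : (i : I) → D i} {i : I} :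
    i ∈ nn α l w ↔ w i ≠ α l i := by
  simp [nn]

theorem not_mem_nn {α : Fin r → (i : I) → D i} {l : Fin r} {w : (i : I) → D i} {i : I} :
    i ∉ nn α l w ↔ w i = α l i := by
  simp [nn]

/-- The word differs from every anchor in at least two columns. -/
def Adm (α : Fin r → (i : I) → D i) (w : (i : I) → D i) : Prop := ∀ l, 2 ≤ (nn α l w).card

/-- The two parts of `w` differ from the corresponding parts of all anchors. -/
def Good (α : Fin r → (i : I) → D i) (C : Finset I) (w : (i : I) → D i) : Prop :=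
  ∀ l, (∃ i ∈ nn α l w, i ∈ C) ∧ ∃ i ∈ nn α l w, i ∉ C

/-- Relations between multisets of words containing the allowed exchanges. -/
structure Conn (α : Fin r → (i : I) → D i)
    (R : Multiset ((i : I) → D i) → Multiset ((i : I) → D i) → Prop) : Prop where
  refl : ∀ P, R P P
  trans : ∀ P Q S, R P Q → R Q S → R P S
  cons : ∀ a P Q, R P Q → R (a ::ₘ P) (a ::ₘ Q)
  exch : ∀ (C : Finset I) (w w' : (i : I) → D i), Good α C w → Good α C w' →
    R (w ::ₘ w' ::ₘ 0) (mix C w' w ::ₘ mix C w w' ::ₘ 0)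

section

variable {α : Fin r → (i : I) → D i}
  {R : Multiset ((i : I) → D i) → Multiset ((i : I) → D i) → Prop}

theorem Conn.ex (hR : Conn α R) (C : Finset I) {w w' : (i : I) → D i} (h : Good α C w)
    (h' : Good α C w') (S : Multiset ((i : I) → D i)) :
    R (w ::ₘ w' ::ₘ S) (mix C w' w ::ₘ mix C w w' ::ₘ S) := by
  induction S using Multiset.induction_on with
  | empty => exact hR.exch C w w' h h'
  | cons a S ih =>
    have := hR.cons a _ _ ih
    rw [Multiset.cons_swap a w, Multiset.cons_swap a w', Multiset.cons_swap a (mix C w' w),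
      Multiset.cons_swap a (mix C w w')] at this
    exact this

theorem good_adm {C : Finset I} {w w' : (i : I) → D i} (h : Good α C w) (h' : Good α C w') :
    Adm α (mix C w' w) := by
  intro l
  obtain ⟨a, ha, haC⟩ := (h' l).1
  obtain ⟨b, hb, hbC⟩ := (h l).2
  have h1 : a ∈ nn α l (mix C w' w) := by
    rw [mem_nn, mix_of_mem haC]
    exact mem_nn.1 ha
  have h2 : b ∈ nn α l (mix C w' w) := by
    rw [mem_nn, mix_of_not hbC]
    exact mem_nn.1 hb
  exact Finset.one_lt_card.2 ⟨a, h1, b, h2, fun e => hbC (e ▸ haC)⟩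

/-- Exchanging one column by two exchanges. -/
theorem Conn.two (hR : Conn α R) {i : I} {Z : Finset I} (hi : i ∉ Z) {w w' : (i : I) → D i}
    (h1 : ∀ l, (∃ a ∈ nn α l w, a ∈ Z) ∧ ∃ a ∈ nn α l w, a ∉ Z ∧ a ≠ i)
    (h2 : ∀ l, (∃ a ∈ nn α l w', a ∈ Z) ∧ ∃ a ∈ nn α l w', a ∉ Z ∧ a ≠ i)
    (S : Multiset ((i : I) → D i)) :
    R (w ::ₘ w' ::ₘ S)
      (Function.update w i (w' i) ::ₘ Function.update w' i (w i) ::ₘ S) := by
  have g1 : Good α Z w := fun l => ⟨(h1 l).1, by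
    obtain ⟨a, ha, hb, -⟩ := (h1 l).2
    exact ⟨a, ha, hb⟩⟩
  have g2 : Good α Z w' := fun l => ⟨(h2 l).1, by
    obtain ⟨a, ha, hb, -⟩ := (h2 l).2
    exact ⟨a, ha, hb⟩⟩
  have g3 : ∀ {u u' : (i : I) → D i},
      (∀ l, (∃ a ∈ nn α l u, a ∈ Z) ∧ ∃ a ∈ nn α l u, a ∉ Z ∧ a ≠ i) →
      (∀ l, (∃ a ∈ nn α l u', a ∈ Z) ∧ ∃ a ∈ nn α l u', a ∉ Z ∧ a ≠ i) →
      Good α (insert i Z) (mix Z u' u) := by
    intro u u' k1 k2 l
    refine ⟨?_, ?_⟩
    · obtain ⟨a, ha, haZ⟩ := (k2 l).1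
      refine ⟨a, ?_, Finset.mem_insert_of_mem haZ⟩
      rw [mem_nn, mix_of_mem haZ]
      exact mem_nn.1 ha
    · obtain ⟨a, ha, haZ, hai⟩ := (k1 l).2
      refine ⟨a, ?_, ?_⟩
      · rw [mem_nn, mix_of_not haZ]
        exact mem_nn.1 ha
      · rw [Finset.mem_insert, not_or]
        exact ⟨hai, haZ⟩
  refine hR.trans _ _ _ (hR.ex Z g1 g2 S) ?_
  have := hR.ex (insert i Z) (g3 h1 h2) (g3 h2 h1) S
  have e : ∀ u u' : (i : I) → D i, mix (insert i Z) (mix Z u u') (mix Z u' u)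
      = Function.update u i (u' i) := by
    intro u u'
    funext a
    by_cases hai : a = i
    · subst hai
      rw [mix_of_mem (Finset.mem_insert_self _ _), mix_of_not hi, Function.update_self]
    · rw [Function.update_of_ne hai]
      by_cases haZ : a ∈ Z
      · rw [mix_of_mem (Finset.mem_insert_of_mem haZ), mix_of_mem haZ]
      · rw [mix_of_not (by rw [Finset.mem_insert, not_or]; exact ⟨hai, haZ⟩), mix_of_not haZ]
  rw [e, e] at this
  exact this

/-- Exchanging one column by three exchanges. -/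
theorem Conn.three (hR : Conn α R) {i s1 s2 : I} (h1 : s1 ≠ i) (h2 : s2 ≠ i) (h12 : s1 ≠ s2)
    {w w' : (i : I) → D i}
    (c1 : ∀ l, i ∈ nn α l w ∨ s1 ∈ nn α l w) (c1' : ∀ l, i ∈ nn α l w' ∨ s1 ∈ nn α l w')
    (c2 : ∀ l, i ∈ nn α l w' ∨ s2 ∈ nn α l w) (c2' : ∀ l, i ∈ nn α l w ∨ s2 ∈ nn α l w')
    (c3 : ∀ l, ∃ a ∈ nn α l w, a ≠ i ∧ a ≠ s1 ∧ a ≠ s2)
    (c3' : ∀ l, ∃ a ∈ nn α l w', a ≠ i ∧ a ≠ s1 ∧ a ≠ s2)
    (S : Multiset ((i : I) → D i)) :
    R (w ::ₘ w' ::ₘ S)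
      (Function.update w i (w' i) ::ₘ Function.update w' i (w i) ::ₘ S) := by
  -- first exchange
  have g1 : ∀ {u : (i : I) → D i}, (∀ l, i ∈ nn α l u ∨ s1 ∈ nn α l u) →
      (∀ l, ∃ a ∈ nn α l u, a ≠ i ∧ a ≠ s1 ∧ a ≠ s2) → Good α {i, s1} u := by
    intro u k1 k3 l
    refine ⟨?_, ?_⟩
    · rcases k1 l with h | h
      · exact ⟨i, h, by simp⟩
      · exact ⟨s1, h, by simp⟩
    · obtain ⟨a, ha, ha1, ha2, -⟩ := k3 l
      exact ⟨a, ha, by simp [ha1, ha2]⟩
  have g2 : ∀ {u u' : (i : I) → D i}, (∀ l, i ∈ nn α l u' ∨ s2 ∈ nn α l u) →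
      (∀ l, ∃ a ∈ nn α l u, a ≠ i ∧ a ≠ s1 ∧ a ≠ s2) →
      Good α {i, s2} (mix {i, s1} u' u) := by
    intro u u' k2 k3 l
    refine ⟨?_, ?_⟩
    · rcases k2 l with h | h
      · refine ⟨i, ?_, by simp⟩
        rw [mem_nn, mix_of_mem (by simp)]
        exact mem_nn.1 h
      · refine ⟨s2, ?_, by simp⟩
        rw [mem_nn, mix_of_not (by simp [h2, h12.symm])]
        exact mem_nn.1 h
    · obtain ⟨a, ha, ha1, ha2, ha3⟩ := k3 l
      refine ⟨a, ?_, by simp [ha1, ha3]⟩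
      rw [mem_nn, mix_of_not (by simp [ha1, ha2])]
      exact mem_nn.1 ha
  have g3 : ∀ {u u' : (i : I) → D i}, (∀ l, i ∈ nn α l u ∨ s2 ∈ nn α l u') →
      (∀ l, ∃ a ∈ nn α l u, a ≠ i ∧ a ≠ s1 ∧ a ≠ s2) →
      Good α {i, s1, s2} (mix {i, s2} (mix {i, s1} u u') (mix {i, s1} u' u)) := by
    intro u u' k2 k3 l
    refine ⟨?_, ?_⟩
    · rcases k2 l with h | h
      · refine ⟨i, ?_, by simp⟩
        rw [mem_nn, mix_of_mem (by simp), mix_of_mem (by simp)]
        exact mem_nn.1 h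
      · refine ⟨s2, ?_, by simp⟩
        rw [mem_nn, mix_of_mem (by simp), mix_of_not (by simp [h2, h12.symm])]
        exact mem_nn.1 h
    · obtain ⟨a, ha, ha1, ha2, ha3⟩ := k3 l
      refine ⟨a, ?_, by simp [ha1, ha2, ha3]⟩
      rw [mem_nn, mix_of_not (by simp [ha1, ha3]), mix_of_not (by simp [ha1, ha2])]
      exact mem_nn.1 ha
  refine hR.trans _ _ _ (hR.ex {i, s1} (g1 c1 c3) (g1 c1' c3') S) ?_
  refine hR.trans _ _ _ (hR.ex {i, s2} (g2 c2 c3) (g2 c2' c3') S) ?_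
  have := hR.ex {i, s1, s2} (g3 c2' c3) (g3 c2 c3') S
  have e : ∀ u u' : (i : I) → D i,
      mix {i, s1, s2} (mix {i, s2} (mix {i, s1} u' u) (mix {i, s1} u u'))
        (mix {i, s2} (mix {i, s1} u u') (mix {i, s1} u' u)) = Function.update u i (u' i) := by
    intro u u'
    funext a
    by_cases hai : a = i
    · subst hai
      rw [mix_of_mem (by simp), mix_of_mem (by simp), mix_of_mem (by simp), Function.update_self]
    · rw [Function.update_of_ne hai]
      by_cases ha1 : a = s1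
      · subst ha1
        rw [mix_of_mem (by simp), mix_of_not (by simp [h1, h12]), mix_of_mem (by simp)]
      · by_cases ha2 : a = s2
        · subst ha2
          rw [mix_of_mem (by simp), mix_of_mem (by simp), mix_of_not (by simp [h2, h12.symm])]
        · rw [mix_of_not (by simp [hai, ha1, ha2]), mix_of_not (by simp [hai, ha2]),
            mix_of_not (by simp [hai, ha1])]
  rw [e, e] at this
  exact this

end

end Pentad.Gen
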