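import Pool.Agent.H.MP_b77b2b_ag.helper16.GC1

/-!
# MP_b77b2b_ag, GC2: exchanging one column between two words
-/

set_option autoImplicit false

namespace Pentad.Gen

variable {I : Type} [Fintype I] [DecidableEq I] {D : I → Type} [∀ i, DecidableEq (D i)] {r : ℕ}
  {α : Fin r → (i : I) → D i}

/-- Two columns where the word agrees with a common anchor. -/
def Mo (α : Fin r → (i : I) → D i) (u : (i : I) → D i) (a b : I) : Prop :=
  ∃ l, a ∉ nn α l u ∧ b ∉ nn α l u

theorem Mo.symm {u : (i : I) → D i} {a b : I} (h : Mo α u a b) : Mo α u b a := by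
  obtain ⟨l, h1, h2⟩ := h
  exact ⟨l, h2, h1⟩

theorem label_unique (hα : ∀ i, Function.Injective fun l => α l i) {u : (i : I) → D i} {a : I}
    {l m : Fin r} (h1 : a ∉ nn α l u) (h2 : a ∉ nn α m u) : l = m := by
  rw [not_mem_nn] at h1 h2
  exact hα a (h1.symm.trans h2)

theorem mem_other (hα : ∀ i, Function.Injective fun l => α l i) {u : (i : I) → D i} {a : I}
    {l m : Fin r} (h1 : a ∉ nn α l u) (hm : m ≠ l) : a ∈ nn α m u := by
  by_contra h2
  exact hm (label_unique hα h2 h1)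

theorem logic6 (p q s p' q' s' : Prop) (h1 : ¬ (p ∧ q)) (h2 : ¬ (p ∧ s)) (h3 : ¬ (q ∧ s))
    (h4 : ¬ (p' ∧ q')) (h5 : ¬ (p' ∧ s')) (h6 : ¬ (q' ∧ s')) :
    (¬ p ∧ ¬ p') ∨ (¬ q ∧ ¬ q') ∨ (¬ s ∧ ¬ s') := by
  by_cases hp : p <;> by_cases hq : q <;> by_cases hs : s <;> simp_all <;> tauto

omit [Fintype I] in
theorem set_abdc (a b c d : I) : ({a, b, c, d} : Finset I) = {a, b, d, c} := by
  ext t
  simp only [Finset.mem_insert, Finset.mem_singleton]
  tauto

omit [Fintype I] in
theorem set_acdb (a b c d : I) : ({a, b, c, d} : Finset I) = {a, c, d, b} := by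
  ext t
  simp only [Finset.mem_insert, Finset.mem_singleton]
  tauto

omit [Fintype I] in
theorem set_bacd (a b c d : I) : ({a, b, c, d} : Finset I) = {b, a, c, d} := by
  ext t
  simp only [Finset.mem_insert, Finset.mem_singleton]
  tauto

omit [Fintype I] in
theorem set_badc (a b c d : I) : ({a, b, c, d} : Finset I) = {b, a, d, c} := by
  ext t
  simp only [Finset.mem_insert, Finset.mem_singleton]
  tauto

omit [Fintype I] in
theorem set_bcda (a b c d : I) : ({a, b, c, d} : Finset I) = {b, c, d, a} := by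
  ext t
  simp only [Finset.mem_insert, Finset.mem_singleton]
  tauto

omit [Fintype I] in
theorem set_cabd (a b c d : I) : ({a, b, c, d} : Finset I) = {c, a, b, d} := by
  ext t
  simp only [Finset.mem_insert, Finset.mem_singleton]
  tauto

omit [Fintype I] in
theorem set_cadb (a b c d : I) : ({a, b, c, d} : Finset I) = {c, a, d, b} := by
  ext t
  simp only [Finset.mem_insert, Finset.mem_singleton]
  tauto

omit [Fintype I] in
theorem set_cbda (a b c d : I) : ({a, b, c, d} : Finset I) = {c, b, d, a} := by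
  ext t
  simp only [Finset.mem_insert, Finset.mem_singleton]
  tauto

omit [Fintype I] in
theorem set_dabc (a b c d : I) : ({a, b, c, d} : Finset I) = {d, a, b, c} := by
  ext t
  simp only [Finset.mem_insert, Finset.mem_singleton]
  tauto

omit [Fintype I] in
theorem set_dacb (a b c d : I) : ({a, b, c, d} : Finset I) = {d, a, c, b} := by
  ext t
  simp only [Finset.mem_insert, Finset.mem_singleton]
  tauto

omit [Fintype I] in
theorem set_dbca (a b c d : I) : ({a, b, c, d} : Finset I) = {d, b, c, a} := by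
  ext t
  simp only [Finset.mem_insert, Finset.mem_singleton]
  tauto

omit [Fintype I] in
theorem set_acbd (a b c d : I) : ({a, b, c, d} : Finset I) = {a, c, b, d} := by
  ext t
  simp only [Finset.mem_insert, Finset.mem_singleton]
  tauto

omit [Fintype I] in
theorem set_adbc (a b c d : I) : ({a, b, c, d} : Finset I) = {a, d, b, c} := by
  ext t
  simp only [Finset.mem_insert, Finset.mem_singleton]
  tauto

theorem split4 (hα : ∀ i, Function.Injective fun l => α l i) {u u' : (i : I) → D i} {Y : Finset I}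
    (hY : Y.card = 4) (h : ∀ l, 2 ≤ (nn α l u ∩ Y).card) (h' : ∀ l, 2 ≤ (nn α l u' ∩ Y).card) :
    ∃ Z ⊆ Y, ((∀ l, ∃ a ∈ nn α l u, a ∈ Z) ∧ ∀ l, ∃ a ∈ nn α l u, a ∈ Y \ Z) ∧
      (∀ l, ∃ a ∈ nn α l u', a ∈ Z) ∧ ∀ l, ∃ a ∈ nn α l u', a ∈ Y \ Z := by
  classical
  obtain ⟨a, b, c, d, hab, hac, had, hbc, hbd, hcd, rfl⟩ : ∃ a b c d : I, a ≠ b ∧ a ≠ c ∧ a ≠ d ∧
      b ≠ c ∧ b ≠ d ∧ c ≠ d ∧ Y = {a, b, c, d} := by
    obtain ⟨a, t, ha, rfl, ht⟩ := Finset.card_eq_succ.1 hY
    obtain ⟨b, c, d, hbc, hbd, hcd, rfl⟩ := Finset.card_eq_three.1 ht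
    simp only [Finset.mem_insert, Finset.mem_singleton, not_or] at ha
    exact ⟨a, b, c, d, ha.1, ha.2.1, ha.2.2, hbc, hbd, hcd, rfl⟩
  -- no three columns agree with one anchor
  have three : ∀ v : (i : I) → D i, (∀ l, 2 ≤ (nn α l v ∩ {a, b, c, d}).card) →
      ∀ x y z w : I, x ≠ y → x ≠ z → y ≠ z → (({a, b, c, d} : Finset I) = {x, y, z, w}) →
        Mo α v x y → Mo α v x z → False := by
    intro v hv x y z w hxy hxz hyz hE h1 h2
    obtain ⟨l, k1, k2⟩ := h1
    obtain ⟨m, k3, k4⟩ := h2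
    have hlm := label_unique hα k1 k3
    subst hlm
    have : nn α l v ∩ {a, b, c, d} ⊆ {w} := by
      intro t ht
      rw [Finset.mem_inter, hE] at ht
      simp only [Finset.mem_insert, Finset.mem_singleton] at ht ⊢
      rcases ht.2 with e | e | e | e
      · exact absurd (e ▸ ht.1) k1
      · exact absurd (e ▸ ht.1) k2
      · exact absurd (e ▸ ht.1) k4
      · exact e
    have := (Finset.card_le_card this).trans (Finset.card_singleton w).le
    have := hv l
    omega
  have e1 : ({a, b, c, d} : Finset I) = {a, b, c, d} := rfl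
  have e2 : ({a, b, c, d} : Finset I) = {a, b, d, c} := set_abdc a b c d
  have e3 : ({a, b, c, d} : Finset I) = {a, c, d, b} := set_acdb a b c d
  have e4 : ({a, b, c, d} : Finset I) = {b, a, c, d} := set_bacd a b c d
  have e5 : ({a, b, c, d} : Finset I) = {b, a, d, c} := set_badc a b c d
  have e6 : ({a, b, c, d} : Finset I) = {b, c, d, a} := set_bcda a b c d
  have e7 : ({a, b, c, d} : Finset I) = {c, a, b, d} := set_cabd a b c d
  have e8 : ({a, b, c, d} : Finset I) = {c, a, d, b} := set_cadb a b c d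
  have e9 : ({a, b, c, d} : Finset I) = {c, b, d, a} := set_cbda a b c d
  have e10 : ({a, b, c, d} : Finset I) = {d, a, b, c} := set_dabc a b c d
  have e11 : ({a, b, c, d} : Finset I) = {d, a, c, b} := set_dacb a b c d
  have e12 : ({a, b, c, d} : Finset I) = {d, b, c, a} := set_dbca a b c d
  have key : ∀ v : (i : I) → D i, (∀ l, 2 ≤ (nn α l v ∩ {a, b, c, d}).card) →
      (¬ ((Mo α v a b ∨ Mo α v c d) ∧ (Mo α v a c ∨ Mo α v b d))) ∧
      (¬ ((Mo α v a b ∨ Mo α v c d) ∧ (Mo α v a d ∨ Mo α v b c))) ∧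
      ¬ ((Mo α v a c ∨ Mo α v b d) ∧ (Mo α v a d ∨ Mo α v b c)) := by
    intro v hv
    have t := three v hv
    refine ⟨?_, ?_, ?_⟩
    · rintro ⟨h1 | h1, h2 | h2⟩
      · exact t a b c d hab hac hbc e1 h1 h2
      · exact t b a d c hab.symm hbd had e5 h1.symm h2
      · exact t c a d b hac.symm hcd had e8 h2.symm h1
      · exact t d b c a hbd.symm hcd.symm hbc e12 h2.symm h1.symm
    · rintro ⟨h1 | h1, h2 | h2⟩
      · exact t a b d c hab had hbd e2 h1 h2
      · exact t b a c d hab.symm hbc hac e4 h1.symm h2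
      · exact t d a c b had.symm hcd.symm hac e11 h2.symm h1.symm
      · exact t c b d a hbc.symm hcd hbd e9 h2.symm h1
    · rintro ⟨h1 | h1, h2 | h2⟩
      · exact t a c d b hac had hcd e3 h1 h2
      · exact t c a b d hac.symm hbc.symm hab e7 h1.symm h2.symm
      · exact t d a b c had.symm hbd.symm hab e10 h2.symm h1.symm
      · exact t b c d a hbc hbd hcd e6 h2 h1
  obtain ⟨k1, k2, k3⟩ := key u h
  obtain ⟨k1', k2', k3'⟩ := key u' h'
  have nomo : ∀ (v : (i : I) → D i) (x y : I), ¬ Mo α v x y → ∀ l, x ∈ nn α l v ∨ y ∈ nn α l v := by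
    intro v x y hn l
    by_contra hc
    rw [not_or] at hc
    exact hn ⟨l, hc⟩
  have fin : ∀ x y z w : I, x ≠ z → x ≠ w → y ≠ z → y ≠ w →
      (({a, b, c, d} : Finset I) = {x, y, z, w}) →
      ¬ Mo α u x y → ¬ Mo α u z w → ¬ Mo α u' x y → ¬ Mo α u' z w →
      ∃ Z ⊆ ({a, b, c, d} : Finset I), ((∀ l, ∃ a ∈ nn α l u, a ∈ Z) ∧
        ∀ l, ∃ t ∈ nn α l u, t ∈ ({a, b, c, d} : Finset I) \ Z) ∧
      (∀ l, ∃ a ∈ nn α l u', a ∈ Z) ∧ ∀ l, ∃ t ∈ nn α l u', t ∈ ({a, b, c, d} : Finset I) \ Z := by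
    intro x y z w hxz hxw hyz hyw hE n1 n2 n3 n4
    have hz : z ∈ ({a, b, c, d} : Finset I) \ {x, y} := by
      rw [hE]
      simp [hxz.symm, hyz.symm]
    have hw : w ∈ ({a, b, c, d} : Finset I) \ {x, y} := by
      rw [hE]
      simp [hxw.symm, hyw.symm]
    refine ⟨{x, y}, ?_, ⟨?_, ?_⟩, ?_, ?_⟩
    · rw [hE]
      intro t ht
      simp only [Finset.mem_insert, Finset.mem_singleton] at ht ⊢
      rcases ht with e | e
      · exact Or.inl e
      · exact Or.inr (Or.inl e)
    · intro l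
      rcases nomo u x y n1 l with e | e
      · exact ⟨x, e, by simp⟩
      · exact ⟨y, e, by simp⟩
    · intro l
      rcases nomo u z w n2 l with e | e
      · exact ⟨z, e, hz⟩
      · exact ⟨w, e, hw⟩
    · intro l
      rcases nomo u' x y n3 l with e | e
      · exact ⟨x, e, by simp⟩
      · exact ⟨y, e, by simp⟩
    · intro l
      rcases nomo u' z w n4 l with e | e
      · exact ⟨z, e, hz⟩
      · exact ⟨w, e, hw⟩
  have cases := logic6 _ _ _ _ _ _ k1 k2 k3 k1' k2' k3'
  rcases cases with ⟨p, q⟩ | ⟨p, q⟩ | ⟨p, q⟩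
  · rw [not_or] at p q
    exact fin a b c d hac had hbc hbd e1 p.1 p.2 q.1 q.2
  · rw [not_or] at p q
    exact fin a c b d hab had hbc.symm hcd (set_acbd a b c d) p.1 p.2 q.1 q.2
  · rw [not_or] at p q
    exact fin a d b c hab hac hbd.symm hcd.symm (set_adbc a b c d) p.1 p.2 q.1 q.2

theorem removable (hα : ∀ i, Function.Injective fun l => α l i) {u : (i : I) → D i} {Y : Finset I}
    (hY : 5 ≤ Y.card) (h : ∀ l, 2 ≤ (nn α l u ∩ Y).card) :
    ∃ B : Finset I, B.card ≤ 2 ∧ ∀ y, y ∉ B → ∀ l, 2 ≤ (nn α l u ∩ Y.erase y).card := by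
  classical
  have hun : ∀ l m, l ≠ m → Y ⊆ (nn α l u ∩ Y) ∪ (nn α m u ∩ Y) := by
    intro l m hlm y hy
    rw [Finset.mem_union, Finset.mem_inter, Finset.mem_inter]
    by_cases h1 : y ∈ nn α l u
    · exact Or.inl ⟨h1, hy⟩
    · exact Or.inr ⟨mem_other hα h1 hlm.symm, hy⟩
  by_cases hex : ∃ l, (nn α l u ∩ Y).card = 2
  · obtain ⟨l, hl⟩ := hex
    refine ⟨nn α l u ∩ Y, hl.le, fun y hy m => ?_⟩
    by_cases hm : m = l
    · subst hm
      have : nn α m u ∩ Y.erase y = (nn α m u ∩ Y).erase y := by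
        ext t; simp; tauto
      rw [this, Finset.erase_eq_of_notMem hy, hl]
    · have h1 := (Finset.card_le_card (hun l m (Ne.symm hm))).trans (Finset.card_union_le _ _)
      have : (nn α m u ∩ Y).erase y ⊆ nn α m u ∩ Y.erase y := by
        intro t; simp; tauto
      have h2 := Finset.card_le_card this
      have h3 := Finset.pred_card_le_card_erase (s := nn α m u ∩ Y) (a := y)
      omega
  · push Not at hex
    refine ⟨∅, by simp, fun y _ m => ?_⟩
    have h1 := h m
    have h1' := hex m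
    have : (nn α m u ∩ Y).erase y ⊆ nn α m u ∩ Y.erase y := by
      intro t; simp; tauto
    have h2 := Finset.card_le_card this
    have h3 := Finset.pred_card_le_card_erase (s := nn α m u ∩ Y) (a := y)
    omega

theorem split (hα : ∀ i, Function.Injective fun l => α l i) {u u' : (i : I) → D i} :
    ∀ (n : ℕ) (Y : Finset I), Y.card = n + 4 → (∀ l, 2 ≤ (nn α l u ∩ Y).card) →
      (∀ l, 2 ≤ (nn α l u' ∩ Y).card) →
    ∃ Z ⊆ Y, ((∀ l, ∃ a ∈ nn α l u, a ∈ Z) ∧ ∀ l, ∃ a ∈ nn α l u, a ∈ Y \ Z) ∧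
      (∀ l, ∃ a ∈ nn α l u', a ∈ Z) ∧ ∀ l, ∃ a ∈ nn α l u', a ∈ Y \ Z := by
  classical
  intro n
  induction n with
  | zero =>
    intro Y hY h h'
    exact split4 hα (by omega) h h'
  | succ n ih =>
    intro Y hY h h'
    obtain ⟨B, hB, hB2⟩ := removable hα (by omega) h
    obtain ⟨B', hB', hB2'⟩ := removable hα (by omega) h'
    have : ∃ y ∈ Y, y ∉ B ∪ B' := by
      by_contra hc
      push Not at hc
      have h1 := Finset.card_le_card (show Y ⊆ B ∪ B' from hc)
      have h2 := Finset.card_union_le B B'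
      omega
    obtain ⟨y, hyY, hy⟩ := this
    rw [Finset.mem_union, not_or] at hy
    obtain ⟨Z, hZ, ⟨z1, z2⟩, z3, z4⟩ := ih (Y.erase y)
      (by rw [Finset.card_erase_of_mem hyY]; omega) (hB2 y hy.1) (hB2' y hy.2)
    have hsub : Y.erase y \ Z ⊆ Y \ Z := Finset.sdiff_subset_sdiff (Finset.erase_subset _ _) le_rfl
    exact ⟨Z, hZ.trans (Finset.erase_subset _ _),
      ⟨z1, fun l => (z2 l).imp fun a ha => ⟨ha.1, hsub ha.2⟩⟩, z3,
      fun l => (z4 l).imp fun a ha => ⟨ha.1, hsub ha.2⟩⟩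

end Pentad.Gen
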