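import Pool.Agent.H.MP_b77b2b_ag.helper16.GC2

/-!
# MP_b77b2b_ag, GC3: exchanging one column between two words, all cases
-/

set_option autoImplicit false

namespace Pentad.Gen

variable {I : Type} [Fintype I] [DecidableEq I] {D : I → Type} [∀ i, DecidableEq (D i)] {r : ℕ}
  {α : Fin r → (i : I) → D i}

theorem inter_univ_erase (u : (i : I) → D i) (l : Fin r) (i : I) :
    nn α l u ∩ Finset.univ.erase i = (nn α l u).erase i := by
  ext t
  simp only [Finset.mem_inter, Finset.mem_erase, Finset.mem_univ, and_true]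
  tauto

theorem nn_update_of_ne {u : (i : I) → D i} {l : Fin r} {i a : I} {b : D i} (h : a ≠ i) :
    a ∈ nn α l (Function.update u i b) ↔ a ∈ nn α l u := by
  rw [mem_nn, mem_nn, Function.update_of_ne h]

theorem nn_update_self {u : (i : I) → D i} {l : Fin r} {i : I} {b : D i} :
    i ∈ nn α l (Function.update u i b) ↔ b ≠ α l i := by
  rw [mem_nn, Function.update_self]

/-- Three distinct choices from a set of size at least `3`. -/
theorem choose3 {E : Finset I} (hE : 3 ≤ E.card) (A B C : I → Prop) (hAB : ∀ e, ¬ (A e ∧ B e))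
    (hA : ∃ e ∈ E, ¬ A e) (hB : ∃ e ∈ E, ¬ B e)
    (hC : ∃ e ∈ E, ∃ e' ∈ E, e ≠ e' ∧ ¬ C e ∧ ¬ C e') :
    ∃ s1 ∈ E, ∃ s2 ∈ E, ∃ s3 ∈ E, s1 ≠ s2 ∧ s1 ≠ s3 ∧ s2 ≠ s3 ∧ ¬ A s1 ∧ ¬ B s2 ∧ ¬ C s3 := by
  classical
  let T : Fin 3 → Finset I := fun j => if j = 0 then E.filter fun e => ¬ A e
    else if j = 1 then E.filter fun e => ¬ B e else E.filter fun e => ¬ C e
  have h0 : T 0 = E.filter fun e => ¬ A e := rfl
  have h1 : T 1 = E.filter fun e => ¬ B e := rfl
  have h2 : T 2 = E.filter fun e => ¬ C e := rfl
  have hall : ∀ s : Finset (Fin 3), s.card ≤ (s.biUnion T).card := by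
    intro s
    by_cases h01 : (0 : Fin 3) ∈ s ∧ (1 : Fin 3) ∈ s
    · have : E ⊆ s.biUnion T := by
        intro e he
        rw [Finset.mem_biUnion]
        by_cases hAe : A e
        · refine ⟨1, h01.2, ?_⟩
          rw [h1, Finset.mem_filter]
          exact ⟨he, fun hBe => hAB e ⟨hAe, hBe⟩⟩
        · refine ⟨0, h01.1, ?_⟩
          rw [h0, Finset.mem_filter]
          exact ⟨he, hAe⟩
      have h3 := Finset.card_le_card this
      have h4 := Finset.card_le_univ s
      rw [Fintype.card_fin] at h4
      omega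
    · by_cases h2s : (2 : Fin 3) ∈ s
      · have hs : s.card ≤ 2 := by
          have : s ≠ Finset.univ := by
            rintro rfl
            exact h01 ⟨Finset.mem_univ _, Finset.mem_univ _⟩
          have h4 := (Finset.card_lt_univ_of_notMem (s := s) (x := if (0 : Fin 3) ∈ s then 1 else 0)
            (by
              split_ifs with h
              · exact fun h' => h01 ⟨h, h'⟩
              · exact h))
          rw [Fintype.card_fin] at h4
          omega
        obtain ⟨e, he, e', he', hne, hCe, hCe'⟩ := hC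
        refine hs.trans (Finset.one_lt_card.2 ⟨e, ?_, e', ?_, hne⟩)
        · rw [Finset.mem_biUnion]
          exact ⟨2, h2s, by rw [h2, Finset.mem_filter]; exact ⟨he, hCe⟩⟩
        · rw [Finset.mem_biUnion]
          exact ⟨2, h2s, by rw [h2, Finset.mem_filter]; exact ⟨he', hCe'⟩⟩
      · rcases s.eq_empty_or_nonempty with rfl | ⟨j, hj⟩
        · simp
        · have hs : s ⊆ {j} := by
            intro j' hj'
            rw [Finset.mem_singleton]
            by_contra hne
            have f0 : ∀ x : Fin 3, x = 0 ∨ x = 1 ∨ x = 2 := by decide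
            rcases f0 j with rfl | rfl | rfl <;> rcases f0 j' with rfl | rfl | rfl
            · exact hne rfl
            · exact h01 ⟨hj, hj'⟩
            · exact h2s hj'
            · exact h01 ⟨hj', hj⟩
            · exact hne rfl
            · exact h2s hj'
            · exact h2s hj
            · exact h2s hj
            · exact hne rfl
          have hc := (Finset.card_le_card hs).trans (Finset.card_singleton j).le
          refine hc.trans (Finset.card_pos.2 ?_)
          have f0 : ∀ x : Fin 3, x = 0 ∨ x = 1 ∨ x = 2 := by decide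
          rcases f0 j with rfl | rfl | rfl
          · obtain ⟨e, he, hAe⟩ := hA
            exact ⟨e, Finset.mem_biUnion.2 ⟨0, hj, by rw [h0, Finset.mem_filter]; exact ⟨he, hAe⟩⟩⟩
          · obtain ⟨e, he, hBe⟩ := hB
            exact ⟨e, Finset.mem_biUnion.2 ⟨1, hj, by rw [h1, Finset.mem_filter]; exact ⟨he, hBe⟩⟩⟩
          · exact absurd hj h2s
  obtain ⟨f, hf, hfT⟩ := (Finset.all_card_le_biUnion_card_iff_exists_injective T).1 hall
  have g0 := hfT 0
  have g1 := hfT 1
  have g2 := hfT 2
  rw [h0, Finset.mem_filter] at g0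
  rw [h1, Finset.mem_filter] at g1
  rw [h2, Finset.mem_filter] at g2
  refine ⟨f 0, g0.1, f 1, g1.1, f 2, g2.1, ?_, ?_, ?_, g0.2, g1.2, g2.2⟩
  · exact fun h => absurd (hf h) (by decide)
  · exact fun h => absurd (hf h) (by decide)
  · exact fun h => absurd (hf h) (by decide)

section

variable {R : Multiset ((i : I) → D i) → Multiset ((i : I) → D i) → Prop}

/-- The case where the first word is near an anchor off the column. -/
theorem Conn.swapBad (hR : Conn α R) (hα : ∀ i, Function.Injective fun l => α l i)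
    (h5 : 5 ≤ Fintype.card I) {i : I} {w w' : (i : I) → D i} (hne : w i ≠ w' i)
    (hw : Adm α w) (hw' : Adm α w') (hx : Adm α (Function.update w i (w' i)))
    (hx' : Adm α (Function.update w' i (w i))) {l : Fin r} (hl : ((nn α l w).erase i).card ≤ 1)
    (S : Multiset ((i : I) → D i)) :
    R (w ::ₘ w' ::ₘ S)
      (Function.update w i (w' i) ::ₘ Function.update w' i (w i) ::ₘ S) := by
  classical
  -- structure of a word near an anchor
  have str : ∀ {u u' : (i : I) → D i}, Adm α u → Adm α (Function.update u i (u' i)) →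
      ∀ {m : Fin r}, ((nn α m u).erase i).card ≤ 1 →
      i ∈ nn α m u ∧ i ∈ nn α m u' ∧ ∃ j, j ≠ i ∧ j ∈ nn α m u ∧ ∀ a, a ≠ i → a ≠ j → a ∉ nn α m u := by
    intro u u' hu hu' m hm
    have k1 : i ∈ nn α m u := by
      by_contra hn
      rw [Finset.erase_eq_of_notMem hn] at hm
      have := hu m
      omega
    have k2 : (nn α m (Function.update u i (u' i))).erase i = (nn α m u).erase i := by
      ext a
      rw [Finset.mem_erase, Finset.mem_erase]
      constructor
      · rintro ⟨h1, h2⟩
        exact ⟨h1, (nn_update_of_ne h1).1 h2⟩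
      · rintro ⟨h1, h2⟩
        exact ⟨h1, (nn_update_of_ne h1).2 h2⟩
    have k3 : i ∈ nn α m (Function.update u i (u' i)) := by
      by_contra hn
      rw [Finset.erase_eq_of_notMem hn] at k2
      have := hu' m
      rw [k2] at this
      omega
    rw [nn_update_self] at k3
    have k4 : ((nn α m u).erase i).card = 1 := by
      have h1 := Finset.card_erase_of_mem k1
      have h2 := hu m
      omega
    obtain ⟨j, hj⟩ := Finset.card_eq_one.1 k4
    have hj' : j ∈ (nn α m u).erase i := by rw [hj]; exact Finset.mem_singleton_self j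
    rw [Finset.mem_erase] at hj'
    refine ⟨k1, mem_nn.2 k3, j, hj'.1, hj'.2, fun a ha haj hmem => haj ?_⟩
    have : a ∈ (nn α m u).erase i := Finset.mem_erase.2 ⟨ha, hmem⟩
    rwa [hj, Finset.mem_singleton] at this
  obtain ⟨k1, k2, j0, hj0i, hj0, hj0'⟩ := str hw hx hl
  have kw : ∀ a, a ≠ i → a ≠ j0 → ∀ m, m ≠ l → a ∈ nn α m w :=
    fun a ha hb m hm => mem_other hα (hj0' a ha hb) hm
  have hcard : ∀ T : Finset I, T.card ≤ 4 → ∃ a, a ∉ T := by
    intro T hT
    by_contra hc
    push Not at hc
    have h1 : (Finset.univ : Finset I) ⊆ T := fun a _ => hc a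
    have h2 := Finset.card_le_card h1
    rw [Finset.card_univ] at h2
    omega
  by_cases hA' : ∃ l', ((nn α l' w').erase i).card ≤ 1
  · obtain ⟨l', hl'⟩ := hA'
    obtain ⟨k1', k2', j1, hj1i, hj1, hj1'⟩ := str hw' hx' hl'
    have kw' : ∀ a, a ≠ i → a ≠ j1 → ∀ m, m ≠ l' → a ∈ nn α m w' :=
      fun a ha hb m hm => mem_other hα (hj1' a ha hb) hm
    obtain ⟨s1, hs1⟩ := hcard {i, j0, j1} ((Finset.card_le_three).trans (by norm_num))
    simp only [Finset.mem_insert, Finset.mem_singleton, not_or] at hs1
    obtain ⟨s2, hs2⟩ := hcard {i, j0, j1, s1} Finset.card_le_four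
    simp only [Finset.mem_insert, Finset.mem_singleton, not_or] at hs2
    refine hR.three (i := i) (s1 := s1) (s2 := s2) hs1.1 hs2.1 (Ne.symm hs2.2.2.2) ?_ ?_ ?_ ?_ ?_ ?_ S
    · intro m
      by_cases hm : m = l
      · subst hm
        exact Or.inl k1
      · exact Or.inr (kw s1 hs1.1 hs1.2.1 m hm)
    · intro m
      by_cases hm : m = l'
      · subst hm
        exact Or.inl k1'
      · exact Or.inr (kw' s1 hs1.1 hs1.2.2 m hm)
    · intro m
      by_cases hm : m = l
      · subst hm
        exact Or.inl k2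
      · exact Or.inr (kw s2 hs2.1 hs2.2.1 m hm)
    · intro m
      by_cases hm : m = l'
      · subst hm
        exact Or.inl k2'
      · exact Or.inr (kw' s2 hs2.1 hs2.2.2.1 m hm)
    · intro m
      by_cases hm : m = l
      · subst hm
        exact ⟨j0, hj0, hj0i, Ne.symm hs1.2.1, Ne.symm hs2.2.1⟩
      · obtain ⟨a, ha⟩ := hcard {i, j0, s1, s2} Finset.card_le_four
        simp only [Finset.mem_insert, Finset.mem_singleton, not_or] at ha
        exact ⟨a, kw a ha.1 ha.2.1 m hm, ha.1, ha.2.2.1, ha.2.2.2⟩
    · intro m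
      by_cases hm : m = l'
      · subst hm
        exact ⟨j1, hj1, hj1i, Ne.symm hs1.2.2, Ne.symm hs2.2.2.1⟩
      · obtain ⟨a, ha⟩ := hcard {i, j1, s1, s2} Finset.card_le_four
        simp only [Finset.mem_insert, Finset.mem_singleton, not_or] at ha
        exact ⟨a, kw' a ha.1 ha.2.1 m hm, ha.1, ha.2.2.1, ha.2.2.2⟩
  · push Not at hA'
    obtain ⟨s1, e1, s2, e2, s3, e3, h12, h13, h23, nA, nB, nC⟩ :=
      choose3 (E := (Finset.univ.erase i).erase j0)
        (by
          rw [Finset.card_erase_of_mem (Finset.mem_erase.2 ⟨hj0i, Finset.mem_univ _⟩),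
            Finset.card_erase_of_mem (Finset.mem_univ _), Finset.card_univ]
          omega)
        (fun e => ∃ m, i ∉ nn α m w' ∧ e ∉ nn α m w')
        (fun e => ∃ m, i ∉ nn α m w ∧ e ∉ nn α m w')
        (fun e => ∃ m, j0 ∉ nn α m w' ∧ e ∉ nn α m w')
        (by
          rintro e ⟨⟨m, h1, h2⟩, m', h3, h4⟩
          have := label_unique hα h2 h4
          subst this
          rw [not_mem_nn] at h1 h3
          exact hne (h3.trans h1.symm))
        (by
          by_cases h : ∃ m, i ∉ nn α m w'
          · obtain ⟨m, hm⟩ := h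
            obtain ⟨e, he, e', he', hee⟩ := Finset.one_lt_card.1 (hA' m)
            have : ∃ e ∈ (nn α m w').erase i, e ≠ j0 := by
              by_cases h : e = j0
              · exact ⟨e', he', fun h' => hee (h.trans h'.symm)⟩
              · exact ⟨e, he, h⟩
            obtain ⟨e, he, hej⟩ := this
            rw [Finset.mem_erase] at he
            refine ⟨e, Finset.mem_erase.2 ⟨hej, Finset.mem_erase.2 ⟨he.1, Finset.mem_univ _⟩⟩, ?_⟩
            rintro ⟨m', h1, h2⟩
            have := label_unique hα hm h1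
            subst this
            exact h2 he.2
          · obtain ⟨e, he⟩ := hcard {i, j0} (Finset.card_le_two.trans (by norm_num))
            simp only [Finset.mem_insert, Finset.mem_singleton, not_or] at he
            exact ⟨e, Finset.mem_erase.2 ⟨he.2, Finset.mem_erase.2 ⟨he.1, Finset.mem_univ _⟩⟩,
              fun ⟨m, h1, _⟩ => h ⟨m, h1⟩⟩)
        (by
          by_cases h : ∃ m, i ∉ nn α m w
          · obtain ⟨m, hm⟩ := h
            obtain ⟨e, he, e', he', hee⟩ := Finset.one_lt_card.1 (hA' m)
            have : ∃ e ∈ (nn α m w').erase i, e ≠ j0 := by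
              by_cases h : e = j0
              · exact ⟨e', he', fun h' => hee (h.trans h'.symm)⟩
              · exact ⟨e, he, h⟩
            obtain ⟨e, he, hej⟩ := this
            rw [Finset.mem_erase] at he
            refine ⟨e, Finset.mem_erase.2 ⟨hej, Finset.mem_erase.2 ⟨he.1, Finset.mem_univ _⟩⟩, ?_⟩
            rintro ⟨m', h1, h2⟩
            have := label_unique hα hm h1
            subst this
            exact h2 he.2
          · obtain ⟨e, he⟩ := hcard {i, j0} (Finset.card_le_two.trans (by norm_num))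
            simp only [Finset.mem_insert, Finset.mem_singleton, not_or] at he
            exact ⟨e, Finset.mem_erase.2 ⟨he.2, Finset.mem_erase.2 ⟨he.1, Finset.mem_univ _⟩⟩,
              fun ⟨m, h1, _⟩ => h ⟨m, h1⟩⟩)
        (by
          by_cases h : ∃ m, j0 ∉ nn α m w'
          · obtain ⟨m, hm⟩ := h
            obtain ⟨e, he, e', he', hee⟩ := Finset.one_lt_card.1 (hA' m)
            rw [Finset.mem_erase] at he he'
            have hej : e ≠ j0 := fun h => hm (h ▸ he.2)
            have hej' : e' ≠ j0 := fun h => hm (h ▸ he'.2)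
            refine ⟨e, Finset.mem_erase.2 ⟨hej, Finset.mem_erase.2 ⟨he.1, Finset.mem_univ _⟩⟩, e',
              Finset.mem_erase.2 ⟨hej', Finset.mem_erase.2 ⟨he'.1, Finset.mem_univ _⟩⟩, hee, ?_, ?_⟩
            · rintro ⟨m', h1, h2⟩
              have := label_unique hα hm h1
              subst this
              exact h2 he.2
            · rintro ⟨m', h1, h2⟩
              have := label_unique hα hm h1
              subst this
              exact h2 he'.2
          · obtain ⟨e, he⟩ := hcard {i, j0} (Finset.card_le_two.trans (by norm_num))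
            simp only [Finset.mem_insert, Finset.mem_singleton, not_or] at he
            obtain ⟨e', he'⟩ := hcard {i, j0, e} (Finset.card_le_three.trans (by norm_num))
            simp only [Finset.mem_insert, Finset.mem_singleton, not_or] at he'
            exact ⟨e, Finset.mem_erase.2 ⟨he.2, Finset.mem_erase.2 ⟨he.1, Finset.mem_univ _⟩⟩, e',
              Finset.mem_erase.2 ⟨he'.2.1, Finset.mem_erase.2 ⟨he'.1, Finset.mem_univ _⟩⟩,
              Ne.symm he'.2.2, fun ⟨m, h1, _⟩ => h ⟨m, h1⟩, fun ⟨m, h1, _⟩ => h ⟨m, h1⟩⟩)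
    simp only [Finset.mem_erase, Finset.mem_univ, and_true] at e1 e2 e3
    push Not at nA nB nC
    refine hR.three (i := i) (s1 := s1) (s2 := s2) e1.2 e2.2 h12 ?_ ?_ ?_ ?_ ?_ ?_ S
    · intro m
      by_cases hm : m = l
      · subst hm
        exact Or.inl k1
      · exact Or.inr (kw s1 e1.2 e1.1 m hm)
    · intro m
      by_cases h : i ∈ nn α m w'
      · exact Or.inl h
      · exact Or.inr (nA m h)
    · intro m
      by_cases hm : m = l
      · subst hm
        exact Or.inl k2
      · exact Or.inr (kw s2 e2.2 e2.1 m hm)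
    · intro m
      by_cases h : i ∈ nn α m w
      · exact Or.inl h
      · exact Or.inr (nB m h)
    · intro m
      by_cases hm : m = l
      · subst hm
        exact ⟨j0, hj0, hj0i, Ne.symm e1.1, Ne.symm e2.1⟩
      · exact ⟨s3, kw s3 e3.2 e3.1 m hm, e3.2, Ne.symm h13, Ne.symm h23⟩
    · intro m
      by_cases h : j0 ∈ nn α m w'
      · exact ⟨j0, h, hj0i, Ne.symm e1.1, Ne.symm e2.1⟩
      · exact ⟨s3, nC m h, e3.2, Ne.symm h13, Ne.symm h23⟩

/-- Exchanging one column between two words. -/
theorem Conn.swap (hR : Conn α R) (hα : ∀ i, Function.Injective fun l => α l i)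
    (h5 : 5 ≤ Fintype.card I) (i : I) {w w' : (i : I) → D i}
    (hw : Adm α w) (hw' : Adm α w') (hx : Adm α (Function.update w i (w' i)))
    (hx' : Adm α (Function.update w' i (w i))) (S : Multiset ((i : I) → D i)) :
    R (w ::ₘ w' ::ₘ S)
      (Function.update w i (w' i) ::ₘ Function.update w' i (w i) ::ₘ S) := by
  classical
  by_cases hne : w i = w' i
  · have e1 : Function.update w i (w' i) = w := by rw [← hne, Function.update_eq_self]
    have e2 : Function.update w' i (w i) = w' := by rw [hne, Function.update_eq_self]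
    rw [e1, e2]
    exact hR.refl _
  by_cases hA : ∃ l, ((nn α l w).erase i).card ≤ 1
  · obtain ⟨l, hl⟩ := hA
    exact hR.swapBad hα h5 hne hw hw' hx hx' hl S
  by_cases hA' : ∃ l, ((nn α l w').erase i).card ≤ 1
  · obtain ⟨l, hl⟩ := hA'
    have := hR.swapBad hα h5 (Ne.symm hne) hw' hw hx' hx hl S
    rw [Multiset.cons_swap w' w, Multiset.cons_swap (Function.update w' i (w i))] at this
    exact this
  push Not at hA hA'
  obtain ⟨Z, hZ, ⟨z1, z2⟩, z3, z4⟩ := split hα (u := w) (u' := w') (Fintype.card I - 5)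
    (Finset.univ.erase i)
    (by rw [Finset.card_erase_of_mem (Finset.mem_univ _), Finset.card_univ]; omega)
    (fun l => by rw [inter_univ_erase]; exact hA l) (fun l => by rw [inter_univ_erase]; exact hA' l)
  refine hR.two (i := i) (Z := Z) (fun h => (Finset.mem_erase.1 (hZ h)).1 rfl) ?_ ?_ S
  · intro l
    refine ⟨z1 l, ?_⟩
    obtain ⟨a, ha, ha'⟩ := z2 l
    rw [Finset.mem_sdiff, Finset.mem_erase] at ha'
    exact ⟨a, ha, ha'.2, ha'.1.1⟩
  · intro l
    refine ⟨z3 l, ?_⟩
    obtain ⟨a, ha, ha'⟩ := z4 l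
    rw [Finset.mem_sdiff, Finset.mem_erase] at ha'
    exact ⟨a, ha, ha'.2, ha'.1.1⟩

end

end Pentad.Gen
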