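import Pool.Agent.H.MP_b77b2b_ag.helper16.GC3

/-!
# MP_b77b2b_ag, GC4: steps between multisets of words, improvement of the agreement
-/

set_option autoImplicit false

namespace Pentad.Gen

variable {I : Type} [Fintype I] [DecidableEq I] {D : I → Type} [∀ i, DecidableEq (D i)] {r : ℕ}
  {α : Fin r → (i : I) → D i}
  {R : Multiset ((i : I) → D i) → Multiset ((i : I) → D i) → Prop}

/-- `P'` is reached from `P`, consists of admissible words and has the same columns. -/
def Ok (α : Fin r → (i : I) → D i)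
    (R : Multiset ((i : I) → D i) → Multiset ((i : I) → D i) → Prop)
    (P P' : Multiset ((i : I) → D i)) : Prop :=
  R P P' ∧ (∀ a ∈ P', Adm α a) ∧ ∀ i, P'.map (fun w => w i) = P.map fun w => w i

theorem Ok.trans (hR : Conn α R) {P Q S : Multiset ((i : I) → D i)} (h1 : Ok α R P Q)
    (h2 : Ok α R Q S) : Ok α R P S :=
  ⟨hR.trans _ _ _ h1.1 h2.1, h2.2.1, fun i => (h2.2.2 i).trans (h1.2.2 i)⟩

theorem okSwap (hR : Conn α R) (hα : ∀ i, Function.Injective fun l => α l i)
    (h5 : 5 ≤ Fintype.card I) (i : I) {w w' : (i : I) → D i} {S : Multiset ((i : I) → D i)}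
    (hA : ∀ a ∈ w ::ₘ w' ::ₘ S, Adm α a) {b b' : D i} (hb : b = w' i) (hb' : b' = w i)
    (hx : Adm α (Function.update w i b)) (hx' : Adm α (Function.update w' i b')) :
    Ok α R (w ::ₘ w' ::ₘ S) (Function.update w i b ::ₘ Function.update w' i b' ::ₘ S) := by
  subst hb hb'
  refine ⟨hR.swap hα h5 i (hA w (by simp)) (hA w' (by simp)) hx hx' S, ?_, ?_⟩
  · intro a ha
    simp only [Multiset.mem_cons] at ha
    rcases ha with rfl | rfl | ha
    · exact hx
    · exact hx'
    · exact hA a (by simp [ha])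
  · intro j
    rw [Multiset.map_cons, Multiset.map_cons, Multiset.map_cons, Multiset.map_cons]
    by_cases hj : j = i
    · subst hj
      rw [Function.update_self, Function.update_self, Multiset.cons_swap]
    · rw [Function.update_of_ne hj, Function.update_of_ne hj]

theorem okEx (hR : Conn α R) (C : Finset I) {w w' : (i : I) → D i}
    {S : Multiset ((i : I) → D i)} (hA : ∀ a ∈ w ::ₘ w' ::ₘ S, Adm α a) (h : Good α C w)
    (h' : Good α C w') :
    Ok α R (w ::ₘ w' ::ₘ S) (mix C w' w ::ₘ mix C w w' ::ₘ S) := by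
  refine ⟨hR.ex C h h' S, ?_, ?_⟩
  · intro a ha
    simp only [Multiset.mem_cons] at ha
    rcases ha with rfl | rfl | ha
    · exact good_adm h h'
    · exact good_adm h' h
    · exact hA a (by simp [ha])
  · intro j
    rw [Multiset.map_cons, Multiset.map_cons, Multiset.map_cons, Multiset.map_cons]
    by_cases hj : j ∈ C
    · rw [mix_of_mem hj, mix_of_mem hj, Multiset.cons_swap]
    · rw [mix_of_not hj, mix_of_not hj]

/-- The number of columns where the two words agree. -/
def agr (t w : (i : I) → D i) : ℕ := (Finset.univ.filter fun i => w i = t i).card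

theorem agr_lt {t w w2 : (i : I) → D i} (h : ∀ i, w i = t i → w2 i = t i) {c : I}
    (hc : w c ≠ t c) (hc2 : w2 c = t c) : agr t w < agr t w2 := by
  refine Finset.card_lt_card ⟨?_, ?_⟩
  · intro i hi
    rw [Finset.mem_filter] at hi ⊢
    exact ⟨hi.1, h i hi.2⟩
  · intro hs
    have := hs (Finset.mem_filter.2 ⟨Finset.mem_univ c, hc2⟩)
    exact hc (Finset.mem_filter.1 this).2

theorem exists_not_mem (h5 : 5 ≤ Fintype.card I) (T : Finset I) (hT : T.card ≤ 4) :
    ∃ a, a ∉ T := by
  by_contra hc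
  push Not at hc
  have h1 : (Finset.univ : Finset I) ⊆ T := fun a _ => hc a
  have h2 := Finset.card_le_card h1
  rw [Finset.card_univ] at h2
  omega

/-- If changing one column makes a word inadmissible, it is at distance two from an anchor. -/
theorem poor {u : (i : I) → D i} {d : I} {b : D d} (hu : Adm α u)
    (h : ¬ Adm α (Function.update u d b)) :
    ∃ m e, b = α m d ∧ d ∈ nn α m u ∧ e ≠ d ∧ e ∈ nn α m u ∧
      ∀ a, a ≠ d → a ≠ e → a ∉ nn α m u := by
  classical
  unfold Adm at h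
  push Not at h
  obtain ⟨m, hm⟩ := h
  have hsub : (nn α m u).erase d ⊆ nn α m (Function.update u d b) := by
    intro a ha
    rw [Finset.mem_erase] at ha
    exact (nn_update_of_ne ha.1).2 ha.2
  have h1 := Finset.card_le_card hsub
  have h2 := hu m
  have hd : d ∈ nn α m u := by
    by_contra hd
    rw [Finset.erase_eq_of_notMem hd] at h1
    omega
  have h3 := Finset.card_erase_of_mem hd
  have h4 : ((nn α m u).erase d).card = 1 := by omega
  obtain ⟨e, he⟩ := Finset.card_eq_one.1 h4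
  have he' : e ∈ (nn α m u).erase d := by rw [he]; exact Finset.mem_singleton_self e
  rw [Finset.mem_erase] at he'
  refine ⟨m, e, ?_, hd, he'.1, he'.2, fun a had hae ha => hae ?_⟩
  · by_contra hb
    have hd' : d ∈ nn α m (Function.update u d b) := nn_update_self.2 hb
    have he2 : e ∈ nn α m (Function.update u d b) := hsub (by rw [he]; simp)
    have := Finset.one_lt_card.2 ⟨d, hd', e, he2, Ne.symm he'.1⟩
    omega
  · have : a ∈ (nn α m u).erase d := Finset.mem_erase.2 ⟨had, ha⟩
    rwa [he, Finset.mem_singleton] at this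

/-- A word near the anchor `l` is far from the others. -/
theorem far (h5 : 5 ≤ Fintype.card I) (hα : ∀ i, Function.Injective fun l => α l i)
    {u v : (i : I) → D i} {l m : Fin r} (hm : m ≠ l) (c d e : I)
    (hu : ∀ a, a ≠ c → a ≠ d → a ∉ nn α l u) (hv : ∀ a, a ≠ c → a ≠ d → a ≠ e → v a = u a) :
    2 ≤ (nn α m v).card := by
  classical
  obtain ⟨a, ha⟩ := exists_not_mem h5 {c, d, e} (Finset.card_le_three.trans (by norm_num))
  obtain ⟨b, hb⟩ := exists_not_mem h5 {c, d, e, a} Finset.card_le_four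
  simp only [Finset.mem_insert, Finset.mem_singleton, not_or] at ha hb
  refine Finset.one_lt_card.2 ⟨a, ?_, b, ?_, Ne.symm hb.2.2.2⟩
  · rw [mem_nn, hv a ha.1 ha.2.1 ha.2.2]
    exact mem_nn.1 (mem_other hα (hu a ha.1 ha.2.1) hm)
  · rw [mem_nn, hv b hb.1 hb.2.1 hb.2.2.1]
    exact mem_nn.1 (mem_other hα (hu b hb.1 hb.2.1) hm)

theorem findRow {t w : (i : I) → D i} {Q T : Multiset ((i : I) → D i)} {c : I}
    (hc : (w ::ₘ Q).map (fun w => w c) = (t ::ₘ T).map fun w => w c) (hne : w c ≠ t c) :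
    ∃ u Q', Q = u ::ₘ Q' ∧ u c = t c := by
  have h1 : t c ∈ (w ::ₘ Q).map fun w => w c := by
    rw [hc, Multiset.map_cons]
    exact Multiset.mem_cons_self _ _
  rw [Multiset.mem_map] at h1
  obtain ⟨u, hu, huc⟩ := h1
  rw [Multiset.mem_cons] at hu
  rcases hu with rfl | hu
  · exact absurd huc hne
  · obtain ⟨Q', hQ'⟩ := Multiset.exists_cons_of_mem hu
    exact ⟨u, Q', hQ', huc⟩

/-- The double exchange of two words near the same anchor. -/
theorem dbl (hR : Conn α R) (hα : ∀ i, Function.Injective fun l => α l i)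
    (h5 : 5 ≤ Fintype.card I) {t w v : (i : I) → D i} {S : Multiset ((i : I) → D i)}
    (hA : ∀ a ∈ w ::ₘ v ::ₘ S, Adm α a) {l : Fin r} {c c2 d d2 : I}
    (hc : c ∈ nn α l w) (hc2 : c2 ∈ nn α l w) (hcc : c2 ≠ c)
    (hw : ∀ a, a ≠ c → a ≠ c2 → a ∉ nn α l w)
    (hd : d ∈ nn α l v) (hd2 : d2 ∈ nn α l v) (hdd : d2 ≠ d)
    (hv : ∀ a, a ≠ d → a ≠ d2 → a ∉ nn α l v)
    (hdc : d ≠ c) (hdc2 : d ≠ c2) (hd2c : d2 ≠ c) (htc : t c = α l c) (htd : v d = t d)
    (hwd : w d ≠ t d) :
    ∃ w2 Q2, Ok α R (w ::ₘ v ::ₘ S) (w2 ::ₘ Q2) ∧ agr t w < agr t w2 := by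
  classical
  have g1 : Good α {c, d} w := by
    intro m
    by_cases hm : m = l
    · subst hm
      exact ⟨⟨c, hc, by simp⟩, c2, hc2, by simp [hcc, Ne.symm hdc2]⟩
    · obtain ⟨a, ha⟩ := exists_not_mem h5 {c, c2, d} (Finset.card_le_three.trans (by norm_num))
      simp only [Finset.mem_insert, Finset.mem_singleton, not_or] at ha
      exact ⟨⟨d, mem_other hα (hw d hdc hdc2) hm, by simp⟩, a,
        mem_other hα (hw a ha.1 ha.2.1) hm, by simp [ha.1, ha.2.2]⟩
  have g2 : Good α {c, d} v := by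
    intro m
    by_cases hm : m = l
    · subst hm
      exact ⟨⟨d, hd, by simp⟩, d2, hd2, by simp [hdd, hd2c]⟩
    · obtain ⟨a, ha⟩ := exists_not_mem h5 {d, d2, c} (Finset.card_le_three.trans (by norm_num))
      simp only [Finset.mem_insert, Finset.mem_singleton, not_or] at ha
      exact ⟨⟨c, mem_other hα (hv c (Ne.symm hdc) (Ne.symm hd2c)) hm, by simp⟩, a,
        mem_other hα (hv a ha.1 ha.2.1) hm, by simp [ha.1, ha.2.2]⟩
  refine ⟨_, _, okEx hR {c, d} hA g1 g2, agr_lt (c := d) ?_ hwd ?_⟩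
  · intro i hi
    by_cases hic : i = c
    · subst hic
      rw [mix_of_mem (by simp), htc]
      exact not_mem_nn.1 (hv i (Ne.symm hdc) (Ne.symm hd2c))
    · by_cases hid : i = d
      · subst hid
        rw [mix_of_mem (by simp)]
        exact htd
      · rw [mix_of_not (by simp [hic, hid])]
        exact hi
  · rw [mix_of_mem (by simp)]
    exact htd

end Pentad.Gen
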