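import Pool.Agent.H.MP_b77b2b_ag.helper16.GC4

/-!
# MP_b77b2b_ag, GC5: improving the agreement with a word of the target
-/

set_option autoImplicit false

namespace Pentad.Gen

variable {I : Type} [Fintype I] [DecidableEq I] {D : I → Type} [∀ i, DecidableEq (D i)] {r : ℕ}
  {α : Fin r → (i : I) → D i}
  {R : Multiset ((i : I) → D i) → Multiset ((i : I) → D i) → Prop}

/-- Type I: the wanted change makes the word inadmissible. -/
theorem typeI (hR : Conn α R) (hα : ∀ i, Function.Injective fun l => α l i)
    (h5 : 5 ≤ Fintype.card I) {t w : (i : I) → D i} {Q T : Multiset ((i : I) → D i)}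
    (hA : ∀ a ∈ w ::ₘ Q, Adm α a) (ht : Adm α t)
    (hcon : ∀ i, (w ::ₘ Q).map (fun w => w i) = (t ::ₘ T).map fun w => w i)
    {c : I} (hwc : w c ≠ t c) (hbad : ¬ Adm α (Function.update w c (t c))) :
    ∃ w2 Q2, Ok α R (w ::ₘ Q) (w2 ::ₘ Q2) ∧ agr t w < agr t w2 := by
  classical
  obtain ⟨l, c2, htc, hc, hcc, hc2, hw⟩ := poor (hA w (by simp)) hbad
  -- a second column where the target is not the anchor
  obtain ⟨d, hd, hdc2⟩ : ∃ d ∈ nn α l t, d ≠ c2 := by
    obtain ⟨a, ha, b, hb, hab⟩ := Finset.one_lt_card.1 (ht l)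
    by_cases h : a = c2
    · exact ⟨b, hb, fun h' => hab (h.trans h'.symm)⟩
    · exact ⟨a, ha, h⟩
  have hdc : d ≠ c := by
    rintro rfl
    exact (mem_nn.1 hd) htc
  have hwd : w d = α l d := not_mem_nn.1 (hw d hdc hdc2)
  have hwdt : w d ≠ t d := fun h => mem_nn.1 hd (h.symm.trans hwd)
  obtain ⟨v, S, rfl, hvd⟩ := findRow (hcon d) hwdt
  have hx : Adm α (Function.update w d (v d)) := by
    intro m
    by_cases hm : m = l
    · subst hm
      exact Finset.one_lt_card.2 ⟨c, (nn_update_of_ne (Ne.symm hdc)).2 hc, c2,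
        (nn_update_of_ne (Ne.symm hdc2)).2 hc2, Ne.symm hcc⟩
    · exact far h5 hα hm c c2 d hw fun a _ _ h => Function.update_of_ne h _ _
  by_cases hx' : Adm α (Function.update v d (w d))
  · refine ⟨_, _, okSwap hR hα h5 d hA rfl rfl hx hx', agr_lt (c := d) ?_ hwdt ?_⟩
    · intro i hi
      by_cases hid : i = d
      · subst hid
        exact absurd hi hwdt
      · rw [Function.update_of_ne hid]
        exact hi
    · rw [Function.update_self]
      exact hvd
  · obtain ⟨m, d2, hm, hvd', hdd, hvd2, hv⟩ := poor (hA v (by simp)) hx'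
    have hml : m = l := hα d (hm.symm.trans hwd)
    subst hml
    by_cases hd2c : d2 = c
    · subst hd2c
      -- the third row
      have hcon2 := hcon d2
      rw [Multiset.cons_swap] at hcon2
      have hwc' : v d2 ≠ t d2 := fun h => mem_nn.1 hvd2 (h.trans htc)
      obtain ⟨u, S', hS', huc⟩ := findRow hcon2 hwc'
      have huw : u ≠ w := by
        rintro rfl
        exact hwc huc
      have : u ∈ S := by
        have hu : u ∈ w ::ₘ S := by rw [hS']; exact Multiset.mem_cons_self _ _
        rw [Multiset.mem_cons] at hu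
        exact hu.resolve_left huw
      obtain ⟨S2, rfl⟩ := Multiset.exists_cons_of_mem this
      have huA : Adm α u := hA u (by simp)
      have huc' : d2 ∉ nn α m u := not_mem_nn.2 (huc.trans htc)
      -- choice of the column x
      obtain ⟨x, hxc, hxd, hxu, hxn⟩ : ∃ x, x ≠ d2 ∧ x ≠ d ∧ x ∈ nn α m u ∧
          ∀ m', m' ≠ m → ∃ a ∈ nn α m' u, a ≠ d2 ∧ a ≠ x := by
        obtain ⟨x, hx1, hx2⟩ : ∃ x ∈ nn α m u, x ≠ d := by
          obtain ⟨a, ha, b, hb, hab⟩ := Finset.one_lt_card.1 (huA m)
          by_cases h : a = d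
          · exact ⟨b, hb, fun h' => hab (h.trans h'.symm)⟩
          · exact ⟨a, ha, h⟩
        have hx3 : x ≠ d2 := fun h => huc' (h ▸ hx1)
        by_cases hall : ∀ m', m' ≠ m → ∃ a ∈ nn α m' u, a ≠ d2 ∧ a ≠ x
        · exact ⟨x, hx3, hx2, hx1, hall⟩
        · push Not at hall
          obtain ⟨m', hm', hm2⟩ := hall
          obtain ⟨x', hx'⟩ := exists_not_mem h5 {d2, d, x}
            (Finset.card_le_three.trans (by norm_num))
          simp only [Finset.mem_insert, Finset.mem_singleton, not_or] at hx'
          have hx'm : x' ∉ nn α m' u := fun h => hx'.2.2 (hm2 x' h hx'.1)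
          refine ⟨x', hx'.1, hx'.2.1, mem_other hα hx'm (Ne.symm hm'), ?_⟩
          intro m'' hm''
          by_cases hmm : m'' = m'
          · subst hmm
            obtain ⟨a, ha, b, hb, hab⟩ := Finset.one_lt_card.1 (huA m'')
            have : x ∈ nn α m'' u := by
              by_contra hxn
              have h1 : a = d2 := by
                by_contra h
                exact hxn ((hm2 a ha h) ▸ ha)
              have h2 : b = d2 := by
                by_contra h
                exact hxn ((hm2 b hb h) ▸ hb)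
              exact hab (h1.trans h2.symm)
            exact ⟨x, this, hx3, Ne.symm hx'.2.2⟩
          · obtain ⟨y, hy⟩ := exists_not_mem h5 {d2, x, x'}
              (Finset.card_le_three.trans (by norm_num))
            simp only [Finset.mem_insert, Finset.mem_singleton, not_or] at hy
            have hym : y ∉ nn α m' u := fun h => hy.2.1 (hm2 y h hy.1)
            exact ⟨y, mem_other hα hym hmm, hy.1, hy.2.2⟩
      have g1 : Good α {d2, x} v := by
        intro m'
        by_cases hm' : m' = m
        · subst hm'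
          exact ⟨⟨d2, hvd2, by simp⟩, d, hvd', by simp [Ne.symm hdd, Ne.symm hxd]⟩
        · obtain ⟨a, ha⟩ := exists_not_mem h5 {d, d2, x}
            (Finset.card_le_three.trans (by norm_num))
          simp only [Finset.mem_insert, Finset.mem_singleton, not_or] at ha
          exact ⟨⟨x, mem_other hα (hv x hxd hxc) hm', by simp⟩, a,
            mem_other hα (hv a ha.1 ha.2.1) hm', by simp [ha.2.1, ha.2.2]⟩
      have g2 : Good α {d2, x} u := by
        intro m'
        by_cases hm' : m' = m
        · subst hm'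
          refine ⟨⟨x, hxu, by simp⟩, ?_⟩
          obtain ⟨a, ha, b, hb, hab⟩ := Finset.one_lt_card.1 (huA m')
          have ha2 : a ≠ d2 := fun h => huc' (h ▸ ha)
          have hb2 : b ≠ d2 := fun h => huc' (h ▸ hb)
          by_cases h : a = x
          · exact ⟨b, hb, by
              rw [Finset.mem_insert, Finset.mem_singleton, not_or]
              exact ⟨hb2, fun h' => hab (h.trans h'.symm)⟩⟩
          · exact ⟨a, ha, by simp [ha2, h]⟩
        · obtain ⟨a, ha, ha1, ha2⟩ := hxn m' hm'
          exact ⟨⟨d2, mem_other hα huc' hm', by simp⟩, a, ha, by simp [ha1, ha2]⟩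
      have hA2 : ∀ a ∈ v ::ₘ u ::ₘ w ::ₘ S2, Adm α a := by
        intro a ha
        refine hA a ?_
        simp only [Multiset.mem_cons] at ha ⊢
        tauto
      have step := okEx hR {d2, x} (S := w ::ₘ S2) hA2 g1 g2
      have e1 : v ::ₘ u ::ₘ w ::ₘ S2 = w ::ₘ v ::ₘ u ::ₘ S2 := by
        rw [Multiset.cons_swap u w, Multiset.cons_swap v w]
      have e2 : mix {d2, x} u v ::ₘ mix {d2, x} v u ::ₘ w ::ₘ S2
          = w ::ₘ mix {d2, x} u v ::ₘ mix {d2, x} v u ::ₘ S2 := by
        rw [Multiset.cons_swap (mix {d2, x} v u) w, Multiset.cons_swap (mix {d2, x} u v) w]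
      rw [e1, e2] at step
      obtain ⟨w2, Q2, hok, hagr⟩ := dbl hR hα h5 (t := t) (w := w) (v := mix {d2, x} u v)
        (S := mix {d2, x} v u ::ₘ S2) step.2.1 (l := m) (c := d2) (c2 := c2) (d := d) (d2 := x)
        hc hc2 hcc hw
        (by
          rw [mem_nn, mix_of_not (by simp [Ne.symm hdd, Ne.symm hxd])]
          exact mem_nn.1 hvd')
        (by
          rw [mem_nn, mix_of_mem (by simp)]
          exact mem_nn.1 hxu)
        hxd
        (by
          intro a ha1 ha2
          by_cases h : a = d2
          · subst h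
            rw [not_mem_nn, mix_of_mem (by simp)]
            exact not_mem_nn.1 huc'
          · rw [not_mem_nn, mix_of_not (by simp [h, ha2])]
            exact not_mem_nn.1 (hv a ha1 h))
        hdc hdc2 hxc htc
        (by
          rw [mix_of_not (by simp [Ne.symm hdd, Ne.symm hxd])]
          exact hvd)
        hwdt
      exact ⟨w2, Q2, step.trans hR hok, hagr⟩
    · exact dbl hR hα h5 hA hc hc2 hcc hw hvd' hvd2 hdd hv hdc hdc2 hd2c htc hvd hwdt

end Pentad.Gen
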