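import Pool.Agent.H.MP_b77b2b_ag.helper16.LC0
import Pool.Agent.H.MP_b77b2b_ag.helper16.GA4

/-!
# MP_b77b2b_ag, LA1: exchanges are leading forms of minors, weighted anchors
-/

set_option autoImplicit false

namespace Pentad.Gen

open MvPolynomial

variable {I : Type} [Fintype I] [DecidableEq I] {D : I → Type} [∀ i, DecidableEq (D i)] {r : ℕ}

/-- The weighted sum of the anchors, as a tensor. -/
noncomputable def ptc (α : Fin r → (i : I) → D i) (c : Fin r → ℂ) (w : (i : I) → D i) : ℂ :=
  ∑ l, c l * ∏ i, if w i = α l i then 1 else 0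

theorem ptc_eq (α : Fin r → (i : I) → D i) (c : Fin r → ℂ) (w : (i : I) → D i) :
    ptc α c w = ∑ l, c l * if w = α l then 1 else 0 := by
  unfold ptc
  exact Finset.sum_congr rfl fun l _ => by rw [prod_ite_eq]

theorem ptc_zero {α : Fin r → (i : I) → D i} {c : Fin r → ℂ} {w : (i : I) → D i}
    (h : ∀ l, w ≠ α l) : ptc α c w = 0 := by
  rw [ptc_eq]
  exact Finset.sum_eq_zero fun l _ => by rw [if_neg (h l), mul_zero]

theorem ptc_anchor {α : Fin r → (i : I) → D i} {c : Fin r → ℂ} (hinj : Function.Injective α)
    (l : Fin r) : ptc α c (α l) = c l := by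
  rw [ptc_eq, Finset.sum_eq_single l]
  · rw [if_pos rfl, mul_one]
  · intro m _ hm
    rw [if_neg fun h => hm (hinj h.symm), mul_zero]
  · intro h
    exact absurd (Finset.mem_univ l) h

theorem ptc_mix_anchor {α : Fin r → (i : I) → D i} {c : Fin r → ℂ}
    (hinj : Function.Injective α) {C : Finset I} (hC : Sep α C) (l m : Fin r) :
    ptc α c (mix C (α l) (α m)) = if l = m then c l else 0 := by
  by_cases h : l = m
  · subst h
    rw [if_pos rfl]
    have : mix C (α l) (α l) = α l := by
      funext i
      unfold mix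
      split_ifs <;> rfl
    rw [this, ptc_anchor hinj]
  · rw [if_neg h]
    refine ptc_zero fun j e => ?_
    by_cases hj : l = j
    · subst hj
      obtain ⟨i, hi, hne⟩ := (hC l m h).2
      have := congrFun e i
      rw [mix_of_not hi] at this
      exact hne this.symm
    · obtain ⟨i, hi, hne⟩ := (hC l j hj).1
      have := congrFun e i
      rw [mix_of_mem hi] at this
      exact hne this

/-- The leading form of the minor of the anchors and `q` further words. -/
theorem leading_c {k m q : ℕ} (hm : 2 ≤ m) (hk : k + 1 = r + q) {α : Fin r → (i : I) → D i}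
    {c : Fin r → ℂ} (hc : ∀ l, c l ≠ 0) (hinj : Function.Injective α) {C : Finset I}
    (hC : Sep α C) (w : Fin q → (i : I) → D i) (hw : ∀ s, Good α C (w s)) :
    (Matrix.of fun s t => (X (mix C (w s) (w t)) : MvPolynomial ((i : I) → D i) ℂ)).det
      ∈ FI k m D ⊔ (RingHom.ker (eval (ptc α c))) ^ (q + 1) := by
  have h := det_block_mem (RingHom.ker (eval (ptc α c))) (FI k m D)
    (Matrix.of fun l l' => (MvPolynomial.C (c l)⁻¹ * X (mix C (α l) (α l')) :
      MvPolynomial ((i : I) → D i) ℂ))
    (Matrix.of fun l t => (MvPolynomial.C (c l)⁻¹ * X (mix C (α l) (w t)) :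
      MvPolynomial ((i : I) → D i) ℂ))
    (Matrix.of fun s l => (X (mix C (w s) (α l)) : MvPolynomial ((i : I) → D i) ℂ))
    (Matrix.of fun s t => (X (mix C (w s) (w t)) : MvPolynomial ((i : I) → D i) ℂ))
    (by
      intro l l'
      rw [RingHom.mem_ker, Matrix.of_apply, map_sub, map_mul, eval_C, eval_X,
        ptc_mix_anchor hinj hC]
      by_cases h : l = l'
      · subst h
        rw [if_pos rfl, Matrix.one_apply_eq, map_one, inv_mul_cancel₀ (hc l), sub_self]
      · rw [if_neg h, Matrix.one_apply_ne h, map_zero, mul_zero, sub_zero])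
    (by
      intro l t
      rw [RingHom.mem_ker, Matrix.of_apply, map_mul, eval_X,
        ptc_zero fun j => (mix_ne_anchor (hw t) _ j).2, mul_zero])
    (by
      intro s l
      rw [RingHom.mem_ker, Matrix.of_apply, eval_X]
      exact ptc_zero fun j => (mix_ne_anchor (hw s) _ j).1)
    (by
      intro s t
      rw [RingHom.mem_ker, Matrix.of_apply, eval_X]
      exact ptc_zero fun j => (mix_ne_anchor (hw s) _ j).1)
    (by
      have := minor_mem (k := k) (m := m) hm hk C (Sum.elim α w) (Sum.elim α w)
      have h2 := Ideal.mul_mem_left _ (∏ s, Sum.elim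
        (fun l => (MvPolynomial.C (c l)⁻¹ : MvPolynomial ((i : I) → D i) ℂ))
        (fun _ : Fin q => 1) s) this
      rw [← Matrix.det_mul_column] at h2
      convert h2 using 2
      ext s t
      rcases s with s | s <;> rcases t with t | t <;>
        simp [Matrix.fromBlocks, Matrix.of_apply])
  rwa [Fintype.card_fin] at h

/-- The relation between monomials at the point `p`. -/
def RelP (k m : ℕ) (p : ((i : I) → D i) → ℂ) (P Q : Multiset ((i : I) → D i)) : Prop :=
  P.card = Q.card ∧ (P.map fun w => (X w - C (p w) : MvPolynomial ((i : I) → D i) ℂ)).prod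
    - (Q.map fun w => (X w - C (p w) : MvPolynomial ((i : I) → D i) ℂ)).prod
      ∈ FI k m D ⊔ (RingHom.ker (eval p)) ^ (P.card + 1)

theorem rel_con2 {k m : ℕ} (hm : 2 ≤ m) (hk : k = r + 1) {α : Fin r → (i : I) → D i}
    {c : Fin r → ℂ} (hc : ∀ l, c l ≠ 0) (hinj : Function.Injective α) :
    Con2 α (RelP k m (ptc α c)) where
  refl P := ⟨rfl, by rw [sub_self]; exact Ideal.zero_mem _⟩
  trans P Q S h1 h2 := by
    refine ⟨h1.1.trans h2.1, ?_⟩
    have h3 := h2.2
    rw [← h1.1] at h3
    have := Ideal.add_mem _ h1.2 h3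
    rwa [sub_add_sub_cancel] at this
  cons a P Q h := by
    refine ⟨by rw [Multiset.card_cons, Multiset.card_cons, h.1], ?_⟩
    rw [Multiset.map_cons, Multiset.map_cons, Multiset.prod_cons, Multiset.prod_cons,
      Multiset.card_cons, ← mul_sub]
    refine mul_mem_step ?_ h.2
    rw [RingHom.mem_ker, map_sub, eval_X, eval_C, sub_self]
  exch C w w' hC hw hw' := by
    refine ⟨by simp, ?_⟩
    have h := leading_c (k := k) (m := m) (q := 2) hm (by omega) hc hinj hC ![w, w'] (by
      intro s
      fin_cases s
      · exact hw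
      · exact hw')
    rw [Matrix.det_fin_two] at h
    have hself : ∀ u : (i : I) → D i, mix C u u = u := by
      intro u
      funext i
      unfold mix
      split_ifs <;> rfl
    have hgood : ∀ {u : (i : I) → D i}, Good α C u → ptc α c u = 0 := by
      intro u hu
      refine ptc_zero fun l e => ?_
      obtain ⟨a, ha, -⟩ := (hu l).1
      exact mem_nn.1 ha (congrFun e a)
    have h1 : ptc α c (mix C w' w) = 0 := ptc_zero fun l => (mix_ne_anchor hw' _ l).1
    have h2 : ptc α c (mix C w w') = 0 := ptc_zero fun l => (mix_ne_anchor hw _ l).1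
    simp only [Multiset.map_cons, Multiset.map_zero, Multiset.prod_cons, Multiset.prod_zero,
      Multiset.card_cons, Multiset.card_zero, hgood hw, hgood hw', h1, h2, map_zero, sub_zero,
      mul_one]
    simp only [Matrix.of_apply, Matrix.cons_val_zero, Matrix.cons_val_one, hself] at h
    have e : (X (mix C w' w) : MvPolynomial ((i : I) → D i) ℂ) * X (mix C w w')
        = X (mix C w w') * X (mix C w' w) := mul_comm _ _
    rw [e]
    exact h

end Pentad.Gen
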