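import Pool.Agent.H.MP_b77b2b_ag.helper16.LC7

/-!
# MP_b77b2b_ag, LC8: connectivity, anchors far apart
-/

set_option autoImplicit false

namespace Pentad.Gen

variable {I : Type} [Fintype I] [DecidableEq I] {D : I → Type} [∀ i, DecidableEq (D i)] {r : ℕ}
  {α : Fin r → (i : I) → D i}
  {R : Multiset ((i : I) → D i) → Multiset ((i : I) → D i) → Prop}

/-- Multisets of admissible words with equal columns (and equal size) are connected. -/
theorem connected2 (hR : Con2 α R) (hα : Far α) : ∀ (T P : Multiset ((i : I) → D i)),
    P.card = T.card → (∀ a ∈ P, Adm α a) → (∀ a ∈ T, Adm α a) →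
      (∀ i, P.map (fun w => w i) = T.map fun w => w i) → R P T := by
  classical
  intro T
  induction T using Multiset.induction_on with
  | empty =>
    intro P hc _ _ _
    rw [Multiset.card_zero, Multiset.card_eq_zero] at hc
    rw [hc]
    exact hR.refl _
  | cons t T ih =>
    intro P hc hP hT h
    -- reach a multiset containing `t`
    have reach : ∀ (n : ℕ) (w : (i : I) → D i) (Q : Multiset ((i : I) → D i)),
        Ok α R P (w ::ₘ Q) → (w ::ₘ Q).card = P.card → Fintype.card I - agr t w ≤ n →
          ∃ Q', Ok α R P (t ::ₘ Q') ∧ (t ::ₘ Q').card = P.card := by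
      intro n
      induction n with
      | zero =>
        intro w Q hok hcQ hn
        have : w = t := by
          have h1 : (Finset.univ.filter fun i => w i = t i) = Finset.univ := by
            refine Finset.eq_univ_of_card _ (le_antisymm (Finset.card_le_univ _) ?_)
            unfold agr at hn
            omega
          funext i
          have := Finset.mem_univ i
          rw [← h1, Finset.mem_filter] at this
          exact this.2
        subst this
        exact ⟨Q, hok, hcQ⟩
      | succ n ihn =>
        intro w Q hok hcQ hn
        by_cases hwt : w = t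
        · subst hwt
          exact ⟨Q, hok, hcQ⟩
        · obtain ⟨w2, Q2, hok2, hag⟩ := improve2 hR hα hok.2.1 hT
            (fun i => (hok.2.2 i).trans (h i)) hwt
          have hle : agr t w2 ≤ Fintype.card I := by
            unfold agr
            exact Finset.card_le_univ _
          refine ihn w2 Q2 (hok.trans2 hR hok2) ?_ (by omega)
          obtain ⟨i, -⟩ : ∃ i, w i ≠ t i := by
            by_contra hcon
            push Not at hcon
            exact hwt (funext hcon)
          have := congrArg Multiset.card (hok2.2.2 i)
          rw [Multiset.card_map, Multiset.card_map] at this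
          exact this.trans hcQ
    have hne : P ≠ 0 := by
      rintro rfl
      rw [Multiset.card_zero, Multiset.card_cons] at hc
      omega
    obtain ⟨w, hw⟩ := Multiset.exists_mem_of_ne_zero hne
    obtain ⟨Q, rfl⟩ := Multiset.exists_cons_of_mem hw
    obtain ⟨Q', hok, hcQ'⟩ := reach _ w Q ⟨hR.refl _, hP, fun _ => rfl⟩ rfl le_rfl
    refine hR.trans _ _ _ hok.1 (hR.cons _ _ _ (ih Q' ?_ ?_ ?_ ?_))
    · rw [Multiset.card_cons] at hcQ' hc
      rw [Multiset.card_cons] at hcQ' hc
      omega
    · exact fun a ha => hok.2.1 a (Multiset.mem_cons_of_mem ha)
    · exact fun a ha => hT a (Multiset.mem_cons_of_mem ha)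
    · intro i
      have := (hok.2.2 i).trans (h i)
      rw [Multiset.map_cons, Multiset.map_cons] at this
      exact (Multiset.cons_inj_right _).1 this

end Pentad.Gen
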