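import Pool.Agent.H.MP_b77b2b_ag.helper16.LA3
import Pool.Agent.H.MP_b77b2b_ag.helper16.LC8

/-!
# MP_b77b2b_ag, LA4: equality near a weighted sum of anchors far apart
-/

set_option autoImplicit false

namespace Pentad.Gen

open MvPolynomial

variable {I : Type} [Fintype I] [DecidableEq I] {D : I → Type} [∀ i, DecidableEq (D i)] {r : ℕ}

theorem far_of_near2 {α : Fin r → (i : I) → D i} (hα : Far α) (w : (i : I) → D i)
    (l m : Fin r) (hl : (nn α l w).card ≤ 1) (hm : m ≠ l) : 2 ≤ (nn α m w).card := by
  have hb := big_pos r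
  have := light hα hm (w := w) (l := l) (by omega)
  omega

theorem far_inj {α : Fin r → (i : I) → D i} (hα : Far α) : Function.Injective α := by
  intro l m h
  by_contra hlm
  have h1 := hα l m hlm
  have h2 : dd α l m = ∅ := by
    ext i
    rw [mem_dd, h]
    simp
  rw [h2, Finset.card_empty] at h1
  have := big_pos r
  omega

/-- An admissible word can be split. -/
theorem splitWord {α : Fin r → (i : I) → D i} (hα : Far α) {w : (i : I) → D i}
    (hw : Adm α w) : ∃ Z, Sep α Z ∧ Good α Z w := by
  classical
  have key : ∀ (P : Finset I) (f : I → Fin 3), P.card ≤ 8 →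
      (∀ l, (nn α l w).card < big r → (∃ i ∈ nn α l w, i ∈ P ∧ f i = 0) ∧
        ∃ i ∈ nn α l w, i ∈ P ∧ f i = 1) → ∃ Z, Sep α Z ∧ Good α Z w := by
    intro P f hP hl
    obtain ⟨g, g1, g2, -, g4⟩ := pal hα w w P hP f
    refine ⟨Finset.univ.filter fun i => g i = 0, ?_, ?_⟩
    · intro l m hlm
      obtain ⟨a, ha, -, ha2⟩ := g4 l m hlm 0
      obtain ⟨b, hb, -, hb2⟩ := g4 l m hlm 1
      refine ⟨⟨a, by simp [ha2], mem_dd.1 ha⟩, b, ?_, mem_dd.1 hb⟩
      rw [Finset.mem_filter, hb2]
      exact fun h => absurd h.2 (by decide)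
    · intro l
      rcases Nat.lt_or_ge (nn α l w).card (big r) with h | h
      · obtain ⟨⟨a, ha, ha1, ha2⟩, b, hb, hb1, hb2⟩ := hl l h
        refine ⟨⟨a, ha, ?_⟩, b, hb, ?_⟩
        · rw [Finset.mem_filter, g1 a ha1]
          exact ⟨Finset.mem_univ _, ha2⟩
        · rw [Finset.mem_filter, g1 b hb1, hb2]
          exact fun h => absurd h.2 (by decide)
      · obtain ⟨a, ha, -, ha2⟩ := g2 l h 0
        obtain ⟨b, hb, -, hb2⟩ := g2 l h 1
        refine ⟨⟨a, ha, by simp [ha2]⟩, b, hb, ?_⟩
        rw [Finset.mem_filter, hb2]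
        exact fun h => absurd h.2 (by decide)
  by_cases hlight : ∃ l, (nn α l w).card < big r
  · obtain ⟨l, hl⟩ := hlight
    obtain ⟨a, ha, b, hb, hab⟩ := Finset.one_lt_card.1 (hw l)
    refine key {a, b} (fun i => if i = a then 0 else 1)
      (Finset.card_le_two.trans (by norm_num)) ?_
    intro l' hl'
    have : l' = l := by
      by_contra h
      have := light hα h hl
      omega
    subst this
    exact ⟨⟨a, ha, by simp, by simp⟩, b, hb, by simp, by simp [Ne.symm hab]⟩
  · push Not at hlight
    exact key ∅ (fun _ => 0) (by simp) fun l hl => absurd hl (not_lt.2 (hlight l))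

/-- Equality near a weighted sum of anchors far apart. -/
theorem local_at_c {k m : ℕ} (hm : 2 ≤ m) (hr : k ≤ r + 1) [hne : Nonempty I]
    [∀ i, Finite (D i)] {α : Fin r → (i : I) → D i} (hα : Far α) {c : Fin r → ℂ}
    (hc : ∀ l, c l ≠ 0) :
    ∃ h : MvPolynomial ((i : I) → D i) ℂ, eval (ptc α c) h ≠ 0 ∧
      ∀ f, VI k f → h * f ∈ FI k m D := by
  classical
  obtain ⟨i0⟩ := id hne
  have hinj := far_inj hα
  rcases Nat.lt_or_ge k r with hk | hk
  · -- more anchors than `k`: a minor is a unit at the point
    obtain ⟨g, -, -, -, g4⟩ := pal hα (α ⟨0, by omega⟩) (α ⟨0, by omega⟩) ∅ (by simp) fun _ => 0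
    set Z : Finset I := Finset.univ.filter fun i => g i = 0 with hZ
    have hsep : Sep α Z := by
      intro l m hlm
      obtain ⟨a, ha, -, ha2⟩ := g4 l m hlm 0
      obtain ⟨b, hb, -, hb2⟩ := g4 l m hlm 1
      refine ⟨⟨a, by simp [hZ, ha2], mem_dd.1 ha⟩, b, ?_, mem_dd.1 hb⟩
      rw [hZ, Finset.mem_filter, hb2]
      exact fun h => absurd h.2 (by decide)
    let x : Fin (k + 1) → (i : I) → D i := fun s => α (Fin.castLE hk s)
    refine ⟨(Matrix.of fun s t => (X (mix Z (x s) (x t)) :
      MvPolynomial ((i : I) → D i) ℂ)).det, ?_, fun f _ => Ideal.mul_mem_right _ _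
      (minor_mem_FI hm Z x x)⟩
    rw [RingHom.map_det]
    have : (eval (ptc α c)).mapMatrix (Matrix.of fun s t => (X (mix Z (x s) (x t)) :
        MvPolynomial ((i : I) → D i) ℂ)) = Matrix.diagonal fun s => c (Fin.castLE hk s) := by
      ext s t
      rw [RingHom.mapMatrix_apply, Matrix.map_apply, Matrix.of_apply, eval_X,
        ptc_mix_anchor hinj hsep, Matrix.diagonal_apply]
      by_cases hst : s = t
      · subst hst
        rw [if_pos rfl, if_pos rfl]
      · rw [if_neg hst, if_neg]
        exact fun h => hst (Fin.castLE_injective hk h)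
    rw [this, Matrix.det_diagonal]
    exact Finset.prod_ne_zero_iff.2 fun s _ => hc _
  rcases Nat.lt_or_ge r k with hk' | hk'
  · -- the singular stratum
    have hkr : k = r + 1 := by omega
    subst hkr
    have hconn := connected2 (rel_con2 (k := r + 1) (m := m) hm rfl hc hinj) hα
    have hstep := order_step (F := FI (r + 1) m D) (J := idVI (r + 1) D) (FI_le_VI _ _ _)
      (p := ptc α c) (by
        intro j f hf hj
        refine toric_mem_p (fun m1 m2 hd h12 => same_key_p
          (fun P T h0 h1 h2 h3 => hconn T P h0 h1 h2 h3) hd h12)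
          (homogeneousComponent_isHomogeneous _ _) (Psi_eq_zero ?_)
        intro y q
        obtain ⟨a, ha⟩ := velocity_c hc (far_of_near2 hα) (fun w => ∏ i, q i (w i)) y
        have h := lead_zero_c (α := α) (c := c) (f := f) (fun w => ∏ i, q i (w i)) (by
          intro a t
          refine Eq.trans ?_ (hf (Fin.snoc (α := fun _ => (i : I) → D i → ℂ)
            (fun (l : Fin r) (i : I) (b : D i) => (if i = i0 then c l else 1)
              * ((if b = α l i then 1 else 0) + t * a l i b))
            (fun (i : I) (b : D i) => (if i = i0 then t else 1) * q i b)))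
          congr 2
          funext w
          rw [Fin.sum_univ_castSucc]
          congr 1
          · refine Finset.sum_congr rfl fun l _ => ?_
            rw [Fin.snoc_castSucc, Finset.prod_mul_distrib, Finset.prod_ite_eq' Finset.univ i0,
              if_pos (Finset.mem_univ i0)]
          · rw [Fin.snoc_last, Finset.prod_mul_distrib, Finset.prod_ite_eq' Finset.univ i0,
              if_pos (Finset.mem_univ i0)]) hj a
        have e : (fun w => (∑ l, c l * (cu (α l) (a l) w).divX.eval 0) + ∏ i, q i (w i))
            = fun w => if Adm α w then ∏ i, q i (w i) else y w := funext fun w => ha w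
        rw [e] at h
        exact h)
    obtain ⟨h, h1, h2⟩ := krull (FI (r + 1) m D) (idVI (r + 1) D) (ptc α c) hstep
    exact ⟨h, h1, fun f hf => h2 f hf⟩
  · -- the smooth stratum
    have hkr : k = r := le_antisymm hk' hk
    subst hkr
    have hz : ∀ w : (i : I) → D i, Adm α w →
        (X w - C (ptc α c w) : MvPolynomial ((i : I) → D i) ℂ)
          ∈ FI k m D ⊔ (RingHom.ker (eval (ptc α c))) ^ 2 := by
      intro w hw
      obtain ⟨Z, hsep, hgood⟩ := splitWord hα hw
      have h := leading_c (k := k) (m := m) (q := 1) hm rfl hc hinj hsep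
        (fun _ => w) (fun _ => hgood)
      rw [Matrix.det_unique] at h
      have hself : mix Z w w = w := by
        funext i
        unfold mix
        split_ifs <;> rfl
      have hpw : ptc α c w = 0 := ptc_zero fun l e => by
        obtain ⟨a, ha, -⟩ := (hgood l).1
        exact mem_nn.1 ha (congrFun e a)
      rw [hpw, map_zero, sub_zero]
      rw [Matrix.of_apply, hself] at h
      exact h
    have hstep := order_step (F := FI k m D) (J := idVI k D) (FI_le_VI _ _ _)
      (p := ptc α c) (by
        intro j f hf hj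
        refine linear_mem_p hz (homogeneousComponent_isHomogeneous _ _) ?_
        intro y
        obtain ⟨a, ha⟩ := velocity_c hc (far_of_near2 hα) (fun _ => 0) y
        have h := lead_zero_c (α := α) (c := c) (f := f) (fun _ => 0) (by
          intro a t
          refine Eq.trans ?_ (hf (fun (l : Fin k) (i : I) (b : D i) =>
            (if i = i0 then c l else 1) * ((if b = α l i then 1 else 0) + t * a l i b)))
          congr 2
          funext w
          rw [mul_zero, add_zero]
          refine Finset.sum_congr rfl fun l _ => ?_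
          rw [Finset.prod_mul_distrib, Finset.prod_ite_eq' Finset.univ i0,
            if_pos (Finset.mem_univ i0)]) hj a
        have e : (fun w => (∑ l, c l * (cu (α l) (a l) w).divX.eval 0) + (0 : ℂ))
            = fun w => if Adm α w then 0 else y w := funext fun w => ha w
        rw [e] at h
        exact h)
    obtain ⟨h, h1, h2⟩ := krull (FI k m D) (idVI k D) (ptc α c) hstep
    exact ⟨h, h1, fun f hf => h2 f hf⟩

end Pentad.Gen
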