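import Pool.Agent.H.MP_b77b2b_ag.helper16.GA2
import Pool.Agent.H.MP_b77b2b_ag.helper16.GC4

/-!
# MP_b77b2b_ag, LC0: anchors far apart, definitions
-/

set_option autoImplicit false

namespace Pentad.Gen

variable {I : Type} [Fintype I] [DecidableEq I] {D : I → Type} [∀ i, DecidableEq (D i)] {r : ℕ}

/-- The columns where two anchors differ. -/
def dd (α : Fin r → (i : I) → D i) (l m : Fin r) : Finset I :=
  Finset.univ.filter fun i => α l i ≠ α m i

theorem mem_dd {α : Fin r → (i : I) → D i} {l m : Fin r} {i : I} :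
    i ∈ dd α l m ↔ α l i ≠ α m i := by
  simp [dd]

/-- The size from which a set of columns counts as large. -/
def big (r : ℕ) : ℕ := 3 * (2 * r + r * r) + 8

/-- Any two anchors differ in many columns. -/
def Far (α : Fin r → (i : I) → D i) : Prop := ∀ l m, l ≠ m → 2 * big r ≤ (dd α l m).card

/-- Relations between multisets of words containing the allowed exchanges. -/
structure Con2 (α : Fin r → (i : I) → D i)
    (R : Multiset ((i : I) → D i) → Multiset ((i : I) → D i) → Prop) : Prop where
  refl : ∀ P, R P P
  trans : ∀ P Q S, R P Q → R Q S → R P S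
  cons : ∀ a P Q, R P Q → R (a ::ₘ P) (a ::ₘ Q)
  exch : ∀ (C : Finset I) (w w' : (i : I) → D i), Sep α C → Good α C w → Good α C w' →
    R (w ::ₘ w' ::ₘ 0) (mix C w' w ::ₘ mix C w w' ::ₘ 0)

section

variable {α : Fin r → (i : I) → D i}
  {R : Multiset ((i : I) → D i) → Multiset ((i : I) → D i) → Prop}

theorem Con2.ex (hR : Con2 α R) (C : Finset I) {w w' : (i : I) → D i} (hs : Sep α C)
    (h : Good α C w) (h' : Good α C w') (S : Multiset ((i : I) → D i)) :
    R (w ::ₘ w' ::ₘ S) (mix C w' w ::ₘ mix C w w' ::ₘ S) := by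
  induction S using Multiset.induction_on with
  | empty => exact hR.exch C w w' hs h h'
  | cons a S ih =>
    have := hR.cons a _ _ ih
    rw [Multiset.cons_swap a w, Multiset.cons_swap a w', Multiset.cons_swap a (mix C w' w),
      Multiset.cons_swap a (mix C w w')] at this
    exact this

/-- A word close to one anchor is far from the others. -/
theorem light (hα : Far α) {w : (i : I) → D i} {l m : Fin r} (hlm : m ≠ l)
    (h : (nn α l w).card < big r) : big r < (nn α m w).card := by
  have hsub : dd α m l ⊆ nn α m w ∪ nn α l w := by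
    intro i hi
    rw [mem_dd] at hi
    rw [Finset.mem_union, mem_nn, mem_nn]
    by_contra hc
    rw [not_or, not_not, not_not] at hc
    exact hi (hc.1.symm.trans hc.2)
  have h1 := (Finset.card_le_card hsub).trans (Finset.card_union_le _ _)
  have h2 := hα m l hlm
  omega

theorem Ok.trans2 (hR : Con2 α R) {P Q S : Multiset ((i : I) → D i)} (h1 : Ok α R P Q)
    (h2 : Ok α R Q S) : Ok α R P S :=
  ⟨hR.trans _ _ _ h1.1 h2.1, h2.2.1, fun i => (h2.2.2 i).trans (h1.2.2 i)⟩

end

end Pentad.Gen
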