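import Pool.Agent.H.MP_b77b2b_ag.helper16.LC0

/-!
# MP_b77b2b_ag, LC1: a colouring of the columns
-/

set_option autoImplicit false

namespace Pentad.Gen

/-- A colouring which takes all colours on each of the given sets, outside of `P`. -/
theorem coloring {ι I : Type} [Fintype ι] [DecidableEq I] {q : ℕ} (S : ι → Finset I)
    (P : Finset I) (f : I → Fin q) (h : ∀ x, Fintype.card ι * q + P.card ≤ (S x).card) :
    ∃ g : I → Fin q, (∀ i ∈ P, g i = f i) ∧ ∀ x c, ∃ i ∈ S x, i ∉ P ∧ g i = c := by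
  classical
  have hc : ∀ x, Fintype.card ι * q ≤ (S x \ P).card := by
    intro x
    have h1 := Finset.le_card_sdiff P (S x)
    have h2 := h x
    omega
  obtain ⟨f', hinj, hf'⟩ := (Finset.all_card_le_biUnion_card_iff_exists_injective
    (fun y : ι × Fin q => S y.1 \ P)).1 (by
      intro s
      rcases s.eq_empty_or_nonempty with hs | ⟨y, hy⟩
      · rw [hs]
        simp
      · calc s.card ≤ Fintype.card (ι × Fin q) := Finset.card_le_univ s
          _ = Fintype.card ι * q := by rw [Fintype.card_prod, Fintype.card_fin]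
          _ ≤ (S y.1 \ P).card := hc y.1
          _ ≤ _ := Finset.card_le_card
            (Finset.subset_biUnion_of_mem (fun y : ι × Fin q => S y.1 \ P) hy))
  refine ⟨fun i => if i ∈ P then f i else if h : ∃ y, f' y = i then h.choose.2 else f i, ?_, ?_⟩
  · intro i hi
    simp [hi]
  · intro x c
    have h1 := Finset.mem_sdiff.1 (hf' (x, c))
    refine ⟨f' (x, c), h1.1, h1.2, ?_⟩
    have h2 : ∃ y, f' y = f' (x, c) := ⟨_, rfl⟩
    dsimp only
    rw [if_neg h1.2, dif_pos h2, hinj h2.choose_spec]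

variable {I : Type} [Fintype I] [DecidableEq I] {D : I → Type} [∀ i, DecidableEq (D i)] {r : ℕ}

/-- A colouring in three colours of the columns which takes all colours on all large sets of columns
given by the anchors. -/
theorem pal {α : Fin r → (i : I) → D i} (hα : Far α) (w w' : (i : I) → D i) (P : Finset I)
    (hP : P.card ≤ 8) (f : I → Fin 3) :
    ∃ g : I → Fin 3, (∀ i ∈ P, g i = f i) ∧
      (∀ l, big r ≤ (nn α l w).card → ∀ c, ∃ i ∈ nn α l w, i ∉ P ∧ g i = c) ∧
      (∀ l, big r ≤ (nn α l w').card → ∀ c, ∃ i ∈ nn α l w', i ∉ P ∧ g i = c) ∧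
      ∀ l m, l ≠ m → ∀ c, ∃ i ∈ dd α l m, i ∉ P ∧ g i = c := by
  classical
  let T : Fin r ⊕ Fin r ⊕ (Fin r × Fin r) → Finset I :=
    Sum.elim (fun l => nn α l w) (Sum.elim (fun l => nn α l w') fun y => dd α y.1 y.2)
  obtain ⟨g, hg, hg'⟩ := coloring (ι := {x // big r ≤ (T x).card}) (fun x => T x.1) P f (by
    intro x
    have h1 : Fintype.card {x // big r ≤ (T x).card} ≤
        Fintype.card (Fin r ⊕ Fin r ⊕ (Fin r × Fin r)) := Fintype.card_subtype_le _
    simp only [Fintype.card_sum, Fintype.card_prod, Fintype.card_fin] at h1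
    have h2 := x.2
    unfold big at h2
    omega)
  refine ⟨g, hg, fun l hl c => hg' ⟨Sum.inl l, hl⟩ c, fun l hl c => hg' ⟨Sum.inr (Sum.inl l), hl⟩ c,
    fun l m hlm c => hg' ⟨Sum.inr (Sum.inr (l, m)), ?_⟩ c⟩
  have h1 := hα l m hlm
  show big r ≤ (dd α l m).card
  omega

end Pentad.Gen
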