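import Pool.Agent.H.MP_b77b2b_ag.helper16.LC0

/-!
# MP_b77b2b_ag, LC2: net exchanges by two or three separated exchanges
-/

set_option autoImplicit false

namespace Pentad.Gen

variable {I : Type} [Fintype I] [DecidableEq I] {D : I → Type} [∀ i, DecidableEq (D i)] {r : ℕ}
  {α : Fin r → (i : I) → D i}
  {R : Multiset ((i : I) → D i) → Multiset ((i : I) → D i) → Prop}

/-- A net exchange by two exchanges. -/
theorem Con2.two (hR : Con2 α R) (X : Finset I) (g : I → Fin 3) {w w' : (i : I) → D i}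
    (h : ∀ l, (∃ a ∈ nn α l w, a ∉ X ∧ g a = 0) ∧ (∃ a ∈ nn α l w, a ∉ X ∧ g a = 1) ∧
      (∃ a ∈ nn α l w', a ∉ X ∧ g a = 0) ∧ ∃ a ∈ nn α l w', a ∉ X ∧ g a = 1)
    (hs : ∀ l m, l ≠ m → ∀ c : Fin 3, ∃ a ∈ dd α l m, a ∉ X ∧ g a = c)
    (S : Multiset ((i : I) → D i)) :
    R (w ::ₘ w' ::ₘ S) (mix X w' w ::ₘ mix X w w' ::ₘ S) := by
  classical
  set C1 : Finset I := Finset.univ.filter fun a => a ∈ X ∨ g a = 0 with hC1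
  set C2 : Finset I := Finset.univ.filter fun a => a ∉ X ∧ g a = 0 with hC2
  have m1 : ∀ a, a ∈ C1 ↔ a ∈ X ∨ g a = 0 := fun a => by rw [hC1]; simp
  have m2 : ∀ a, a ∈ C2 ↔ a ∉ X ∧ g a = 0 := fun a => by rw [hC2]; simp
  have s1 : Sep α C1 := by
    intro l m hlm
    obtain ⟨a, ha, -, ha2⟩ := hs l m hlm 0
    obtain ⟨b, hb, hb1, hb2⟩ := hs l m hlm 1
    refine ⟨⟨a, (m1 a).2 (Or.inr ha2), mem_dd.1 ha⟩, b, ?_, mem_dd.1 hb⟩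
    rw [m1, not_or, hb2]
    exact ⟨hb1, by decide⟩
  have s2 : Sep α C2 := by
    intro l m hlm
    obtain ⟨a, ha, ha1, ha2⟩ := hs l m hlm 0
    obtain ⟨b, hb, hb1, hb2⟩ := hs l m hlm 1
    refine ⟨⟨a, (m2 a).2 ⟨ha1, ha2⟩, mem_dd.1 ha⟩, b, ?_, mem_dd.1 hb⟩
    rw [m2, hb2]
    exact fun h => absurd h.2 (by decide)
  have g1 : ∀ {u : (i : I) → D i}, (∀ l, (∃ a ∈ nn α l u, a ∉ X ∧ g a = 0) ∧
      ∃ a ∈ nn α l u, a ∉ X ∧ g a = 1) → Good α C1 u := by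
    intro u hu l
    obtain ⟨⟨a, ha, -, ha2⟩, b, hb, hb1, hb2⟩ := hu l
    refine ⟨⟨a, ha, (m1 a).2 (Or.inr ha2)⟩, b, hb, ?_⟩
    rw [m1, not_or, hb2]
    exact ⟨hb1, by decide⟩
  have g2 : ∀ {u u' : (i : I) → D i}, (∀ l, (∃ a ∈ nn α l u, a ∉ X ∧ g a = 0) ∧
      ∃ a ∈ nn α l u, a ∉ X ∧ g a = 1) → (∀ l, (∃ a ∈ nn α l u', a ∉ X ∧ g a = 0) ∧
      ∃ a ∈ nn α l u', a ∉ X ∧ g a = 1) → Good α C2 (mix C1 u' u) := by
    intro u u' hu hu' l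
    obtain ⟨-, b, hb, hb1, hb2⟩ := hu l
    obtain ⟨⟨a, ha, ha1, ha2⟩, -⟩ := hu' l
    refine ⟨⟨a, ?_, (m2 a).2 ⟨ha1, ha2⟩⟩, b, ?_, ?_⟩
    · rw [mem_nn, mix_of_mem ((m1 a).2 (Or.inr ha2))]
      exact mem_nn.1 ha
    · rw [mem_nn, mix_of_not (by rw [m1, not_or, hb2]; exact ⟨hb1, by decide⟩)]
      exact mem_nn.1 hb
    · rw [m2, hb2]
      exact fun h => absurd h.2 (by decide)
  have hw : ∀ l, (∃ a ∈ nn α l w, a ∉ X ∧ g a = 0) ∧ ∃ a ∈ nn α l w, a ∉ X ∧ g a = 1 :=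
    fun l => ⟨(h l).1, (h l).2.1⟩
  have hw' : ∀ l, (∃ a ∈ nn α l w', a ∉ X ∧ g a = 0) ∧ ∃ a ∈ nn α l w', a ∉ X ∧ g a = 1 :=
    fun l => ⟨(h l).2.2.1, (h l).2.2.2⟩
  refine hR.trans _ _ _ (hR.ex C1 s1 (g1 hw) (g1 hw') S) ?_
  have := hR.ex C2 s2 (g2 hw hw') (g2 hw' hw) S
  have e : ∀ u u' : (i : I) → D i, mix C2 (mix C1 u u') (mix C1 u' u) = mix X u' u := by
    intro u u'
    funext a
    by_cases haX : a ∈ X
    · rw [mix_of_not (by rw [m2]; exact fun h => h.1 haX), mix_of_mem ((m1 a).2 (Or.inl haX)),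
        mix_of_mem haX]
    · rw [mix_of_not haX]
      by_cases ha : g a = 0
      · rw [mix_of_mem ((m2 a).2 ⟨haX, ha⟩), mix_of_mem ((m1 a).2 (Or.inr ha))]
      · rw [mix_of_not (by rw [m2]; exact fun h => ha h.2),
          mix_of_not (by rw [m1, not_or]; exact ⟨haX, ha⟩)]
  rw [e, e] at this
  exact this

/-- A net exchange by three exchanges. -/
theorem Con2.three (hR : Con2 α R) (X : Finset I) (g : I → Fin 3) {w w' : (i : I) → D i}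
    (c1 : ∀ l, (∃ a ∈ nn α l w, a ∈ X ∨ g a = 0) ∧ ∃ a ∈ nn α l w', a ∈ X ∨ g a = 0)
    (c2 : ∀ l, ((∃ a ∈ nn α l w', a ∈ X) ∨ ∃ a ∈ nn α l w, a ∉ X ∧ g a = 1) ∧
      ((∃ a ∈ nn α l w, a ∈ X) ∨ ∃ a ∈ nn α l w', a ∉ X ∧ g a = 1))
    (c3 : ∀ l, (∃ a ∈ nn α l w, a ∉ X ∧ g a = 2) ∧ ∃ a ∈ nn α l w', a ∉ X ∧ g a = 2)
    (hs : ∀ l m, l ≠ m → ∀ c : Fin 3, ∃ a ∈ dd α l m, a ∉ X ∧ g a = c)
    (S : Multiset ((i : I) → D i)) :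
    R (w ::ₘ w' ::ₘ S) (mix X w' w ::ₘ mix X w w' ::ₘ S) := by
  classical
  set C1 : Finset I := Finset.univ.filter fun a => a ∈ X ∨ g a = 0 with hC1
  set C2 : Finset I := Finset.univ.filter fun a => a ∈ X ∨ g a = 1 with hC2
  set C3 : Finset I := Finset.univ.filter fun a => a ∈ X ∨ g a = 0 ∨ g a = 1 with hC3
  have m1 : ∀ a, a ∈ C1 ↔ a ∈ X ∨ g a = 0 := fun a => by rw [hC1]; simp
  have m2 : ∀ a, a ∈ C2 ↔ a ∈ X ∨ g a = 1 := fun a => by rw [hC2]; simp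
  have m3 : ∀ a, a ∈ C3 ↔ a ∈ X ∨ g a = 0 ∨ g a = 1 := fun a => by rw [hC3]; simp
  have n1 : ∀ a, a ∉ X → g a = 1 → a ∉ C1 := fun a h1 h2 => by
    rw [m1, not_or, h2]
    exact ⟨h1, by decide⟩
  have n1' : ∀ a, a ∉ X → g a = 2 → a ∉ C1 := fun a h1 h2 => by
    rw [m1, not_or, h2]
    exact ⟨h1, by decide⟩
  have n2 : ∀ a, a ∉ X → g a = 0 → a ∉ C2 := fun a h1 h2 => by
    rw [m2, not_or, h2]
    exact ⟨h1, by decide⟩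
  have n2' : ∀ a, a ∉ X → g a = 2 → a ∉ C2 := fun a h1 h2 => by
    rw [m2, not_or, h2]
    exact ⟨h1, by decide⟩
  have n3 : ∀ a, a ∉ X → g a = 2 → a ∉ C3 := fun a h1 h2 => by
    rw [m3, not_or, not_or, h2]
    exact ⟨h1, by decide, by decide⟩
  have s1 : Sep α C1 := by
    intro l m hlm
    obtain ⟨a, ha, -, ha2⟩ := hs l m hlm 0
    obtain ⟨b, hb, hb1, hb2⟩ := hs l m hlm 1
    exact ⟨⟨a, (m1 a).2 (Or.inr ha2), mem_dd.1 ha⟩, b, n1 b hb1 hb2, mem_dd.1 hb⟩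
  have s2 : Sep α C2 := by
    intro l m hlm
    obtain ⟨a, ha, -, ha2⟩ := hs l m hlm 1
    obtain ⟨b, hb, hb1, hb2⟩ := hs l m hlm 0
    exact ⟨⟨a, (m2 a).2 (Or.inr ha2), mem_dd.1 ha⟩, b, n2 b hb1 hb2, mem_dd.1 hb⟩
  have s3 : Sep α C3 := by
    intro l m hlm
    obtain ⟨a, ha, -, ha2⟩ := hs l m hlm 1
    obtain ⟨b, hb, hb1, hb2⟩ := hs l m hlm 2
    exact ⟨⟨a, (m3 a).2 (Or.inr (Or.inr ha2)), mem_dd.1 ha⟩, b, n3 b hb1 hb2, mem_dd.1 hb⟩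
  have g1 : ∀ {u : (i : I) → D i}, (∀ l, ∃ a ∈ nn α l u, a ∈ X ∨ g a = 0) →
      (∀ l, ∃ a ∈ nn α l u, a ∉ X ∧ g a = 2) → Good α C1 u := by
    intro u k1 k3 l
    obtain ⟨a, ha, ha1⟩ := k1 l
    obtain ⟨b, hb, hb1, hb2⟩ := k3 l
    exact ⟨⟨a, ha, (m1 a).2 ha1⟩, b, hb, n1' b hb1 hb2⟩
  have g2 : ∀ {u u' : (i : I) → D i},
      (∀ l, (∃ a ∈ nn α l u', a ∈ X) ∨ ∃ a ∈ nn α l u, a ∉ X ∧ g a = 1) →
      (∀ l, ∃ a ∈ nn α l u, a ∉ X ∧ g a = 2) → Good α C2 (mix C1 u' u) := by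
    intro u u' k2 k3 l
    obtain ⟨b, hb, hb1, hb2⟩ := k3 l
    refine ⟨?_, b, ?_, n2' b hb1 hb2⟩
    · rcases k2 l with ⟨a, ha, haX⟩ | ⟨a, ha, ha1, ha2⟩
      · refine ⟨a, ?_, (m2 a).2 (Or.inl haX)⟩
        rw [mem_nn, mix_of_mem ((m1 a).2 (Or.inl haX))]
        exact mem_nn.1 ha
      · refine ⟨a, ?_, (m2 a).2 (Or.inr ha2)⟩
        rw [mem_nn, mix_of_not (n1 a ha1 ha2)]
        exact mem_nn.1 ha
    · rw [mem_nn, mix_of_not (n1' b hb1 hb2)]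
      exact mem_nn.1 hb
  have g3 : ∀ {u u' : (i : I) → D i},
      (∀ l, (∃ a ∈ nn α l u, a ∈ X) ∨ ∃ a ∈ nn α l u', a ∉ X ∧ g a = 1) →
      (∀ l, ∃ a ∈ nn α l u, a ∉ X ∧ g a = 2) →
      Good α C3 (mix C2 (mix C1 u u') (mix C1 u' u)) := by
    intro u u' k2 k3 l
    obtain ⟨b, hb, hb1, hb2⟩ := k3 l
    refine ⟨?_, b, ?_, n3 b hb1 hb2⟩
    · rcases k2 l with ⟨a, ha, haX⟩ | ⟨a, ha, ha1, ha2⟩
      · refine ⟨a, ?_, (m3 a).2 (Or.inl haX)⟩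
        rw [mem_nn, mix_of_mem ((m2 a).2 (Or.inl haX)), mix_of_mem ((m1 a).2 (Or.inl haX))]
        exact mem_nn.1 ha
      · refine ⟨a, ?_, (m3 a).2 (Or.inr (Or.inr ha2))⟩
        rw [mem_nn, mix_of_mem ((m2 a).2 (Or.inr ha2)), mix_of_not (n1 a ha1 ha2)]
        exact mem_nn.1 ha
    · rw [mem_nn, mix_of_not (n2' b hb1 hb2), mix_of_not (n1' b hb1 hb2)]
      exact mem_nn.1 hb
  refine hR.trans _ _ _ (hR.ex C1 s1 (g1 (fun l => (c1 l).1) fun l => (c3 l).1)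
    (g1 (fun l => (c1 l).2) fun l => (c3 l).2) S) ?_
  refine hR.trans _ _ _ (hR.ex C2 s2 (g2 (fun l => (c2 l).1) fun l => (c3 l).1)
    (g2 (fun l => (c2 l).2) fun l => (c3 l).2) S) ?_
  have := hR.ex C3 s3 (g3 (fun l => (c2 l).2) fun l => (c3 l).1)
    (g3 (fun l => (c2 l).1) fun l => (c3 l).2) S
  have e : ∀ u u' : (i : I) → D i,
      mix C3 (mix C2 (mix C1 u' u) (mix C1 u u')) (mix C2 (mix C1 u u') (mix C1 u' u))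
        = mix X u' u := by
    intro u u'
    funext a
    by_cases haX : a ∈ X
    · rw [mix_of_mem ((m3 a).2 (Or.inl haX)), mix_of_mem ((m2 a).2 (Or.inl haX)),
        mix_of_mem ((m1 a).2 (Or.inl haX)), mix_of_mem haX]
    · rw [mix_of_not haX]
      have h3 : ∀ c : Fin 3, c = 0 ∨ c = 1 ∨ c = 2 := by decide
      rcases h3 (g a) with h | h | h
      · rw [mix_of_mem ((m3 a).2 (Or.inr (Or.inl h))), mix_of_not (n2 a haX h),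
          mix_of_mem ((m1 a).2 (Or.inr h))]
      · rw [mix_of_mem ((m3 a).2 (Or.inr (Or.inr h))), mix_of_mem ((m2 a).2 (Or.inr h)),
          mix_of_not (n1 a haX h)]
      · rw [mix_of_not (n3 a haX h), mix_of_not (n2' a haX h), mix_of_not (n1' a haX h)]
  rw [e, e] at this
  exact this

end Pentad.Gen
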