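import Pool.Agent.H.MP_b77b2b_ag.helper16.LC1
import Pool.Agent.H.MP_b77b2b_ag.helper16.LC2

/-!
# MP_b77b2b_ag, LC3: exchanging one column between two words
-/

set_option autoImplicit false

namespace Pentad.Gen

variable {I : Type} [Fintype I] [DecidableEq I] {D : I → Type} [∀ i, DecidableEq (D i)] {r : ℕ}
variable {α : Fin r → (i : I) → D i}
  {R : Multiset ((i : I) → D i) → Multiset ((i : I) → D i) → Prop}

theorem LC3_mix (i : I) (w w' : (i : I) → D i) : mix {i} w' w = Function.update w i (w' i) := by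
  funext a
  by_cases ha : a = i
  · subst ha
    rw [mix_of_mem (Finset.mem_singleton_self _), Function.update_self]
  · rw [mix_of_not (by rwa [Finset.mem_singleton]), Function.update_of_ne ha]

/-- All anchors but one are far from a word. -/
theorem LC3_heavy (hα : Far α) (w : (i : I) → D i) (l : Fin r) :
    ∃ l0, ∀ m, m ≠ l0 → big r ≤ (nn α m w).card := by
  by_cases h : ∃ l0, (nn α l0 w).card < big r
  · obtain ⟨l0, h0⟩ := h
    exact ⟨l0, fun m hm => (light hα hm h0).le⟩
  · push Not at h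
    exact ⟨l, fun m _ => h m⟩

/-- The structure of a word near an anchor off the column `i`. -/
theorem LC3_str {u u' : (i : I) → D i} {i : I} (hu : Adm α u)
    (hu' : Adm α (Function.update u i (u' i))) {m : Fin r}
    (hm : ((nn α m u).erase i).card ≤ 1) :
    i ∈ nn α m u ∧ i ∈ nn α m u' ∧ ∃ j, j ≠ i ∧ j ∈ nn α m u := by
  have k1 : i ∈ nn α m u := by
    by_contra hn
    rw [Finset.erase_eq_of_notMem hn] at hm
    have := hu m
    omega
  have k2 : (nn α m (Function.update u i (u' i))).erase i = (nn α m u).erase i := by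
    ext a
    rw [Finset.mem_erase, Finset.mem_erase]
    constructor
    · rintro ⟨h1, h2⟩
      exact ⟨h1, (nn_update_of_ne h1).1 h2⟩
    · rintro ⟨h1, h2⟩
      exact ⟨h1, (nn_update_of_ne h1).2 h2⟩
  have k3 : i ∈ nn α m (Function.update u i (u' i)) := by
    by_contra hn
    rw [Finset.erase_eq_of_notMem hn] at k2
    have := hu' m
    rw [k2] at this
    omega
  rw [nn_update_self] at k3
  obtain ⟨j, hj, hji⟩ : ∃ j ∈ nn α m u, j ≠ i := by
    obtain ⟨a, ha, b, hb, hab⟩ := Finset.one_lt_card.1 (hu m)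
    by_cases h : a = i
    · exact ⟨b, hb, fun h' => hab (h.trans h'.symm)⟩
    · exact ⟨a, ha, h⟩
  exact ⟨k1, mem_nn.2 k3, j, hji, hj⟩

theorem LC3_ne {E : Finset I} (hE : 2 ≤ E.card) (j : I) : ∃ a ∈ E, ∃ b ∈ E, a ≠ b ∧ a ≠ j := by
  obtain ⟨a, ha, b, hb, hab⟩ := Finset.one_lt_card.1 hE
  by_cases h : a = j
  · exact ⟨b, hb, a, ha, hab.symm, fun h' => hab (h.trans h'.symm)⟩
  · exact ⟨a, ha, b, hb, hab, h⟩

/-- The case where the first word is near an anchor off the column. -/
theorem LC3_bad (hR : Con2 α R) (hα : Far α) {i : I} {w w' : (i : I) → D i}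
    (hne : w i ≠ w' i) (hw : Adm α w) (hw' : Adm α w')
    (hx : Adm α (Function.update w i (w' i))) (hx' : Adm α (Function.update w' i (w i)))
    {l : Fin r} (hl : ((nn α l w).erase i).card ≤ 1) (hr : 2 < big r)
    (S : Multiset ((i : I) → D i)) :
    R (w ::ₘ w' ::ₘ S)
      (Function.update w i (w' i) ::ₘ Function.update w' i (w i) ::ₘ S) := by
  classical
  obtain ⟨k1, k2, j, hji, hj⟩ := LC3_str hw hx hl
  have hlw : (nn α l w).card < big r := by
    have := Finset.card_erase_of_mem k1
    omega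
  have Hw : ∀ m, m ≠ l → big r ≤ (nn α m w).card := fun m hm => (light hα hm hlw).le
  -- the general scheme: a set `P` with prescribed colors; `m'` the light anchor of `w'`
  have scheme : ∀ (m' : Fin r) (P : Finset I) (f : I → Fin 3), P.card ≤ 8 → i ∈ P → j ∈ P →
      f j = 2 → (∀ m, m ≠ m' → big r ≤ (nn α m w').card) →
      (∃ a ∈ nn α m' w', a ∈ P ∧ a ≠ i ∧ f a = 2) →
      (i ∈ nn α m' w' ∨ ∃ a ∈ nn α m' w', a ∈ P ∧ f a = 0) →
      (i ∈ nn α m' w ∨ ∃ a ∈ nn α m' w', a ∈ P ∧ a ≠ i ∧ f a = 1) →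
      R (w ::ₘ w' ::ₘ S)
        (Function.update w i (w' i) ::ₘ Function.update w' i (w i) ::ₘ S) := by
    intro m' P f hP hiP hjP hfj Hw' q3 q1 q2
    obtain ⟨g, hgP, gw, gw', gd⟩ := pal hα w w' P hP f
    rw [← LC3_mix i w w', ← LC3_mix i w' w]
    have hnot : ∀ a, a ∉ P → a ∉ ({i} : Finset I) := by
      intro a ha h
      rw [Finset.mem_singleton] at h
      exact ha (h ▸ hiP)
    have hw1 : ∀ m, m ≠ l → ∀ c, ∃ a ∈ nn α m w, a ∉ ({i} : Finset I) ∧ g a = c := by
      intro m hm c
      obtain ⟨a, h1, h2, h3⟩ := gw m (Hw m hm) c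
      exact ⟨a, h1, hnot a h2, h3⟩
    have hw2 : ∀ m, m ≠ m' → ∀ c, ∃ a ∈ nn α m w', a ∉ ({i} : Finset I) ∧ g a = c := by
      intro m hm c
      obtain ⟨a, h1, h2, h3⟩ := gw' m (Hw' m hm) c
      exact ⟨a, h1, hnot a h2, h3⟩
    refine hR.three {i} g ?_ ?_ ?_ ?_ S
    · intro m
      constructor
      · by_cases hm : m = l
        · subst hm
          exact ⟨i, k1, Or.inl (Finset.mem_singleton_self i)⟩
        · obtain ⟨a, h1, -, h3⟩ := hw1 m hm 0
          exact ⟨a, h1, Or.inr h3⟩
      · by_cases hm : m = m'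
        · subst hm
          rcases q1 with h | ⟨a, h1, h2, h3⟩
          · exact ⟨i, h, Or.inl (Finset.mem_singleton_self i)⟩
          · exact ⟨a, h1, Or.inr ((hgP a h2).trans h3)⟩
        · obtain ⟨a, h1, -, h3⟩ := hw2 m hm 0
          exact ⟨a, h1, Or.inr h3⟩
    · intro m
      constructor
      · by_cases hm : m = l
        · subst hm
          exact Or.inl ⟨i, k2, Finset.mem_singleton_self i⟩
        · exact Or.inr (hw1 m hm 1)
      · by_cases hm : m = m'
        · subst hm
          rcases q2 with h | ⟨a, h1, h2, h3, h4⟩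
          · exact Or.inl ⟨i, h, Finset.mem_singleton_self i⟩
          · exact Or.inr ⟨a, h1, by rwa [Finset.mem_singleton], (hgP a h2).trans h4⟩
        · exact Or.inr (hw2 m hm 1)
    · intro m
      constructor
      · by_cases hm : m = l
        · subst hm
          exact ⟨j, hj, by rwa [Finset.mem_singleton], (hgP j hjP).trans hfj⟩
        · exact hw1 m hm 2
      · by_cases hm : m = m'
        · subst hm
          obtain ⟨a, h1, h2, h3, h4⟩ := q3
          exact ⟨a, h1, by rwa [Finset.mem_singleton], (hgP a h2).trans h4⟩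
        · exact hw2 m hm 2
    · intro m m2 hmm c
      obtain ⟨a, h1, h2, h3⟩ := gd m m2 hmm c
      exact ⟨a, h1, hnot a h2, h3⟩
  -- the light anchor of `w'`
  obtain ⟨m', Hw'⟩ := LC3_heavy hα w' l
  by_cases i1 : i ∈ nn α m' w'
  · by_cases i2 : i ∈ nn α m' w
    · obtain ⟨a, ha, hai⟩ : ∃ a ∈ nn α m' w', a ≠ i := by
        obtain ⟨a, ha, b, hb, hab, hai⟩ := LC3_ne (hw' m') i
        exact ⟨a, ha, hai⟩
      refine scheme m' {i, j, a} (fun _ => 2) (Finset.card_le_three.trans (by norm_num))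
        (by simp) (by simp) rfl Hw' ⟨a, ha, by simp, hai, rfl⟩ (Or.inl i1) (Or.inl i2)
    · have hml : 2 ≤ ((nn α m' w').erase i).card := by
        have h1 := hx' m'
        have h2 : nn α m' (Function.update w' i (w i)) ⊆ (nn α m' w').erase i := by
          intro a ha
          rw [Finset.mem_erase]
          have hai : a ≠ i := by
            rintro rfl
            rw [nn_update_self] at ha
            exact i2 (mem_nn.2 ha)
          exact ⟨hai, (nn_update_of_ne hai).1 ha⟩
        exact h1.trans (Finset.card_le_card h2)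
      obtain ⟨a1, h1, a2, h2, h12, h1j⟩ := LC3_ne hml j
      rw [Finset.mem_erase] at h1 h2
      refine scheme m' {i, j, a1, a2} (fun x => if x = a1 then 1 else 2)
        (Finset.card_le_four.trans (by norm_num)) (by simp) (by simp)
        (by simp [Ne.symm h1j]) Hw' ⟨a2, h2.2, by simp, h2.1, by simp [Ne.symm h12]⟩
        (Or.inl i1) (Or.inr ⟨a1, h1.2, by simp, h1.1, by simp⟩)
  · obtain ⟨a1, h1, a2, h2, h12, h1j⟩ := LC3_ne (hw' m') j
    have i2 : i ∈ nn α m' w := by
      rw [mem_nn]
      rw [not_mem_nn] at i1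
      exact fun h => hne (h.trans i1.symm)
    refine scheme m' {i, j, a1, a2} (fun x => if x = a1 then 0 else 2)
      (Finset.card_le_four.trans (by norm_num)) (by simp) (by simp)
      (by simp [Ne.symm h1j]) Hw' ⟨a2, h2, by simp, ?_, by simp [Ne.symm h12]⟩
      (Or.inr ⟨a1, h1, by simp, by simp⟩) (Or.inl i2)
    rintro rfl
    exact i1 h2

/-- Exchanging one column between two words. -/
theorem Con2.single (hR : Con2 α R) (hα : Far α) {w w' : (i : I) → D i} (hw : Adm α w)
    (hw' : Adm α w') {i : I} (h1 : Adm α (Function.update w i (w' i)))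
    (h2 : Adm α (Function.update w' i (w i))) (S : Multiset ((i : I) → D i)) :
    R (w ::ₘ w' ::ₘ S)
      (Function.update w i (w' i) ::ₘ Function.update w' i (w i) ::ₘ S) := by
  classical
  by_cases hne : w i = w' i
  · have e1 : Function.update w i (w' i) = w := by rw [← hne, Function.update_eq_self]
    have e2 : Function.update w' i (w i) = w' := by rw [hne, Function.update_eq_self]
    rw [e1, e2]
    exact hR.refl _
  have hr : 2 < big r := by unfold big; omega
  by_cases hA : ∃ l, ((nn α l w).erase i).card ≤ 1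
  · obtain ⟨l, hl⟩ := hA
    exact LC3_bad hR hα hne hw hw' h1 h2 hl hr S
  by_cases hA' : ∃ l, ((nn α l w').erase i).card ≤ 1
  · obtain ⟨l, hl⟩ := hA'
    have := LC3_bad hR hα (Ne.symm hne) hw' hw h2 h1 hl hr S
    rw [Multiset.cons_swap w' w, Multiset.cons_swap (Function.update w' i (w i))] at this
    exact this
  push Not at hA hA'
  rw [← LC3_mix i w w', ← LC3_mix i w' w]
  rcases r.eq_zero_or_pos with h0 | hpos
  · subst h0
    exact hR.two {i} (fun _ => 0) (fun l => l.elim0) (fun l => l.elim0) S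
  obtain ⟨l0, H0⟩ := LC3_heavy hα w ⟨0, hpos⟩
  obtain ⟨l1, H1⟩ := LC3_heavy hα w' ⟨0, hpos⟩
  obtain ⟨a, ha, b, hb, hab⟩ := Finset.one_lt_card.1 (hA l0)
  obtain ⟨a', ha', b', hb', hab', hab2, hba2⟩ : ∃ a' ∈ (nn α l1 w').erase i,
      ∃ b' ∈ (nn α l1 w').erase i, a' ≠ b' ∧ a' ≠ b ∧ b' ≠ a := by
    obtain ⟨a', ha', b', hb', hab'⟩ := Finset.one_lt_card.1 (hA' l1)
    by_cases h : a' = b ∨ b' = a
    · refine ⟨b', hb', a', ha', hab'.symm, ?_, ?_⟩
      · rintro rfl
        rcases h with h | h
        · exact hab' h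
        · exact hab h.symm
      · rintro rfl
        rcases h with h | h
        · exact hab h
        · exact hab' h.symm
    · rw [not_or] at h
      exact ⟨a', ha', b', hb', hab', h.1, h.2⟩
  rw [Finset.mem_erase] at ha hb ha' hb'
  obtain ⟨g, hgP, gw, gw', gd⟩ := pal hα w w' {i, a, b, a', b'}
    (Finset.card_le_five.trans (by norm_num)) (fun x => if x = b ∨ x = b' then 1 else 0)
  have hnot : ∀ x, x ∉ ({i, a, b, a', b'} : Finset I) → x ∉ ({i} : Finset I) := by
    intro x hx h
    rw [Finset.mem_singleton] at h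
    exact hx (by simp [h])
  refine hR.two {i} g ?_ ?_ S
  · intro l
    refine ⟨?_, ?_, ?_, ?_⟩
    · by_cases h : l = l0
      · subst h
        refine ⟨a, ha.2, by simpa using ha.1, ?_⟩
        rw [hgP a (by simp), if_neg]
        rw [not_or]
        exact ⟨hab, Ne.symm hba2⟩
      · obtain ⟨x, k1, k2, k3⟩ := gw l (H0 l h) 0
        exact ⟨x, k1, hnot x k2, k3⟩
    · by_cases h : l = l0
      · subst h
        refine ⟨b, hb.2, by simpa using hb.1, ?_⟩
        rw [hgP b (by simp), if_pos (Or.inl rfl)]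
      · obtain ⟨x, k1, k2, k3⟩ := gw l (H0 l h) 1
        exact ⟨x, k1, hnot x k2, k3⟩
    · by_cases h : l = l1
      · subst h
        refine ⟨a', ha'.2, by simpa using ha'.1, ?_⟩
        rw [hgP a' (by simp), if_neg]
        rw [not_or]
        exact ⟨hab2, hab'⟩
      · obtain ⟨x, k1, k2, k3⟩ := gw' l (H1 l h) 0
        exact ⟨x, k1, hnot x k2, k3⟩
    · by_cases h : l = l1
      · subst h
        refine ⟨b', hb'.2, by simpa using hb'.1, ?_⟩
        rw [hgP b' (by simp), if_pos (Or.inr rfl)]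
      · obtain ⟨x, k1, k2, k3⟩ := gw' l (H1 l h) 1
        exact ⟨x, k1, hnot x k2, k3⟩
  · intro l m hlm c
    obtain ⟨x, k1, k2, k3⟩ := gd l m hlm c
    exact ⟨x, k1, hnot x k2, k3⟩

theorem okSwap2 (hR : Con2 α R) (hα : Far α) (i : I) {w w' : (i : I) → D i}
    {S : Multiset ((i : I) → D i)} (hA : ∀ a ∈ w ::ₘ w' ::ₘ S, Adm α a) {b b' : D i}
    (hb : b = w' i) (hb' : b' = w i) (hx : Adm α (Function.update w i b))
    (hx' : Adm α (Function.update w' i b')) :
    Ok α R (w ::ₘ w' ::ₘ S) (Function.update w i b ::ₘ Function.update w' i b' ::ₘ S) := by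
  subst hb hb'
  refine ⟨hR.single hα (hA w (by simp)) (hA w' (by simp)) hx hx' S, ?_, ?_⟩
  · intro a ha
    simp only [Multiset.mem_cons] at ha
    rcases ha with rfl | rfl | ha
    · exact hx
    · exact hx'
    · exact hA a (by simp [ha])
  · intro j
    rw [Multiset.map_cons, Multiset.map_cons, Multiset.map_cons, Multiset.map_cons]
    by_cases hj : j = i
    · subst hj
      rw [Function.update_self, Function.update_self, Multiset.cons_swap]
    · rw [Function.update_of_ne hj, Function.update_of_ne hj]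

end Pentad.Gen
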