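import Pool.Agent.H.MP_b77b2b_ag.helper16.LC1
import Pool.Agent.H.MP_b77b2b_ag.helper16.LC2

/-!
# MP_b77b2b_ag, LC4: the double step for anchors far apart
-/

set_option autoImplicit false

namespace Pentad.Gen

variable {I : Type} [Fintype I] [DecidableEq I] {D : I → Type} [∀ i, DecidableEq (D i)] {r : ℕ}
variable {α : Fin r → (i : I) → D i}
  {R : Multiset ((i : I) → D i) → Multiset ((i : I) → D i) → Prop}

/-- A word that differs from an anchor in at most two columns is far from the others. -/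
private theorem heavy_of_two (hα : Far α) {w : (i : I) → D i} {l : Fin r} {x c : I}
    (hw : ∀ a, a ≠ x → a ≠ c → a ∉ nn α l w) {o : Fin r} (ho : o ≠ l) :
    big r < (nn α o w).card := by
  refine light hα ho ?_
  have hsub : nn α l w ⊆ {x, c} := by
    intro a ha
    rw [Finset.mem_insert, Finset.mem_singleton]
    by_contra hc
    rw [not_or] at hc
    exact hw a hc.1 hc.2 ha
  have h1 := (Finset.card_le_card hsub).trans Finset.card_le_two
  have h2 : 8 ≤ big r := by
    unfold big
    omega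
  omega

/-- After changing two columns a word far from an anchor differs from it in two columns. -/
private theorem adm_of_heavy {w v : (i : I) → D i} {o : Fin r} {d x : I}
    (h : big r < (nn α o w).card) : 2 ≤ (nn α o (mix {d, x} v w)).card := by
  have hsub : nn α o w \ {d, x} ⊆ nn α o (mix {d, x} v w) := by
    intro a ha
    rw [Finset.mem_sdiff] at ha
    rw [mem_nn, mix_of_not ha.2]
    exact mem_nn.1 ha.1
  have h1 := Finset.card_le_card hsub
  have h2 := Finset.le_card_sdiff ({d, x} : Finset I) (nn α o w)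
  have h3 : ({d, x} : Finset I).card ≤ 2 := Finset.card_le_two
  have h4 : 8 ≤ big r := by
    unfold big
    omega
  omega

theorem dblStep (hR : Con2 α R) (hα : Far α) {t w v : (i : I) → D i}
    {S : Multiset ((i : I) → D i)} (hA : ∀ a ∈ w ::ₘ v ::ₘ S, Adm α a) {m l : Fin r}
    {d d2 x c : I} (hvd : d ∈ nn α m v) (hvd2 : d2 ∈ nn α m v) (hdd : d2 ≠ d)
    (hv : ∀ a, a ≠ d → a ≠ d2 → a ∉ nn α m v) (hwx : x ∈ nn α l w) (hwc : c ∈ nn α l w)
    (hcx : c ≠ x) (hw : ∀ a, a ≠ x → a ≠ c → a ∉ nn α l w) (hxd : x ≠ d) (hcd : c ≠ d)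
    (hxd2 : x ≠ d2) (hwxm : x ∈ nn α m w) (hvdl : d ∈ nn α l v) (hwt : w d ≠ t d)
    (hvt : v d = t d) (hwtx : w x ≠ t x) :
    ∃ w2 Q2, Ok α R (w ::ₘ v ::ₘ S) (w2 ::ₘ Q2) ∧ agr t w < agr t w2 := by
  classical
  have hW : ∀ o, o ≠ l → big r < (nn α o w).card := fun o ho => heavy_of_two hα hw ho
  have hV : ∀ o, o ≠ m → big r < (nn α o v).card := fun o ho => heavy_of_two hα hv ho
  obtain ⟨g, g1, g2, g3, g4⟩ := pal hα w v {d, x, d2, c}
    (Finset.card_le_four.trans (by norm_num)) (fun _ => 2)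
  have hX : ∀ a, a ∉ ({d, x, d2, c} : Finset I) → a ∉ ({d, x} : Finset I) := by
    intro a ha
    simp only [Finset.mem_insert, Finset.mem_singleton, not_or] at ha ⊢
    exact ⟨ha.1, ha.2.1⟩
  have hR2 : R (w ::ₘ v ::ₘ S) (mix {d, x} v w ::ₘ mix {d, x} w v ::ₘ S) := by
    refine hR.three {d, x} g ?_ ?_ ?_ ?_ S
    · intro o
      refine ⟨?_, ?_⟩
      · by_cases ho : o = l
        · subst ho
          exact ⟨x, hwx, Or.inl (by simp)⟩
        · obtain ⟨a, ha, -, hg⟩ := g2 o (hW o ho).le 0
          exact ⟨a, ha, Or.inr hg⟩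
      · by_cases ho : o = m
        · subst ho
          exact ⟨d, hvd, Or.inl (by simp)⟩
        · obtain ⟨a, ha, -, hg⟩ := g3 o (hV o ho).le 0
          exact ⟨a, ha, Or.inr hg⟩
    · intro o
      refine ⟨?_, ?_⟩
      · by_cases ho : o = l
        · subst ho
          exact Or.inl ⟨d, hvdl, by simp⟩
        · obtain ⟨a, ha, hP, hg⟩ := g2 o (hW o ho).le 1
          exact Or.inr ⟨a, ha, hX a hP, hg⟩
      · by_cases ho : o = m
        · subst ho
          exact Or.inl ⟨x, hwxm, by simp⟩
        · obtain ⟨a, ha, hP, hg⟩ := g3 o (hV o ho).le 1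
          exact Or.inr ⟨a, ha, hX a hP, hg⟩
    · intro o
      refine ⟨?_, ?_⟩
      · by_cases ho : o = l
        · subst ho
          exact ⟨c, hwc, by simp [hcx, hcd], g1 c (by simp)⟩
        · obtain ⟨a, ha, hP, hg⟩ := g2 o (hW o ho).le 2
          exact ⟨a, ha, hX a hP, hg⟩
      · by_cases ho : o = m
        · subst ho
          exact ⟨d2, hvd2, by simp [hdd, Ne.symm hxd2], g1 d2 (by simp)⟩
        · obtain ⟨a, ha, hP, hg⟩ := g3 o (hV o ho).le 2
          exact ⟨a, ha, hX a hP, hg⟩
    · intro o o' ho c'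
      obtain ⟨a, ha, hP, hg⟩ := g4 o o' ho c'
      exact ⟨a, ha, hX a hP, hg⟩
  have hadw : Adm α (mix {d, x} v w) := by
    intro o
    by_cases ho : o = l
    · subst ho
      refine Finset.one_lt_card.2 ⟨c, ?_, d, ?_, hcd⟩
      · rw [mem_nn, mix_of_not (by simp [hcx, hcd])]
        exact mem_nn.1 hwc
      · rw [mem_nn, mix_of_mem (by simp)]
        exact mem_nn.1 hvdl
    · exact adm_of_heavy (hW o ho)
  have hadv : Adm α (mix {d, x} w v) := by
    intro o
    by_cases ho : o = m
    · subst ho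
      refine Finset.one_lt_card.2 ⟨d2, ?_, x, ?_, Ne.symm hxd2⟩
      · rw [mem_nn, mix_of_not (by simp [hdd, Ne.symm hxd2])]
        exact mem_nn.1 hvd2
      · rw [mem_nn, mix_of_mem (by simp)]
        exact mem_nn.1 hwxm
    · exact adm_of_heavy (hV o ho)
  refine ⟨mix {d, x} v w, mix {d, x} w v ::ₘ S, ⟨hR2, ?_, ?_⟩, agr_lt (c := d) ?_ hwt ?_⟩
  · intro a ha
    simp only [Multiset.mem_cons] at ha
    rcases ha with rfl | rfl | ha
    · exact hadw
    · exact hadv
    · exact hA a (by simp [ha])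
  · intro j
    rw [Multiset.map_cons, Multiset.map_cons, Multiset.map_cons, Multiset.map_cons]
    by_cases hj : j ∈ ({d, x} : Finset I)
    · rw [mix_of_mem hj, mix_of_mem hj, Multiset.cons_swap]
    · rw [mix_of_not hj, mix_of_not hj]
  · intro i hi
    by_cases hid : i = d
    · subst hid
      exact absurd hi hwt
    · by_cases hix : i = x
      · subst hix
        exact absurd hi hwtx
      · rw [mix_of_not (by simp [hid, hix])]
        exact hi
  · rw [mix_of_mem (by simp)]
    exact hvt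

end Pentad.Gen
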