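import Pool.Agent.H.MP_b77b2b_ag.helper16.LC1

/-!
# MP_b77b2b_ag, LC5: a direct exchange for light rows
-/

set_option autoImplicit false

namespace Pentad.Gen

variable {I : Type} [Fintype I] [DecidableEq I] {D : I → Type} [∀ i, DecidableEq (D i)] {r : ℕ}
  {α : Fin r → (i : I) → D i}
  {R : Multiset ((i : I) → D i) → Multiset ((i : I) → D i) → Prop}

/-- Exchange of a part fixed by the conditions of `Con2`. -/
private theorem LC5_ok (hR : Con2 α R) (C : Finset I) {w w' : (i : I) → D i}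
    {S : Multiset ((i : I) → D i)} (hA : ∀ a ∈ w ::ₘ w' ::ₘ S, Adm α a) (hs : Sep α C)
    (h : Good α C w) (h' : Good α C w') :
    Ok α R (w ::ₘ w' ::ₘ S) (mix C w' w ::ₘ mix C w w' ::ₘ S) := by
  refine ⟨hR.ex C hs h h' S, ?_, ?_⟩
  · intro a ha
    simp only [Multiset.mem_cons] at ha
    rcases ha with rfl | rfl | ha
    · exact good_adm h h'
    · exact good_adm h' h
    · exact hA a (by simp [ha])
  · intro j
    rw [Multiset.map_cons, Multiset.map_cons, Multiset.map_cons, Multiset.map_cons]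
    by_cases hj : j ∈ C
    · rw [mix_of_mem hj, mix_of_mem hj, Multiset.cons_swap]
    · rw [mix_of_not hj, mix_of_not hj]

private theorem LC5_light (hα : Far α) {w : (i : I) → D i} {m : Fin r} {a b : I}
    (h : ∀ c, c ≠ a → c ≠ b → c ∉ nn α m w) {l : Fin r} (hl : l ≠ m) :
    big r ≤ (nn α l w).card := by
  have h1 : nn α m w ⊆ {a, b} := by
    intro c hc
    rw [Finset.mem_insert, Finset.mem_singleton]
    by_contra hcon
    rw [not_or] at hcon
    exact h c hcon.1 hcon.2 hc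
  have h2 : (nn α m w).card ≤ 2 := (Finset.card_le_card h1).trans Finset.card_le_two
  have h3 : (nn α m w).card < big r := by
    unfold big
    omega
  exact (light hα hl h3).le

theorem direct (hR : Con2 α R) (hα : Far α) {v u : (i : I) → D i}
    {S : Multiset ((i : I) → D i)} (hA : ∀ a ∈ v ::ₘ u ::ₘ S, Adm α a) {m : Fin r}
    {d x y z : I} (hvd : d ∈ nn α m v) (hvx : x ∈ nn α m v) (hdx : d ≠ x)
    (hv : ∀ a, a ≠ d → a ≠ x → a ∉ nn α m v) (huy : y ∈ nn α m u) (huz : z ∈ nn α m u)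
    (hyz : y ≠ z) (hu : ∀ a, a ≠ y → a ≠ z → a ∉ nn α m u) (hxu : x ∉ nn α m u)
    (hyd : y ≠ d) :
    ∃ v' u', Ok α R (v ::ₘ u ::ₘ S) (v' ::ₘ u' ::ₘ S) ∧ v' d = v d ∧ y ∈ nn α m v' ∧
      ∀ a, a ≠ d → a ≠ y → a ∉ nn α m v' := by
  have hxy : x ≠ y := fun h => hxu (h ▸ huy)
  have hxz : x ≠ z := fun h => hxu (h ▸ huz)
  obtain ⟨g, hg, hgv, hgu, hgd⟩ := pal hα v u {d, x, y, z}
    (Finset.card_le_four.trans (by norm_num)) (fun a => if a = x ∨ a = y then 0 else 1)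
  have gx : g x = 0 := by
    rw [hg x (by simp), if_pos (Or.inl rfl)]
  have gy : g y = 0 := by
    rw [hg y (by simp), if_pos (Or.inr rfl)]
  have gd : g d = 1 := by
    rw [hg d (by simp), if_neg]
    rw [not_or]
    exact ⟨hdx, hyd.symm⟩
  have gz : g z = 1 := by
    rw [hg z (by simp), if_neg]
    rw [not_or]
    exact ⟨hxz.symm, hyz.symm⟩
  obtain ⟨C, hC⟩ : ∃ C : Finset I, ∀ a, a ∈ C ↔ g a = 0 :=
    ⟨Finset.univ.filter fun a => g a = 0, fun a => by simp⟩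
  have h10 : (1 : Fin 3) ≠ 0 := by decide
  have nC : ∀ a, g a = 1 → a ∉ C := by
    intro a ha h
    rw [hC, ha] at h
    exact h10 h
  have hs : Sep α C := by
    intro l l' hll
    obtain ⟨a, ha, -, ha0⟩ := hgd l l' hll 0
    obtain ⟨b, hb, -, hb1⟩ := hgd l l' hll 1
    exact ⟨⟨a, (hC a).2 ha0, mem_dd.1 ha⟩, b, nC b hb1, mem_dd.1 hb⟩
  have hGv : Good α C v := by
    intro l
    by_cases hl : l = m
    · subst hl
      exact ⟨⟨x, hvx, (hC x).2 gx⟩, d, hvd, nC d gd⟩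
    · obtain ⟨a, ha, -, ha0⟩ := hgv l (LC5_light hα hv hl) 0
      obtain ⟨b, hb, -, hb1⟩ := hgv l (LC5_light hα hv hl) 1
      exact ⟨⟨a, ha, (hC a).2 ha0⟩, b, hb, nC b hb1⟩
  have hGu : Good α C u := by
    intro l
    by_cases hl : l = m
    · subst hl
      exact ⟨⟨y, huy, (hC y).2 gy⟩, z, huz, nC z gz⟩
    · obtain ⟨a, ha, -, ha0⟩ := hgu l (LC5_light hα hu hl) 0
      obtain ⟨b, hb, -, hb1⟩ := hgu l (LC5_light hα hu hl) 1
      exact ⟨⟨a, ha, (hC a).2 ha0⟩, b, hb, nC b hb1⟩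
  refine ⟨mix C u v, mix C v u, LC5_ok hR C hA hs hGv hGu, mix_of_not (nC d gd) _ _, ?_, ?_⟩
  · rw [mem_nn, mix_of_mem ((hC y).2 gy)]
    exact mem_nn.1 huy
  · intro a had hay
    rw [not_mem_nn]
    by_cases ha : a ∈ C
    · rw [mix_of_mem ha]
      have haz : a ≠ z := fun h => nC z gz (h ▸ ha)
      exact not_mem_nn.1 (hu a hay haz)
    · rw [mix_of_not ha]
      have hax : a ≠ x := fun h => ha (h ▸ (hC x).2 gx)
      exact not_mem_nn.1 (hv a had hax)

end Pentad.Gen
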