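import Pool.Agent.H.MP_b77b2b_ag.helper16.LC0
import Pool.Agent.H.MP_b77b2b_ag.helper16.GC6

/-!
# MP_b77b2b_ag, LC6: column choices and counting
-/

set_option autoImplicit false

namespace Pentad.Gen

variable {I : Type} [Fintype I] [DecidableEq I] {D : I → Type} [∀ i, DecidableEq (D i)] {r : ℕ}
  {α : Fin r → (i : I) → D i}

theorem card_update (u : (i : I) → D i) (l : Fin r) (x : I) (b : D x) :
    (nn α l u).card ≤ (nn α l (Function.update u x b)).card + 1 := by
  have hsub : nn α l u ⊆ insert x (nn α l (Function.update u x b)) := by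
    intro a ha
    rw [Finset.mem_insert]
    by_cases hax : a = x
    · exact Or.inl hax
    · exact Or.inr ((nn_update_of_ne hax).2 ha)
  exact (Finset.card_le_card hsub).trans (Finset.card_insert_le _ _)

theorem heavy_update (hα : Far α) {u : (i : I) → D i} {l m : Fin r} (hlm : m ≠ l)
    (h : (nn α l u).card ≤ 3) (x : I) (b : D x) :
    2 ≤ (nn α m (Function.update u x b)).card := by
  have h1 : (nn α l u).card < big r := by
    unfold big
    omega
  have h2 := light hα hlm h1
  have h3 := card_update (α := α) u m x b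
  unfold big at h2
  omega

theorem card_le_two_of {u : (i : I) → D i} {l : Fin r} {d e : I}
    (h : ∀ a, a ≠ d → a ≠ e → a ∉ nn α l u) : (nn α l u).card ≤ 2 := by
  have hsub : nn α l u ⊆ {d, e} := by
    intro a ha
    rw [Finset.mem_insert, Finset.mem_singleton]
    by_contra hn
    rw [not_or] at hn
    exact h a hn.1 hn.2 ha
  exact (Finset.card_le_card hsub).trans Finset.card_le_two

theorem goodCol (hα : Far α) {t w : (i : I) → D i} (ht : Adm α t) (hw : Adm α w)
    (hwt : w ≠ t) : ∃ d, w d ≠ t d ∧ Adm α (Function.update w d (t d)) := by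
  obtain ⟨d, hd⟩ : ∃ d, w d ≠ t d := by
    by_contra h
    push Not at h
    exact hwt (funext h)
  by_cases hA : Adm α (Function.update w d (t d))
  · exact ⟨d, hd, hA⟩
  obtain ⟨l, e, hb, hdw, hed, hew, hother⟩ := poor hw hA
  obtain ⟨y, hy, hye⟩ := Finset.exists_mem_ne (ht l) e
  have hyd : y ≠ d := by
    rintro rfl
    exact mem_nn.1 hy hb
  have hyw : w y = α l y := not_mem_nn.1 (hother y hyd hye)
  have hyt : w y ≠ t y := by
    rw [hyw]
    exact fun h => mem_nn.1 hy h.symm
  refine ⟨y, hyt, fun m => ?_⟩
  by_cases hm : m = l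
  · subst hm
    exact Finset.one_lt_card.2 ⟨d, (nn_update_of_ne (Ne.symm hyd)).2 hdw, e,
      (nn_update_of_ne (Ne.symm hye)).2 hew, Ne.symm hed⟩
  · exact heavy_update hα hm ((card_le_two_of hother).trans (by norm_num)) y (t y)

theorem donor (hα : Far α) {u : (i : I) → D i} (hu : Adm α u) {m : Fin r}
    (h3 : 3 ≤ (nn α m u).card) (d d2 : I) :
    ∃ x ∈ nn α m u, x ≠ d ∧ x ≠ d2 ∧ Adm α (Function.update u x (α m x)) := by
  by_cases h : ∃ m', (nn α m' u).card ≤ 2
  · obtain ⟨m', hm'⟩ := h
    have hne : m ≠ m' := by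
      rintro rfl
      omega
    have h1 : (nn α m' u).card < big r := by
      unfold big
      omega
    have h2 := light hα hne h1
    have h4 : ({d, d2} ∪ nn α m' u : Finset I).card < (nn α m u).card := by
      have k1 := Finset.card_union_le ({d, d2} : Finset I) (nn α m' u)
      have k2 : ({d, d2} : Finset I).card ≤ 2 := Finset.card_le_two
      unfold big at h2
      omega
    obtain ⟨x, hx, hxn⟩ := Finset.exists_mem_notMem_of_card_lt_card h4
    rw [Finset.mem_union, not_or, Finset.mem_insert, Finset.mem_singleton, not_or] at hxn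
    refine ⟨x, hx, hxn.1.1, hxn.1.2, fun l => ?_⟩
    by_cases hl : l = m'
    · subst hl
      refine (hu l).trans (Finset.card_le_card fun a ha => ?_)
      refine (nn_update_of_ne ?_).2 ha
      rintro rfl
      exact hxn.2 ha
    · exact heavy_update hα hl (hm'.trans (by norm_num)) x _
  · push Not at h
    obtain ⟨x, hx, hxd, hxd2⟩ := exists_two h3 d d2
    refine ⟨x, hx, hxd, hxd2, fun l => ?_⟩
    have k1 := h l
    have k2 := card_update (α := α) u l x (α m x)
    omega

theorem receive (hα : Far α) {u : (i : I) → D i} (hu : Adm α u) {m : Fin r}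
    (h2 : (nn α m u).card ≤ 3) {x : I} {b : D x} (hb : b ≠ α m x) :
    Adm α (Function.update u x b) := by
  intro l
  by_cases hl : l = m
  · subst hl
    refine (hu l).trans (Finset.card_le_card fun a ha => ?_)
    by_cases hax : a = x
    · subst hax
      exact nn_update_self.2 hb
    · exact (nn_update_of_ne hax).2 ha
  · exact heavy_update hα hl h2 x b

theorem countB {m : Fin r} {w t : (i : I) → D i} {Q T : Multiset ((i : I) → D i)}
    (hT : ∀ a ∈ T, Adm α a) (hQ : ∀ a ∈ Q, (nn α m a).card ≤ 2)
    (hcon : ∀ i, (w ::ₘ Q).map (fun w => w i) = (t ::ₘ T).map fun w => w i) :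
    ((nn α m t).filter fun i => w i ≠ t i).card
      ≤ ((nn α m w).filter fun i => w i ≠ t i).card := by
  rcases isEmpty_or_nonempty I with hI | ⟨⟨i0⟩⟩
  · rw [Finset.eq_empty_of_isEmpty (nn α m t), Finset.filter_empty, Finset.card_empty]
    exact Nat.zero_le _
  have hcards : (w ::ₘ Q).card = (t ::ₘ T).card := by
    have := congrArg Multiset.card (hcon i0)
    rwa [Multiset.card_map, Multiset.card_map] at this
  have htot := total_eq (α := α) m hcon
  rw [Multiset.map_cons, Multiset.map_cons, Multiset.sum_cons, Multiset.sum_cons] at htot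
  rw [Multiset.card_cons, Multiset.card_cons] at hcards
  have h1 := sum_le_two hQ
  have h2 := two_le_sum (l := m) hT
  have hle : (nn α m t).card ≤ (nn α m w).card := by omega
  have e1 := Finset.card_filter_add_card_filter_not (s := nn α m t) (fun i => w i = t i)
  have e2 := Finset.card_filter_add_card_filter_not (s := nn α m w) (fun i => w i = t i)
  have e3 : (nn α m t).filter (fun i => w i = t i) = (nn α m w).filter fun i => w i = t i := by
    ext i
    rw [Finset.mem_filter, Finset.mem_filter, mem_nn, mem_nn]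
    constructor
    · rintro ⟨k1, k2⟩
      exact ⟨by rw [k2]; exact k1, k2⟩
    · rintro ⟨k1, k2⟩
      exact ⟨by rw [← k2]; exact k1, k2⟩
  rw [e3] at e1
  simp only [ne_eq]
  omega

end Pentad.Gen
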