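import Pool.Agent.H.MP_b77b2b_ag.helper16.LC3
import Pool.Agent.H.MP_b77b2b_ag.helper16.LC4
import Pool.Agent.H.MP_b77b2b_ag.helper16.LC5
import Pool.Agent.H.MP_b77b2b_ag.helper16.LC6

/-!
# MP_b77b2b_ag, LC7: improving the agreement, anchors far apart
-/

set_option autoImplicit false

namespace Pentad.Gen

variable {I : Type} [Fintype I] [DecidableEq I] {D : I → Type} [∀ i, DecidableEq (D i)] {r : ℕ}
  {α : Fin r → (i : I) → D i}
  {R : Multiset ((i : I) → D i) → Multiset ((i : I) → D i) → Prop}

theorem nn_card_two {m : Fin r} {v : (i : I) → D i} {d e : I} (hne : e ≠ d)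
    (hd : d ∈ nn α m v) (he : e ∈ nn α m v) (hv : ∀ a, a ≠ d → a ≠ e → a ∉ nn α m v) :
    (nn α m v).card = 2 := by
  have : nn α m v = {d, e} := by
    ext a
    rw [Finset.mem_insert, Finset.mem_singleton]
    constructor
    · intro h
      by_contra hc
      rw [not_or] at hc
      exact hv a hc.1 hc.2 h
    · rintro (rfl | rfl)
      · exact hd
      · exact he
  rw [this, Finset.card_pair hne.symm]

theorem big_pos (r : ℕ) : 8 ≤ big r := by
  unfold big
  omega

/-- The second anchor with two differences is the same. -/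
theorem light_unique (hα : Far α) {w : (i : I) → D i} {l m : Fin r} (hl : (nn α l w).card ≤ 2)
    (hm : (nn α m w).card ≤ 2) : m = l := by
  by_contra h
  have h1 := light hα h (w := w) (l := l) (by have := big_pos r; omega)
  have := big_pos r
  omega

/-- The agreement with the target can be increased. -/
theorem improve2 (hR : Con2 α R) (hα : Far α) {t w : (i : I) → D i}
    {Q T : Multiset ((i : I) → D i)} (hA : ∀ a ∈ w ::ₘ Q, Adm α a) (hT : ∀ a ∈ t ::ₘ T, Adm α a)
    (hcon : ∀ i, (w ::ₘ Q).map (fun w => w i) = (t ::ₘ T).map fun w => w i) (hwt : w ≠ t) :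
    ∃ w2 Q2, Ok α R (w ::ₘ Q) (w2 ::ₘ Q2) ∧ agr t w < agr t w2 := by
  classical
  have hb := big_pos r
  have hwA : Adm α w := hA w (Multiset.mem_cons_self _ _)
  have htA : Adm α t := hT t (Multiset.mem_cons_self _ _)
  obtain ⟨d, hwd, hdA⟩ := goodCol hα htA hwA hwt
  obtain ⟨v, S, rfl, hvd⟩ := findRow (hcon d) hwd
  have hvA : Adm α v := hA v (by simp)
  by_cases hx' : Adm α (Function.update v d (w d))
  · refine ⟨_, _, okSwap2 hR hα d hA hvd.symm rfl hdA hx', agr_lt (c := d) ?_ hwd ?_⟩
    · intro i hi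
      by_cases hid : i = d
      · subst hid
        exact absurd hi hwd
      · rw [Function.update_of_ne hid]
        exact hi
    · rw [Function.update_self]
  obtain ⟨m, d2, hm, hvdm, hdd, hvd2, hv⟩ := poor hvA hx'
  have hcv : (nn α m v).card = 2 := nn_card_two hdd hvdm hvd2 hv
  by_cases hdon : ∃ u ∈ S, 3 ≤ (nn α m u).card
  · -- a third row gives a value to `v`
    obtain ⟨u, huS, hu3⟩ := hdon
    obtain ⟨S2, rfl⟩ := Multiset.exists_cons_of_mem huS
    have huA : Adm α u := hA u (by simp)
    obtain ⟨x, hxu, hxd, hxd2, hxA⟩ := donor hα huA hu3 d d2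
    have hvx : v x = α m x := not_mem_nn.1 (hv x hxd hxd2)
    have hA2 : ∀ a ∈ u ::ₘ v ::ₘ w ::ₘ S2, Adm α a := by
      intro a ha
      refine hA a ?_
      simp only [Multiset.mem_cons] at ha ⊢
      tauto
    have hvA2 : Adm α (Function.update v x (u x)) :=
      receive hα hvA (by omega) (mem_nn.1 hxu)
    have s1 := okSwap2 hR hα x hA2 (b := α m x) (b' := u x) hvx.symm rfl hxA hvA2
    have e1 : u ::ₘ v ::ₘ w ::ₘ S2 = w ::ₘ v ::ₘ u ::ₘ S2 := by
      rw [Multiset.cons_swap v w, Multiset.cons_swap u w, Multiset.cons_swap u v]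
    have e2 : Function.update u x (α m x) ::ₘ Function.update v x (u x) ::ₘ w ::ₘ S2
        = w ::ₘ Function.update v x (u x) ::ₘ Function.update u x (α m x) ::ₘ S2 := by
      rw [Multiset.cons_swap _ w, Multiset.cons_swap _ w,
        Multiset.cons_swap (Function.update u x (α m x))]
    rw [e1, e2] at s1
    have hvd' : Function.update v x (u x) d = t d := by
      rw [Function.update_of_ne (Ne.symm hxd)]
      exact hvd
    have hvA3 : Adm α (Function.update (Function.update v x (u x)) d (w d)) := by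
      intro o
      by_cases ho : o = m
      · subst ho
        refine Finset.one_lt_card.2 ⟨x, ?_, d2, ?_, hxd2⟩
        · rw [nn_update_of_ne hxd, nn_update_self]
          exact mem_nn.1 hxu
        · rw [nn_update_of_ne hdd, nn_update_of_ne (Ne.symm hxd2)]
          exact hvd2
      · have h1 := light hα ho (w := v) (l := m) (by omega)
        have h2 : (nn α o v) \ {x, d} ⊆
            nn α o (Function.update (Function.update v x (u x)) d (w d)) := by
          intro a ha
          simp only [Finset.mem_sdiff, Finset.mem_insert, Finset.mem_singleton, not_or] at ha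
          rw [nn_update_of_ne ha.2.2, nn_update_of_ne ha.2.1]
          exact ha.1
        have h3 := Finset.card_le_card h2
        have h4 := Finset.le_card_sdiff {x, d} (nn α o v)
        have h5 : ({x, d} : Finset I).card ≤ 2 := Finset.card_le_two
        omega
    have s2 := okSwap2 hR hα d s1.2.1 (b := t d) (b' := w d) hvd'.symm rfl hdA hvA3
    refine ⟨_, _, s1.trans2 hR s2, agr_lt (c := d) ?_ hwd ?_⟩
    · intro i hi
      by_cases hid : i = d
      · subst hid
        exact absurd hi hwd
      · rw [Function.update_of_ne hid]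
        exact hi
    · rw [Function.update_self]
  push Not at hdon
  have hQ2 : ∀ a ∈ v ::ₘ S, (nn α m a).card ≤ 2 := by
    intro a ha
    rw [Multiset.mem_cons] at ha
    rcases ha with rfl | ha
    · omega
    · have := hdon a ha
      omega
  by_cases hstep : ∃ x, w x ≠ t x ∧ x ∈ nn α m w ∧ Adm α (Function.update w x (t x))
  · obtain ⟨x, hwx, hxm, hxA⟩ := hstep
    obtain ⟨u, S2, hS2, hux⟩ := findRow (hcon x) hwx
    rw [hS2] at hA hQ2 ⊢
    have huA : Adm α u := hA u (by simp)
    have huA2 : Adm α (Function.update u x (w x)) :=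
      receive hα huA (by have := hQ2 u (by simp); omega) (mem_nn.1 hxm)
    refine ⟨_, _, okSwap2 hR hα x hA hux.symm rfl hxA huA2, agr_lt (c := x) ?_ hwx ?_⟩
    · intro i hi
      by_cases hid : i = x
      · subst hid
        exact absurd hi hwx
      · rw [Function.update_of_ne hid]
        exact hi
    · rw [Function.update_self]
  push Not at hstep
  have hcount := countB (m := m) (fun a ha => hT a (Multiset.mem_cons_of_mem ha)) hQ2 hcon
  have hdt : d ∈ nn α m t := by
    rw [mem_nn, ← hvd]
    exact mem_nn.1 hvdm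
  have hdw : d ∉ nn α m w := not_mem_nn.2 hm
  -- a column of `w` off the anchor and off the target
  obtain ⟨x, hxB⟩ : ((nn α m w).filter fun i => w i ≠ t i).Nonempty := by
    rw [← Finset.card_pos]
    refine lt_of_lt_of_le (Finset.card_pos.2 ⟨d, ?_⟩) hcount
    rw [Finset.mem_filter]
    exact ⟨hdt, hwd⟩
  rw [Finset.mem_filter] at hxB
  obtain ⟨hxm, hwx⟩ := hxB
  obtain ⟨l, c, htx, hxl, hcx, hcl, hwl⟩ := poor hwA (hstep x hwx hxm)
  have hcw : (nn α l w).card = 2 := nn_card_two hcx hxl hcl hwl
  -- all such columns are among `x`, `c`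
  have honly : ∀ y, w y ≠ t y → y ∈ nn α m w → y = x ∨ y = c ∧ t c = α l c := by
    intro y hwy hym
    obtain ⟨l', c', hty', hyl', hcy', hcl', hwl'⟩ := poor hwA (hstep y hwy hym)
    have hl' : l' = l := light_unique hα hcw.le (nn_card_two hcy' hyl' hcl' hwl').le
    subst hl'
    by_cases hyx : y = x
    · exact Or.inl hyx
    · right
      have hyc : y = c := by
        by_contra hyc
        exact hwl y hyx hyc hyl'
      subst hyc
      exact ⟨rfl, hty'⟩
  have hxd : x ≠ d := by
    rintro rfl
    exact hdw hxm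
  have hcd : c ≠ d := by
    rintro rfl
    have hlm : l ≠ m := by
      rintro rfl
      exact hdw hcl
    have htc : c ∈ nn α l t := by
      have h := hdA l
      by_contra hc
      rw [not_mem_nn] at hc
      have : nn α l (Function.update w c (t c)) ⊆ {x} := by
        intro a ha
        rw [Finset.mem_singleton]
        by_contra hax
        by_cases hac : a = c
        · subst hac
          rw [nn_update_self] at ha
          exact ha hc
        · rw [nn_update_of_ne hac] at ha
          exact hwl a hax hac ha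
      have := Finset.card_le_card this
      rw [Finset.card_singleton] at this
      omega
    obtain ⟨y, hyt, hyc⟩ : ∃ y ∈ nn α l t, y ≠ c := by
      obtain ⟨a, ha, b, hb', hab⟩ := Finset.one_lt_card.1 (htA l)
      by_cases h : a = c
      · exact ⟨b, hb', fun h' => hab (h.trans h'.symm)⟩
      · exact ⟨a, ha, h⟩
    have hyx : y ≠ x := by
      rintro rfl
      exact mem_nn.1 hyt htx
    have hwy : w y = α l y := not_mem_nn.1 (hwl y hyx hyc)
    have hwty : w y ≠ t y := fun h => mem_nn.1 hyt (h.symm.trans hwy)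
    by_cases hym : y ∈ nn α m w
    · rcases honly y hwty hym with h | h
      · exact hyx h
      · exact hyc h.1
    · have hytm : y ∈ nn α m t := by
        rw [mem_nn]
        intro h
        exact hwty ((not_mem_nn.1 hym).trans h.symm)
      have h2 : ({c, y} : Finset I) ⊆ (nn α m t).filter fun i => w i ≠ t i := by
        intro a ha
        rw [Finset.mem_insert, Finset.mem_singleton] at ha
        rw [Finset.mem_filter]
        rcases ha with rfl | rfl
        · exact ⟨hdt, hwd⟩
        · exact ⟨hytm, hwty⟩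
      have h3 := (Finset.card_le_card h2).trans hcount
      rw [Finset.card_pair (Ne.symm hyc)] at h3
      obtain ⟨a, ha, b, hb', hab⟩ := Finset.one_lt_card.1 h3
      rw [Finset.mem_filter] at ha hb'
      have ka : a = x := by
        rcases honly a ha.2 ha.1 with h | h
        · exact h
        · exact absurd (h.1 ▸ ha.1) hdw
      have kb : b = x := by
        rcases honly b hb'.2 hb'.1 with h | h
        · exact h
        · exact absurd (h.1 ▸ hb'.1) hdw
      exact hab (ka.trans kb.symm)
  have hvdl : d ∈ nn α l v := by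
    rw [mem_nn, hvd]
    intro h
    have : w d = α l d := not_mem_nn.1 (hwl d (Ne.symm hxd) (Ne.symm hcd))
    exact hwd (this.trans h.symm)
  by_cases hxd2 : x = d2
  swap
  · exact dblStep hR hα hA hvdm hvd2 hdd hv hxl hcl hcx hwl hxd hcd hxd2 hxm hvdl hwd hvd hwx
  subst hxd2
  by_cases hcB : c ∈ nn α m w ∧ w c ≠ t c
  · refine dblStep hR hα hA hvdm hvd2 hdd hv hcl hxl (Ne.symm hcx)
      (fun a h1 h2 => hwl a h2 h1) hcd hxd (fun h => hcx h) hcB.1 hvdl hwd hvd hcB.2
  -- now `B` meets `nn α m w` in `x` only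
  have hone : ∀ y, w y ≠ t y → y ∈ nn α m w → y = x := by
    intro y hy1 hy2
    rcases honly y hy1 hy2 with h | h
    · exact h
    · exact absurd ⟨h.1 ▸ hy2, h.1 ▸ hy1⟩ hcB
  have hcard1 : ((nn α m w).filter fun i => w i ≠ t i).card ≤ 1 := by
    rw [Finset.card_le_one]
    intro a ha b hb'
    rw [Finset.mem_filter] at ha hb'
    rw [hone a ha.2 ha.1, hone b hb'.2 hb'.1]
  have htx' : t x = α m x := by
    by_contra h
    have h2 : ({d, x} : Finset I) ⊆ (nn α m t).filter fun i => w i ≠ t i := by
      intro a ha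
      rw [Finset.mem_insert, Finset.mem_singleton] at ha
      rw [Finset.mem_filter]
      rcases ha with rfl | rfl
      · exact ⟨hdt, hwd⟩
      · exact ⟨mem_nn.2 h, hwx⟩
    have h3 := (Finset.card_le_card h2).trans (hcount.trans hcard1)
    rw [Finset.card_pair (Ne.symm hxd)] at h3
    omega
  -- the third row
  have hcon2 := hcon x
  rw [Multiset.cons_swap] at hcon2
  have hvx : v x ≠ t x := fun h => mem_nn.1 hvd2 (h.trans htx')
  obtain ⟨u, S', hS', hux⟩ := findRow hcon2 hvx
  have huw : u ≠ w := by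
    rintro rfl
    exact hwx hux
  have huS : u ∈ S := by
    have hu : u ∈ w ::ₘ S := by rw [hS']; exact Multiset.mem_cons_self _ _
    rw [Multiset.mem_cons] at hu
    exact hu.resolve_left huw
  obtain ⟨S2, rfl⟩ := Multiset.exists_cons_of_mem huS
  have huA : Adm α u := hA u (by simp)
  have hxu : x ∉ nn α m u := not_mem_nn.2 (hux.trans htx')
  obtain ⟨y, z, hyz, hyu, hzu, hyd, hu⟩ : ∃ y z, y ≠ z ∧ y ∈ nn α m u ∧ z ∈ nn α m u ∧ y ≠ d ∧
      ∀ a, a ≠ y → a ≠ z → a ∉ nn α m u := by
    have h2 : (nn α m u).card = 2 := le_antisymm (hQ2 u (by simp)) (huA m)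
    obtain ⟨p, q, hpq, he⟩ := Finset.card_eq_two.1 h2
    by_cases hpd : p = d
    · refine ⟨q, p, Ne.symm hpq, by rw [he]; simp, by rw [he]; simp, ?_, ?_⟩
      · rintro rfl
        exact hpq hpd
      · intro a h1 h2
        rw [he]
        simp [h1, h2]
    · refine ⟨p, q, hpq, by rw [he]; simp, by rw [he]; simp, hpd, ?_⟩
      intro a h1 h2
      rw [he]
      simp [h1, h2]
  have hA2 : ∀ a ∈ v ::ₘ u ::ₘ w ::ₘ S2, Adm α a := by
    intro a ha
    refine hA a ?_
    simp only [Multiset.mem_cons] at ha ⊢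
    tauto
  obtain ⟨v', u', hok, hv'd, hv'y, hv'⟩ := direct hR hα hA2 hvdm hvd2 (Ne.symm hxd) hv hyu hzu hyz
    hu hxu hyd
  have e1 : v ::ₘ u ::ₘ w ::ₘ S2 = w ::ₘ v ::ₘ u ::ₘ S2 := by
    rw [Multiset.cons_swap u w, Multiset.cons_swap v w]
  have e2 : v' ::ₘ u' ::ₘ w ::ₘ S2 = w ::ₘ v' ::ₘ u' ::ₘ S2 := by
    rw [Multiset.cons_swap u' w, Multiset.cons_swap v' w]
  rw [e1, e2] at hok
  have hyx : y ≠ x := by
    rintro rfl
    exact hxu hyu
  obtain ⟨w2, Q2, hok2, hagr⟩ := dblStep hR hα (t := t) (w := w) (v := v') (S := u' ::ₘ S2)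
    (m := m) (l := l) (d := d) (d2 := y) (x := x) (c := c) hok.2.1
    (by rw [mem_nn, hv'd]; exact mem_nn.1 hvdm) hv'y hyd hv' hxl hcl hcx hwl hxd hcd
    (Ne.symm hyx) hxm (by rw [mem_nn, hv'd]; exact mem_nn.1 hvdl) hwd (hv'd.trans hvd) hwx
  exact ⟨w2, Q2, hok.trans2 hR hok2, hagr⟩

end Pentad.Gen
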