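import Pool.Agent.H.MP_b77b2b_ag.helper16.GL

/-!
# MP_b77b2b_ag, helper16/LD1: two matrix lemmas
-/

set_option autoImplicit false

namespace Pentad.Gen

theorem exists_row {r d : ℕ} (w : Fin r → Fin d → ℂ) :
    ∃ s : ℂ, ∀ l, w l ≠ 0 → ∑ a : Fin d, s ^ (a : ℕ) * w l a ≠ 0 := by
  classical
  let p : Fin r → Polynomial ℂ := fun l =>
    if w l = 0 then 1 else ∑ a : Fin d, Polynomial.C (w l a) * Polynomial.X ^ (a : ℕ)
  have hp : ∀ l, p l ≠ 0 := by
    intro l
    by_cases h : w l = 0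
    · simp only [p, if_pos h]
      exact one_ne_zero
    · simp only [p, if_neg h]
      intro h0
      apply h
      funext b
      have h1 := congrArg (fun q : Polynomial ℂ => q.coeff (b : ℕ)) h0
      simp only [Polynomial.finsetSum_coeff, Polynomial.coeff_C_mul, Polynomial.coeff_X_pow,
        Polynomial.coeff_zero] at h1
      rw [Finset.sum_eq_single b] at h1
      · simpa using h1
      · intro a _ hab
        rw [if_neg, mul_zero]
        intro h2
        exact hab (Fin.ext h2.symm)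
      · intro h2
        exact absurd (Finset.mem_univ b) h2
  have hq : (∏ l, p l) ≠ 0 := Finset.prod_ne_zero_iff.2 fun l _ => hp l
  obtain ⟨s, hs⟩ := Infinite.exists_notMem_finset ((∏ l, p l).roots.toFinset)
  refine ⟨s, fun l hl => ?_⟩
  have h1 : ¬ (∏ l, p l).IsRoot s := by
    intro h2
    exact hs (Multiset.mem_toFinset.2 ((Polynomial.mem_roots hq).2 h2))
  rw [Polynomial.IsRoot.def, Polynomial.eval_prod, Finset.prod_eq_zero_iff] at h1
  push Not at h1
  have h3 := h1 l (Finset.mem_univ l)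
  simp only [p, if_neg hl, Polynomial.eval_finsetSum, Polynomial.eval_mul, Polynomial.eval_C,
    Polynomial.eval_pow, Polynomial.eval_X] at h3
  intro h4
  apply h3
  rw [← h4]
  exact Finset.sum_congr rfl fun a _ => mul_comm _ _

theorem exists_elem {d : ℕ} (hd : 0 < d) (c : Fin d → ℂ) (hc : c ⟨0, hd⟩ = 0) :
    ∃ E E' : Matrix (Fin d) (Fin d) ℂ, E' * E = 1 ∧ ∀ (v : Fin d → ℂ) (y : Fin d),
      ∑ a, E y a * v a = v y + if y = ⟨0, hd⟩ then ∑ a, c a * v a else 0 := by
  classical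
  let N : Matrix (Fin d) (Fin d) ℂ := Matrix.of fun y a => if y = ⟨0, hd⟩ then c a else 0
  have hN : N * N = 0 := by
    ext y a
    rw [Matrix.mul_apply]
    refine Finset.sum_eq_zero fun b _ => ?_
    simp only [N, Matrix.of_apply]
    by_cases hb : b = ⟨0, hd⟩
    · by_cases hy : y = ⟨0, hd⟩
      · rw [if_pos hy, hb, hc, zero_mul]
      · rw [if_neg hy, zero_mul]
    · rw [if_neg hb, mul_zero]
  refine ⟨1 + N, 1 - N, ?_, fun v y => ?_⟩
  · rw [sub_mul, mul_add, mul_add, one_mul, one_mul, mul_one, hN]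
    abel
  · have h1 : ∀ a, (1 + N) y a * v a = (if y = a then v a else 0) + N y a * v a := by
      intro a
      rw [Matrix.add_apply, Matrix.one_apply, add_mul]
      by_cases h : y = a
      · rw [if_pos h, if_pos h, one_mul]
      · rw [if_neg h, if_neg h, zero_mul]
    rw [Finset.sum_congr rfl fun a _ => h1 a, Finset.sum_add_distrib, Finset.sum_ite_eq,
      if_pos (Finset.mem_univ y)]
    congr 1
    by_cases hy : y = ⟨0, hd⟩
    · rw [if_pos hy]
      refine Finset.sum_congr rfl fun a _ => ?_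
      simp only [N, Matrix.of_apply, if_pos hy]
    · rw [if_neg hy]
      refine Finset.sum_eq_zero fun a _ => ?_
      simp only [N, Matrix.of_apply, if_neg hy, zero_mul]

theorem mat_gen {r d : ℕ} (hd : 0 < d) (v : Fin r → Fin d → ℂ) (hv : ∀ l, v l ≠ 0) :
    ∃ A A' : Matrix (Fin d) (Fin d) ℂ, A' * A = 1 ∧ ∀ l, ∑ a, A ⟨0, hd⟩ a * v l a ≠ 0 := by
  classical
  obtain ⟨s, hs⟩ := exists_row v
  obtain ⟨E, E', hE, h⟩ := exists_elem hd (fun a => if a = ⟨0, hd⟩ then 0 else s ^ (a : ℕ))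
    (if_pos rfl)
  refine ⟨E, E', hE, fun l => ?_⟩
  rw [h, if_pos rfl]
  have h1 : v l ⟨0, hd⟩ + ∑ a : Fin d, (if a = ⟨0, hd⟩ then 0 else s ^ (a : ℕ)) * v l a
      = ∑ a : Fin d, s ^ (a : ℕ) * v l a := by
    rw [← Finset.add_sum_erase Finset.univ (fun a : Fin d => s ^ (a : ℕ) * v l a)
      (Finset.mem_univ (⟨0, hd⟩ : Fin d)),
      ← Finset.add_sum_erase Finset.univ
      (fun a : Fin d => (if a = ⟨0, hd⟩ then 0 else s ^ (a : ℕ)) * v l a)
      (Finset.mem_univ (⟨0, hd⟩ : Fin d)), if_pos rfl, zero_mul, zero_add]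
    simp only [pow_zero, one_mul]
    congr 1
    refine Finset.sum_congr rfl fun a ha => ?_
    rw [if_neg (Finset.ne_of_mem_erase ha)]
  rw [h1]
  exact hs l (hv l)

theorem mat_kill {r d : ℕ} (hd : 1 < d) (v : Fin r → Fin d → ℂ) (j : Fin r) (hj : v j ≠ 0) :
    ∃ A A' : Matrix (Fin d) (Fin d) ℂ, A' * A = 1 ∧
      (∀ y, ∑ a, A y a * v j a = if y = ⟨1, hd⟩ then 1 else 0) ∧
      ∀ l, (∀ c : ℂ, v l ≠ c • v j) → ∑ a, A ⟨0, by omega⟩ a * v l a ≠ 0 := by
  classical
  have hd0 : 0 < d := by omega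
  obtain ⟨B0, B0', hB0, hB0j⟩ := exists_mat (r := 1) (d := d) hd0 (fun _ => v j)
    (by
      rw [linearIndependent_unique_iff]
      exact hj)
  -- swap the coordinates 0 and 1
  let σ : Equiv.Perm (Fin d) := Equiv.swap ⟨0, hd0⟩ ⟨1, hd⟩
  let B : Matrix (Fin d) (Fin d) ℂ := B0.submatrix σ id
  let B' : Matrix (Fin d) (Fin d) ℂ := B0'.submatrix id σ
  have hB : B' * B = 1 := by
    show B0'.submatrix id σ * B0.submatrix σ id = 1
    rw [Matrix.submatrix_mul_equiv B0' B0 id σ id, hB0]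
    rfl
  have hBj : ∀ y, ∑ a, B y a * v j a = if y = ⟨1, hd⟩ then 1 else 0 := by
    intro y
    have h1 : ∑ a, B y a * v j a = ∑ a, B0 (σ y) a * v j a := rfl
    rw [h1, hB0j 0 (σ y)]
    have h2 : (σ y = Fin.castLE hd0 (0 : Fin 1)) ↔ y = ⟨1, hd⟩ := by
      have h3 : Fin.castLE hd0 (0 : Fin 1) = σ ⟨1, hd⟩ := by
        show _ = Equiv.swap _ _ _
        rw [Equiv.swap_apply_right]
        rfl
      rw [h3]
      exact σ.injective.eq_iff
    by_cases hy : y = ⟨1, hd⟩
    · rw [if_pos hy, if_pos (h2.2 hy)]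
    · rw [if_neg hy, if_neg fun h => hy (h2.1 h)]
  let w : Fin r → Fin d → ℂ := fun l => Function.update (B.mulVec (v l)) ⟨1, hd⟩ 0
  obtain ⟨s, hs⟩ := exists_row w
  obtain ⟨E, E', hE, h⟩ := exists_elem hd0
    (fun a => if a = ⟨0, hd0⟩ ∨ a = ⟨1, hd⟩ then 0 else s ^ (a : ℕ)) (if_pos (Or.inl rfl))
  have hmul : ∀ (u : Fin d → ℂ) (y : Fin d), ∑ a, (E * B) y a * u a
      = ∑ a, E y a * B.mulVec u a := by
    intro u y
    have h1 : ∑ a, (E * B) y a * u a = (E * B).mulVec u y := rfl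
    rw [h1, ← Matrix.mulVec_mulVec]
    rfl
  refine ⟨E * B, B' * E', ?_, fun y => ?_, fun l hl => ?_⟩
  · rw [Matrix.mul_assoc, ← Matrix.mul_assoc E' E B, hE, Matrix.one_mul, hB]
  · rw [hmul, h]
    have h1 : ∀ a, B.mulVec (v j) a = if a = ⟨1, hd⟩ then 1 else 0 := fun a => hBj a
    rw [h1]
    have h2 : ∑ a : Fin d, (if a = ⟨0, hd0⟩ ∨ a = ⟨1, hd⟩ then 0 else s ^ (a : ℕ)) * B.mulVec (v j) a
        = 0 := by
      refine Finset.sum_eq_zero fun a _ => ?_
      rw [h1]
      by_cases ha : a = ⟨1, hd⟩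
      · rw [if_pos (Or.inr ha), zero_mul]
      · rw [if_neg ha, mul_zero]
    rw [h2]
    simp
  · rw [hmul, h, if_pos rfl]
    have h1 : B.mulVec (v l) ⟨0, hd0⟩
        + ∑ a : Fin d, (if a = ⟨0, hd0⟩ ∨ a = ⟨1, hd⟩ then 0 else s ^ (a : ℕ)) * B.mulVec (v l) a
        = ∑ a : Fin d, s ^ (a : ℕ) * w l a := by
      rw [← Finset.add_sum_erase Finset.univ (fun a : Fin d => s ^ (a : ℕ) * w l a)
        (Finset.mem_univ (⟨0, hd0⟩ : Fin d)),
        ← Finset.add_sum_erase Finset.univ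
        (fun a : Fin d => (if a = ⟨0, hd0⟩ ∨ a = ⟨1, hd⟩ then 0 else s ^ (a : ℕ))
          * B.mulVec (v l) a)
        (Finset.mem_univ (⟨0, hd0⟩ : Fin d)), if_pos (Or.inl rfl), zero_mul, zero_add]
      have h01 : (⟨0, hd0⟩ : Fin d) ≠ ⟨1, hd⟩ := by
        intro h2
        have := Fin.mk.inj h2
        omega
      congr 1
      · simp only [pow_zero, one_mul, w]
        rw [Function.update_of_ne h01]
      · refine Finset.sum_congr rfl fun a ha => ?_
        have ha0 := Finset.ne_of_mem_erase ha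
        by_cases ha1 : a = ⟨1, hd⟩
        · rw [if_pos (Or.inr ha1), zero_mul]
          simp only [w]
          rw [ha1, Function.update_self, mul_zero]
        · rw [if_neg (not_or.2 ⟨ha0, ha1⟩)]
          simp only [w]
          rw [Function.update_of_ne ha1]
    rw [h1]
    refine hs l fun h0 => ?_
    -- then `B (v l)` is a multiple of `e_1`, so `v l` is a multiple of `v j`
    apply hl (B.mulVec (v l) ⟨1, hd⟩)
    have h2 : B.mulVec (v l) = (B.mulVec (v l) ⟨1, hd⟩) • B.mulVec (v j) := by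
      funext a
      have h3 : B.mulVec (v j) a = if a = ⟨1, hd⟩ then 1 else 0 := hBj a
      rw [Pi.smul_apply, h3, smul_eq_mul]
      by_cases ha : a = ⟨1, hd⟩
      · rw [if_pos ha, mul_one, ha]
      · rw [if_neg ha, mul_zero]
        have h4 := congrFun h0 a
        simp only [w] at h4
        rw [Function.update_of_ne ha] at h4
        exact h4
    have h5 := congrArg B'.mulVec h2
    rw [Matrix.mulVec_smul, Matrix.mulVec_mulVec, Matrix.mulVec_mulVec, hB, Matrix.one_mulVec,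
      Matrix.one_mulVec] at h5
    exact h5

end Pentad.Gen
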