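import Pool.Agent.H.MP_b77b2b_ag.helper16.LA1
import Pool.Agent.H.MP_b77b2b_ag.helper16.GL

/-!
# MP_b77b2b_ag, LD2: degeneration to a weighted sum of words
-/

set_option autoImplicit false

namespace Pentad.Gen

open MvPolynomial

/-- Change of coordinates by invertible matrices. -/
theorem change_mat {k m n : ℕ} {d : Fin n → ℕ} (w0 : (i : Fin n) → Fin (d i))
    (B B' : (i : Fin n) → Matrix (Fin (d i)) (Fin (d i)) ℂ) (hB : ∀ i, B' i * B i = 1)
    {r : ℕ} (v : Fin r → (i : Fin n) → Fin (d i) → ℂ)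
    {h0 : MvPolynomial ((i : Fin n) → Fin (d i)) ℂ}
    (h1 : eval (fun y => ∑ l, ∏ i, ∑ a, B i (y i) a * v l i a) h0 ≠ 0)
    (h2 : ∀ f, VI k f → h0 * f ∈ FI k m fun i => Fin (d i)) :
    ∃ h : MvPolynomial ((i : Fin n) → Fin (d i)) ℂ,
      eval (fun x => ∑ l, ∏ i, v l i (x i)) h ≠ 0 ∧
        ∀ f, VI k f → h * f ∈ FI k m fun i => Fin (d i) := by
  refine ⟨thB B h0, ?_, fun f hf => ?_⟩
  · rw [tens_thB]
    exact h1
  · have h3 := FI_thB w0 B (h2 _ (VI_thB B' hf))
    rw [map_mul, thB_thB hB] at h3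
    exact h3

/-- If the limit of a sum of pure tensors under a one-parameter group is a weighted sum of words
near which the two ideals agree, they agree near the sum. -/
theorem degen {k m r n s : ℕ} {d : Fin n → ℕ} (hn : 0 < n)
    (v : Fin r → (i : Fin n) → Fin (d i) → ℂ) (z e1 : (i : Fin n) → Fin (d i))
    (A A' : (i : Fin n) → Matrix (Fin (d i)) (Fin (d i)) ℂ) (hA : ∀ i, A' i * A i = 1)
    (S : Fin r → Finset (Fin n)) (hS : ∀ l, (S l).card = s)
    (cc : Fin r → Fin n → ℂ) (hcc : ∀ l, ∀ i ∈ S l, cc l i ≠ 0)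
    (he : ∀ l, ∀ i ∈ S l, e1 i ≠ z i)
    (h1 : ∀ l, ∀ i ∈ S l, ∀ y, ∑ a, A i y a * v l i a = if y = e1 i then cc l i else 0)
    (h0 : ∀ l, ∀ i, i ∉ S l → ∑ a, A i (z i) a * v l i a ≠ 0)
    (loc : ∀ c : Fin r → ℂ, (∀ l, c l ≠ 0) →
      ∃ h, eval (ptc (fun l i => if i ∈ S l then e1 i else z i) c) h ≠ 0 ∧
        ∀ f, VI k f → h * f ∈ FI k m fun i => Fin (d i)) :
    ∃ h : MvPolynomial ((i : Fin n) → Fin (d i)) ℂ,
      eval (fun x => ∑ l, ∏ i, v l i (x i)) h ≠ 0 ∧
        ∀ f, VI k f → h * f ∈ FI k m fun i => Fin (d i) := by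
  classical
  obtain ⟨i0⟩ : Nonempty (Fin n) := ⟨⟨0, hn⟩⟩
  set u : Fin r → (i : Fin n) → Fin (d i) → ℂ := fun l i y => ∑ a, A i y a * v l i a with hu
  let c : Fin r → ℂ := fun l => ∏ i, if i ∈ S l then cc l i else u l i (z i)
  have hc : ∀ l, c l ≠ 0 := by
    intro l
    refine Finset.prod_ne_zero_iff.2 fun i _ => ?_
    by_cases hi : i ∈ S l
    · rw [if_pos hi]
      exact hcc l i hi
    · rw [if_neg hi]
      exact h0 l i hi
  obtain ⟨h, hh1, hh2⟩ := loc c hc
  -- the curve
  let Qp : ((i : Fin n) → Fin (d i)) → Polynomial ℂ := fun y => ∑ l, ∏ i,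
    if i ∈ S l then Polynomial.C (u l i (y i))
    else (if y i = z i then 1 else Polynomial.X) * Polynomial.C (u l i (y i))
  have q0 : (fun y => (Qp y).eval 0) = ptc (fun l i => if i ∈ S l then e1 i else z i) c := by
    funext y
    simp only [Qp]
    rw [ptc, Polynomial.eval_finsetSum]
    refine Finset.sum_congr rfl fun l _ => ?_
    rw [Polynomial.eval_prod, ← Finset.prod_mul_distrib]
    refine Finset.prod_congr rfl fun i _ => ?_
    by_cases hi : i ∈ S l
    · rw [if_pos hi, if_pos hi, if_pos hi, Polynomial.eval_C]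
      show ∑ a, A i (y i) a * v l i a = _
      rw [h1 l i hi]
      split_ifs <;> simp
    · rw [if_neg hi, if_neg hi, if_neg hi, Polynomial.eval_mul, Polynomial.eval_C]
      by_cases hy : y i = z i
      · rw [if_pos hy, if_pos hy, Polynomial.eval_one, hy, one_mul, mul_one]
      · rw [if_neg hy, if_neg hy, Polynomial.eval_X, zero_mul, mul_zero]
  let P : Polynomial ℂ := aeval Qp h
  have hP : ∀ t, P.eval t = eval (fun y => (Qp y).eval t) h := by
    intro t
    show Polynomial.eval t (aeval Qp h) = _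
    have e1 : ((Polynomial.aeval t : Polynomial ℂ →ₐ[ℂ] ℂ).comp (aeval Qp))
        = aeval fun y => (Qp y).eval t := by
      refine algHom_ext fun w => ?_
      rw [AlgHom.comp_apply, aeval_X, aeval_X, Polynomial.coe_aeval_eq_eval]
    have e2 := congrArg (fun F => F h) e1
    simp only [AlgHom.comp_apply, Polynomial.coe_aeval_eq_eval, aeval_eq_eval] at e2
    exact e2
  have hP0 : P ≠ 0 := by
    intro h3
    have h4 := hP 0
    rw [q0, h3, Polynomial.eval_zero] at h4
    exact hh1 h4.symm
  obtain ⟨t, ht⟩ : ∃ t, (P * Polynomial.X).eval t ≠ 0 := by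
    by_contra hcon
    push Not at hcon
    exact mul_ne_zero hP0 Polynomial.X_ne_zero (Polynomial.funext fun t => by
      rw [hcon t, Polynomial.eval_zero])
  rw [Polynomial.eval_mul, Polynomial.eval_X] at ht
  have ht0 : t ≠ 0 := right_ne_zero_of_mul ht
  have htP : P.eval t ≠ 0 := left_ne_zero_of_mul ht
  rw [hP] at htP
  -- the group element
  let g : (i : Fin n) → Fin (d i) → ℂ := fun i y =>
    (if i = i0 then (t ^ s)⁻¹ else 1) * if y = z i then 1 else t
  have hg : ∀ i y, g i y ≠ 0 := by
    intro i y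
    refine mul_ne_zero ?_ ?_
    · split_ifs
      · exact inv_ne_zero (pow_ne_zero _ ht0)
      · exact one_ne_zero
    · split_ifs
      · exact one_ne_zero
      · exact ht0
  refine change_mat z (fun i => Matrix.of fun y a => g i y * A i y a)
    (fun i => Matrix.of fun a y => A' i a y * (g i y)⁻¹) ?_ v (h0 := h) ?_ hh2
  · intro i
    rw [← hA i]
    ext a b
    rw [Matrix.mul_apply, Matrix.mul_apply]
    refine Finset.sum_congr rfl fun y _ => ?_
    rw [Matrix.of_apply, Matrix.of_apply]
    have := hg i y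
    field_simp
  · convert htP using 2
    congr 1
    funext y
    simp only [Qp]
    rw [Polynomial.eval_finsetSum]
    refine Finset.sum_congr rfl fun l _ => ?_
    rw [Polynomial.eval_prod]
    have k1 : ∀ i, ∑ a, (Matrix.of fun y a => g i y * A i y a) (y i) a * v l i a
        = g i (y i) * u l i (y i) := by
      intro i
      show _ = g i (y i) * ∑ a, A i (y i) a * v l i a
      rw [Finset.mul_sum]
      refine Finset.sum_congr rfl fun a _ => ?_
      rw [Matrix.of_apply, mul_assoc]
    rw [Finset.prod_congr rfl fun i _ => k1 i]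
    have k2 : ∀ i, g i (y i) * u l i (y i) = (if i = i0 then (t ^ s)⁻¹ else 1)
        * ((if i ∈ S l then t else 1) * Polynomial.eval t (if i ∈ S l
          then Polynomial.C (u l i (y i))
          else (if y i = z i then 1 else Polynomial.X) * Polynomial.C (u l i (y i)))) := by
      intro i
      show (_ * _) * _ = _
      rw [mul_assoc]
      congr 1
      by_cases hi : i ∈ S l
      · rw [if_pos hi, if_pos hi, Polynomial.eval_C]
        by_cases hy : y i = z i
        · have : u l i (y i) = 0 := by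
            show ∑ a, A i (y i) a * v l i a = 0
            rw [h1 l i hi, if_neg]
            rw [hy]
            exact (he l i hi).symm
          rw [this, mul_zero, mul_zero]
        · rw [if_neg hy]
      · rw [if_neg hi, if_neg hi, one_mul, Polynomial.eval_mul, Polynomial.eval_C]
        split_ifs
        · rw [Polynomial.eval_one]
        · rw [Polynomial.eval_X]
    rw [Finset.prod_congr rfl fun i _ => k2 i, Finset.prod_mul_distrib,
      Finset.prod_ite_eq' Finset.univ i0, if_pos (Finset.mem_univ i0), Finset.prod_mul_distrib,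
      Finset.prod_ite_mem, Finset.univ_inter, Finset.prod_const, hS, ← mul_assoc,
      inv_mul_cancel₀ (pow_ne_zero _ ht0), one_mul]

end Pentad.Gen
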