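import Mathlib

/-! Selection of columns with prescribed agreement patterns. -/

set_option autoImplicit false

namespace Pentad.Gen

/-- Disjoint subsets of size `M`. -/
private theorem ld3_sub {n r M : ℕ} (A : Finset (Fin n)) (h : r * M ≤ A.card) :
    ∃ P : Fin r → Finset (Fin n), (∀ j, P j ⊆ A) ∧ (∀ j, (P j).card = M) ∧
      ∀ j k, j ≠ k → Disjoint (P j) (P k) := by
  classical
  have h1 : Fintype.card (Fin r × Fin M) ≤ Fintype.card {i // i ∈ A} := by
    rw [Fintype.card_prod, Fintype.card_fin, Fintype.card_fin, Fintype.card_coe]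
    exact h
  obtain ⟨e⟩ := Function.Embedding.nonempty_of_card_le h1
  refine ⟨fun j => Finset.univ.image fun x : Fin M => ((e (j, x) : {i // i ∈ A}) : Fin n),
    fun j i hi => ?_, fun j => ?_, fun j k hjk => ?_⟩
  · obtain ⟨x, -, rfl⟩ := Finset.mem_image.1 hi
    exact (e (j, x)).2
  · rw [Finset.card_image_of_injective, Finset.card_univ, Fintype.card_fin]
    intro x y hxy
    have h2 := e.injective (Subtype.ext hxy)
    exact (Prod.ext_iff.1 h2).2
  · rw [Finset.disjoint_left]
    intro i hi hi'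
    obtain ⟨x, -, hx⟩ := Finset.mem_image.1 hi
    obtain ⟨y, -, hy⟩ := Finset.mem_image.1 hi'
    have h2 := e.injective (Subtype.ext (hx.trans hy.symm))
    exact hjk (Prod.ext_iff.1 h2).1

theorem select {r n M : ℕ} (rep : Fin n → Fin r → Fin r)
    (hidem : ∀ i l, rep i (rep i l) = rep i l)
    (hfar : ∀ l m, l ≠ m →
      r ^ r * (r * M) ≤ (Finset.univ.filter fun i => rep i l ≠ rep i m).card) :
    ∃ g : Fin n → Option (Fin r),
      (∀ i j, g i = some j → rep i j = j ∧ ∃ l, rep i l ≠ j) ∧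
      (∀ l m, (Finset.univ.filter fun i => g i = some (rep i l)).card
        = (Finset.univ.filter fun i => g i = some (rep i m)).card) ∧
      ∀ l m, l ≠ m → 2 * M ≤ (Finset.univ.filter fun i =>
        ¬ (g i = some (rep i l) ↔ g i = some (rep i m))).card := by
  classical
  -- the subsets for the frequent types
  let A : (Fin r → Fin r) → Finset (Fin n) := fun ρ => Finset.univ.filter fun i => rep i = ρ
  let Fr : (Fin r → Fin r) → Prop := fun ρ => r * M ≤ (A ρ).card ∧ ∃ l m, ρ l ≠ ρ m
  have hex : ∀ ρ, ∃ P : Fin r → Finset (Fin n), (∀ j, P j ⊆ A ρ) ∧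
      (∀ j, (P j).card = if Fr ρ then M else 0) ∧ ∀ j k, j ≠ k → Disjoint (P j) (P k) := by
    intro ρ
    by_cases h : Fr ρ
    · rw [if_pos h]
      exact ld3_sub (A ρ) h.1
    · rw [if_neg h]
      exact ⟨fun _ => ∅, fun _ => Finset.empty_subset _, fun _ => Finset.card_empty,
        fun _ _ _ => Finset.disjoint_empty_left _⟩
  choose P hPA hPc hPd using hex
  have hrep : ∀ {ρ : Fin r → Fin r} {j : Fin r} {i : Fin n}, i ∈ P ρ j → rep i = ρ :=
    fun {ρ j i} h => (Finset.mem_filter.1 (hPA ρ j h)).2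
  have hFr : ∀ {ρ : Fin r → Fin r} {j : Fin r} {i : Fin n}, i ∈ P ρ j → Fr ρ := by
    intro ρ j i h
    by_contra hcon
    have h1 := hPc ρ j
    rw [if_neg hcon, Finset.card_eq_zero] at h1
    rw [h1] at h
    exact absurd h (Finset.notMem_empty i)
  have hg : ∀ i : Fin n, ∃ o : Option (Fin r), ∀ j, o = some j ↔ i ∈ P (rep i) j ∧ rep i j = j := by
    intro i
    by_cases h : ∃ j, i ∈ P (rep i) j ∧ rep i j = j
    · obtain ⟨j, hj⟩ := h
      refine ⟨some j, fun k => ⟨fun hk => ?_, fun hk => ?_⟩⟩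
      · rw [← Option.some_injective _ hk]
        exact hj
      · by_contra hne
        have h1 : j ≠ k := fun h2 => hne (by rw [h2])
        exact Finset.disjoint_left.1 (hPd (rep i) j k h1) hj.1 hk.1
    · refine ⟨none, fun k => ⟨fun hk => ?_, fun hk => (h ⟨k, hk⟩).elim⟩⟩
      exact absurd hk (by simp)
  choose g hg using hg
  have hgl : ∀ i l, g i = some (rep i l) ↔ i ∈ P (rep i) (rep i l) := fun i l =>
    (hg i (rep i l)).trans ⟨fun h => h.1, fun h => ⟨h, hidem i l⟩⟩
  refine ⟨g, fun i j hij => ?_, ?_, fun l m hlm => ?_⟩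
  · obtain ⟨h1, h2⟩ := (hg i j).1 hij
    refine ⟨h2, ?_⟩
    obtain ⟨-, l, m, h3⟩ := hFr h1
    by_cases h4 : rep i l = j
    · exact ⟨m, fun h5 => h3 (h4.trans h5.symm)⟩
    · exact ⟨l, h4⟩
  · have key : ∀ l, (Finset.univ.filter fun i => g i = some (rep i l)).card =
        ∑ ρ : Fin r → Fin r, if Fr ρ then M else 0 := by
      intro l
      rw [Finset.card_eq_sum_card_fiberwise (f := rep) (t := Finset.univ)
        (fun i _ => Finset.mem_coe.2 (Finset.mem_univ _))]
      refine Finset.sum_congr rfl fun ρ _ => ?_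
      rw [← hPc ρ (ρ l)]
      congr 1
      ext i
      rw [Finset.mem_filter, Finset.mem_filter, hgl]
      constructor
      · rintro ⟨⟨-, h1⟩, h2⟩
        rwa [h2] at h1
      · intro h1
        have h2 := hrep h1
        refine ⟨⟨Finset.mem_univ i, ?_⟩, h2⟩
        rwa [h2]
    intro l m
    rw [key, key]
  · rcases Nat.eq_zero_or_pos M with hM | hM
    · rw [hM]
      exact Nat.zero_le _
    have hr : 0 < r := lt_of_le_of_lt (Nat.zero_le _) l.2
    have h1 : (Finset.univ : Finset (Fin r → Fin r)).card * (r * M) ≤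
        (Finset.univ.filter fun i => rep i l ≠ rep i m).card := by
      rw [Finset.card_univ, Fintype.card_fun, Fintype.card_fin]
      exact hfar l m hlm
    obtain ⟨ρ, -, hρ⟩ := Finset.exists_le_card_fiber_of_mul_le_card_of_maps_to
      (f := rep) (t := Finset.univ) (fun i _ => Finset.mem_univ _) ⟨id, Finset.mem_univ _⟩ h1
    have hpos : 0 < r * M := Nat.mul_pos hr hM
    obtain ⟨i₀, hi₀⟩ := Finset.card_pos.1 (hpos.trans_le hρ)
    rw [Finset.mem_filter, Finset.mem_filter] at hi₀
    have hne : ρ l ≠ ρ m := by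
      rw [← hi₀.2]
      exact hi₀.1.2
    have hFρ : Fr ρ := by
      refine ⟨hρ.trans (Finset.card_le_card fun i hi => ?_), l, m, hne⟩
      rw [Finset.mem_filter] at hi
      exact Finset.mem_filter.2 ⟨Finset.mem_univ i, hi.2⟩
    have hc : ∀ j, (P ρ j).card = M := fun j => by rw [hPc, if_pos hFρ]
    have h2 : (P ρ (ρ l) ∪ P ρ (ρ m)).card = 2 * M := by
      rw [Finset.card_union_of_disjoint (hPd ρ _ _ hne), hc, hc]
      ring
    rw [← h2]
    refine Finset.card_le_card fun i hi => Finset.mem_filter.2 ⟨Finset.mem_univ i, ?_⟩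
    have hd := Finset.disjoint_left.1 (hPd ρ _ _ hne)
    rw [hgl, hgl]
    rcases Finset.mem_union.1 hi with h3 | h3
    · rw [hrep h3]
      exact fun h4 => hd h3 (h4.1 h3)
    · rw [hrep h3]
      exact fun h4 => hd (h4.2 h3) h3

end Pentad.Gen
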