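import Pool.Agent.H.MP_b77b2b_ag.helper16.LA4
import Pool.Agent.H.MP_b77b2b_ag.helper16.LD1
import Pool.Agent.H.MP_b77b2b_ag.helper16.LD2
import Pool.Agent.H.MP_b77b2b_ag.helper16.LD3

/-!
# MP_b77b2b_ag, LD4: equality near sums of pure tensors which are pairwise far apart
-/

set_option autoImplicit false

namespace Pentad.Gen

open MvPolynomial

/-- The ideals agree near a sum of pure tensors which are pairwise far apart. -/
theorem local_far {k m r n : ℕ} (hr : k ≤ r + 1) (hm : 2 ≤ m) (hn : 0 < n) (d : Fin n → ℕ)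
    (v : Fin r → (i : Fin n) → Fin (d i) → ℂ) (hv : ∀ l i, v l i ≠ 0)
    (hfar : ∀ l l', l ≠ l' → r ^ r * (r * big r)
      ≤ Nat.card {i : Fin n // ∀ c : ℂ, v l i ≠ c • v l' i}) :
    ∃ h : MvPolynomial ((i : Fin n) → Fin (d i)) ℂ,
      eval (fun x => ∑ l, ∏ i, v l i (x i)) h ≠ 0 ∧
        ∀ f, VI k f → h * f ∈ FI k m fun i => Fin (d i) := by
  classical
  have : Nonempty (Fin n) := ⟨⟨0, hn⟩⟩
  rcases Nat.eq_zero_or_pos r with hr0 | hr0
  · subst hr0
    obtain ⟨h, h1, h2⟩ := local_at_c (I := Fin n) (D := fun i => Fin (d i)) (k := k) (m := m) hm hr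
      (α := fun l => l.elim0) (fun l => l.elim0) (c := fun l => l.elim0) (fun l => l.elim0)
    refine ⟨h, ?_, h2⟩
    have e : (fun x : (i : Fin n) → Fin (d i) => ∑ l : Fin 0, ∏ i, v l i (x i))
        = ptc (fun l => l.elim0) fun l => l.elim0 := by
      funext x
      unfold ptc
      rw [Fin.sum_univ_zero, Fin.sum_univ_zero]
    rw [e]
    exact h1
  have hd : ∀ i, 0 < d i := by
    intro i
    rcases Nat.eq_zero_or_pos (d i) with h | h
    · exfalso
      refine hv ⟨0, hr0⟩ i (funext fun a => ?_)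
      exact absurd a.2 (by omega)
    · exact h
  -- proportional vectors
  let par : (i : Fin n) → Setoid (Fin r) := fun i =>
    { r := fun l l' => ∃ c : ℂ, c ≠ 0 ∧ v l i = c • v l' i
      iseqv := {
        refl := fun l => ⟨1, one_ne_zero, (one_smul _ _).symm⟩
        symm := by
          rintro l l' ⟨c, hc, h⟩
          refine ⟨c⁻¹, inv_ne_zero hc, ?_⟩
          rw [h, smul_smul, inv_mul_cancel₀ hc, one_smul]
        trans := by
          rintro l l' l'' ⟨c, hc, h⟩ ⟨c', hc', h'⟩
          exact ⟨c * c', mul_ne_zero hc hc', by rw [h, h', smul_smul]⟩ } }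
  let rep : Fin n → Fin r → Fin r := fun i l => (Quotient.mk (par i) l).out
  have hrep : ∀ i l, ∃ c : ℂ, c ≠ 0 ∧ v l i = c • v (rep i l) i := by
    intro i l
    have h : (par i).r (rep i l) l := Quotient.exact (Quotient.out_eq (Quotient.mk (par i) l))
    exact (par i).symm h
  have hidem : ∀ i l, rep i (rep i l) = rep i l := by
    intro i l
    show (Quotient.mk (par i) (Quotient.mk (par i) l).out).out = _
    rw [Quotient.out_eq]
  have hnot : ∀ i l l', (∀ c : ℂ, v l i ≠ c • v l' i) → rep i l ≠ rep i l' := by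
    intro i l l' h hre
    obtain ⟨c, hc, h1⟩ := hrep i l
    obtain ⟨c', hc', h2⟩ := hrep i l'
    refine h (c * c'⁻¹) ?_
    rw [h1, hre, h2, smul_smul, mul_assoc, inv_mul_cancel₀ hc', mul_one]
  have hnot' : ∀ i l j, rep i j = j → rep i l ≠ j → ∀ c : ℂ, v l i ≠ c • v j i := by
    intro i l j hj hne c h
    have hc : c ≠ 0 := by
      rintro rfl
      rw [zero_smul] at h
      exact hv l i h
    have : Quotient.mk (par i) l = Quotient.mk (par i) j := Quotient.sound ⟨c, hc, h⟩
    apply hne
    show (Quotient.mk (par i) l).out = j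
    rw [this]
    exact hj
  obtain ⟨g, hg1, hg2, hg3⟩ := select (M := big r) rep hidem (by
    intro l l' hll
    refine (hfar l l' hll).trans ?_
    rw [Nat.card_eq_fintype_card, Fintype.card_subtype]
    refine Finset.card_le_card fun i hi => ?_
    rw [Finset.mem_filter] at hi ⊢
    exact ⟨hi.1, hnot i l l' hi.2⟩)
  have hd1 : ∀ i j, g i = some j → 1 < d i := by
    intro i j hij
    obtain ⟨hj, l, hl⟩ := hg1 i j hij
    by_contra hcon
    have h1 : d i = 1 := by
      have := hd i
      omega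
    have hsub : ∀ a : Fin (d i), a = ⟨0, hd i⟩ := by
      intro a
      ext
      have := a.2
      simp only
      omega
    have hj0 : v j i ⟨0, hd i⟩ ≠ 0 := by
      intro h
      refine hv j i (funext fun a => ?_)
      rw [hsub a]
      exact h
    refine hnot' i l j hj hl (v l i ⟨0, hd i⟩ * (v j i ⟨0, hd i⟩)⁻¹) (funext fun a => ?_)
    rw [hsub a, Pi.smul_apply, smul_eq_mul, mul_assoc, inv_mul_cancel₀ hj0, mul_one]
  let z : (i : Fin n) → Fin (d i) := fun i => ⟨0, hd i⟩
  let e1 : (i : Fin n) → Fin (d i) := fun i => if h : 1 < d i then ⟨1, h⟩ else ⟨0, hd i⟩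
  have hA : ∀ i, ∃ A A' : Matrix (Fin (d i)) (Fin (d i)) ℂ, A' * A = 1 ∧
      (∀ j, g i = some j → ∀ y, ∑ a, A y a * v j i a = if y = e1 i then 1 else 0) ∧
      ∀ l, g i ≠ some (rep i l) → ∑ a, A (z i) a * v l i a ≠ 0 := by
    intro i
    rcases hgi : g i with _ | j
    · obtain ⟨A, A', h1, h2⟩ := mat_gen (hd i) (fun l => v l i) (fun l => hv l i)
      exact ⟨A, A', h1, fun j hj => by simp at hj, fun l _ => h2 l⟩
    · obtain ⟨A, A', h1, h2, h3⟩ := mat_kill (hd1 i j hgi) (fun l => v l i) j (hv j i)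
      refine ⟨A, A', h1, ?_, ?_⟩
      · intro j' hj' y
        have : j' = j := (Option.some.inj hj').symm
        subst this
        rw [h2 y]
        show _ = if y = (if h : 1 < d i then ⟨1, h⟩ else ⟨0, hd i⟩) then _ else _
        rw [dif_pos (hd1 i j' hgi)]
      · intro l hl
        exact h3 l (hnot' i l j (hg1 i j hgi).1 fun h => hl (by rw [h]))
  choose A A' hA1 hA2 hA3 using hA
  choose cc hcc0 hcc using hrep
  have hmemS : ∀ l i, i ∈ (Finset.univ.filter fun i => g i = some (rep i l)) ↔
      g i = some (rep i l) := by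
    intro l i
    simp
  refine degen (s := (Finset.univ.filter fun i => g i = some (rep i ⟨0, hr0⟩)).card) hn v z e1
    A A' hA1 (fun l => Finset.univ.filter fun i => g i = some (rep i l))
    (fun l => hg2 l _) (fun l i => cc i l) (fun l i _ => hcc0 i l) ?_ ?_ ?_ ?_
  · intro l i hi
    rw [hmemS] at hi
    show (if h : 1 < d i then (⟨1, h⟩ : Fin (d i)) else ⟨0, hd i⟩) ≠ ⟨0, hd i⟩
    rw [dif_pos (hd1 i _ hi)]
    intro h
    have := congrArg Fin.val h
    simp at this
  · intro l i hi y
    rw [hmemS] at hi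
    have h1 := hA2 i _ hi y
    have h2 : ∑ a, A i y a * v l i a = cc i l * ∑ a, A i y a * v (rep i l) i a := by
      rw [Finset.mul_sum]
      refine Finset.sum_congr rfl fun a _ => ?_
      conv_lhs => rw [hcc i l]
      rw [Pi.smul_apply, smul_eq_mul]
      ring
    rw [h2, h1]
    split_ifs <;> simp
  · intro l i hi
    rw [hmemS] at hi
    exact hA3 i l hi
  · intro c hc
    refine local_at_c hm hr ?_ hc
    intro l l' hll
    refine (hg3 l l' hll).trans (Finset.card_le_card fun i hi => ?_)
    rw [Finset.mem_filter] at hi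
    rw [mem_dd]
    have hlab : ∀ o, g i = some (rep i o) → e1 i ≠ z i := by
      intro o ho
      show (if h : 1 < d i then (⟨1, h⟩ : Fin (d i)) else ⟨0, hd i⟩) ≠ ⟨0, hd i⟩
      rw [dif_pos (hd1 i _ ho)]
      intro h
      have := congrArg Fin.val h
      simp at this
    show (if i ∈ (Finset.univ.filter fun i => g i = some (rep i l)) then e1 i else z i)
      ≠ if i ∈ (Finset.univ.filter fun i => g i = some (rep i l')) then e1 i else z i
    by_cases h1 : g i = some (rep i l)
    · have h2 : ¬ g i = some (rep i l') := fun h2 => hi.2 ⟨fun _ => h2, fun _ => h1⟩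
      rw [if_pos ((hmemS l i).2 h1), if_neg (fun h => h2 ((hmemS l' i).1 h))]
      exact hlab l h1
    · have h2 : g i = some (rep i l') := by
        by_contra h2
        exact hi.2 ⟨fun h => absurd h h1, fun h => absurd h h2⟩
      rw [if_neg (fun h => h1 ((hmemS l i).1 h)), if_pos ((hmemS l' i).2 h2)]
      exact (hlab l' h2).symm

end Pentad.Gen
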